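import Mathlib

set_option autoImplicit false

/-!
# LK-ATb: the recursion

Define the pair `(α, β) k` by recursion: start with `(1, g 0)`. Step: if `(pA k ∧ pB k) ∨ ¬ (pA (k+1) ∧ pB (k+1))` keep the pair; otherwise, if `pA k` (so `¬ pB k`) keep `α` and put `β (k+1) = g (k+1) * α k`;
otherwise (`¬ pA k`) keep `β` and put `α (k+1) = (g (k+1))⁻¹ * β k`.
-/

namespace CArc

theorem at_rec {Γ : Type} [Group Γ] (pA pB : ℕ → Prop) (g : ℕ → Γ)
    (hg : ∀ k, pA k → pB k → pA (k + 1) → pB (k + 1) → g k = g (k + 1)) :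
    ∃ α β : ℕ → Γ, (∀ k, pA k → pB k → β k = g k * α k) ∧
      (∀ k, pA k → pA (k + 1) → α k = α (k + 1)) ∧
      (∀ k, pB k → pB (k + 1) → β k = β (k + 1)) := by
  classical
  let step : ℕ → Γ × Γ → Γ × Γ := fun k s =>
    if (pA k ∧ pB k) ∨ ¬ (pA (k + 1) ∧ pB (k + 1)) then s
    else if pA k then (s.1, g (k + 1) * s.1)
    else ((g (k + 1))⁻¹ * s.2, s.2)
  let st : ℕ → Γ × Γ := fun k => Nat.rec (1, g 0) (fun k s => step k s) k
  have hst : ∀ k, st (k + 1) = step k (st k) := fun k => rfl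
  have hstep : ∀ k s, step k s = if (pA k ∧ pB k) ∨ ¬ (pA (k + 1) ∧ pB (k + 1)) then s
    else if pA k then (s.1, g (k + 1) * s.1)
    else ((g (k + 1))⁻¹ * s.2, s.2) := fun k s => rfl
  refine ⟨fun k => (st k).1, fun k => (st k).2, ?_, ?_, ?_⟩
  · intro k
    induction k with
    | zero =>
      intro _ _
      show g 0 = g 0 * 1
      rw [mul_one]
    | succ k ih =>
      intro hA hB
      show (st (k + 1)).2 = g (k + 1) * (st (k + 1)).1
      rw [hst, hstep]
      by_cases c : pA k ∧ pB k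
      · rw [if_pos (Or.inl c), ← hg k c.1 c.2 hA hB]
        exact ih c.1 c.2
      · have c' : ¬ ((pA k ∧ pB k) ∨ ¬ (pA (k + 1) ∧ pB (k + 1))) := by
          rintro (h | h)
          · exact c h
          · exact h ⟨hA, hB⟩
        rw [if_neg c']
        by_cases c2 : pA k
        · rw [if_pos c2]
        · rw [if_neg c2]
          simp
  · intro k hA hA'
    show (st k).1 = (st (k + 1)).1
    rw [hst, hstep]
    split_ifs
    · rfl
    · rfl
  · intro k hB hB'
    show (st k).2 = (st (k + 1)).2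
    rw [hst, hstep]
    split_ifs with h1 h2
    · rfl
    · exact absurd (Or.inl ⟨h2, hB⟩) h1
    · rfl

end CArc
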