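import Pool.Agent.Helper18.LK.ATa
import Pool.Agent.Helper18.LK.ATb
import Pool.Agent.Helper78.CA.Scale

set_option autoImplicit false

/-!
# LK-AT: torsors over an arc-like continuum are trivial

`Γ` is any group (discrete). Take `δ`, `g` from `at_delta`. `ArcLike X` gives (as in `exists_scale`, file `Helper78/CA/Scale.lean`, with `f = id`: `exists_scale hX continuous_id ..`) a continuous `ψ : X → ℝ` such that
`|ψ x - ψ x'| ≤ 3` implies `dist x x' < δ` (multiply `ψ` by a constant if necessary). Let `m ≤ ψ` on `C` (compactness; `m` = minimum) and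
`C_k = C ∩ ψ ⁻¹' Icc (m + k) (m + k + 1)`, `k : ℕ`. `C_k ∪ C_(k+1)` has all distances `< δ`. Apply `at_rec` with `pA k := (C_k ∩ A).Nonempty`, `pB k := (C_k ∩ B).Nonempty`, `g k := g C_k` (`hg`:
`g C_k = g (C_k ∪ C_(k+1)) = g C_(k+1)`). Put `a z = α ⌊ψ z - m⌋₊`, `b z = β ⌊ψ z - m⌋₊`. For `z ∈ A ∩ C` with `z ∈ C_k`: `a z = α k` (only if `ψ z - m` is an integer there are two cells, `k`, `k + 1`, and then
`pA k`, `pA (k + 1)`, so `α k = α (k + 1)`). Locally constant: the floor of `ψ z' - m` for `z'` near `z` is `k` or (if `ψ z - m = k`) `k - 1`. `b z = c z * a z` for `z ∈ A ∩ B ∩ C`: `pA k`, `pB k`,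
`c z = g C_k`.
-/

namespace CArc

open Set Topology

theorem lc_floor {X Γ : Type} [TopologicalSpace X] {ψ : X → ℝ} (hψ : Continuous ψ) {m : ℝ}
    {S : Set X} (hm : ∀ x ∈ S, m ≤ ψ x) (α : ℕ → Γ)
    (hα : ∀ k : ℕ, (∃ x ∈ S, m + k ≤ ψ x ∧ ψ x ≤ m + k + 1) →
      (∃ x ∈ S, m + (k + 1 : ℕ) ≤ ψ x ∧ ψ x ≤ m + (k + 1 : ℕ) + 1) → α k = α (k + 1)) :
    (∀ z ∈ S, ∀ k : ℕ, m + k ≤ ψ z → ψ z ≤ m + k + 1 → α ⌊ψ z - m⌋₊ = α k) ∧
      LC S (fun z => α ⌊ψ z - m⌋₊) := by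
  have key : ∀ z ∈ S, ∀ k : ℕ, m + k ≤ ψ z → ψ z ≤ m + k + 1 → α ⌊ψ z - m⌋₊ = α k := by
    intro z hz k h1 h2
    have h0 : 0 ≤ ψ z - m := sub_nonneg.2 (hm z hz)
    have h3 : (⌊ψ z - m⌋₊ : ℝ) ≤ ψ z - m := Nat.floor_le h0
    have h4 : ψ z - m < (⌊ψ z - m⌋₊ : ℝ) + 1 := Nat.lt_floor_add_one _
    have h5 : k ≤ ⌊ψ z - m⌋₊ := Nat.le_floor (by linarith)
    have h6 : ⌊ψ z - m⌋₊ ≤ k + 1 := by
      have : (⌊ψ z - m⌋₊ : ℝ) ≤ ((k + 1 : ℕ) : ℝ) := by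
        push_cast
        linarith
      exact_mod_cast this
    rcases Nat.lt_or_ge k ⌊ψ z - m⌋₊ with h7 | h7
    · have h8 : ⌊ψ z - m⌋₊ = k + 1 := le_antisymm h6 h7
      rw [h8] at h3 h4 ⊢
      exact (hα k ⟨z, hz, h1, h2⟩ ⟨z, hz, by linarith, by linarith⟩).symm
    · rw [le_antisymm h7 h5]
  refine ⟨key, ?_⟩
  intro y hy
  have h0 : 0 ≤ ψ y - m := sub_nonneg.2 (hm y hy)
  have h3 : (⌊ψ y - m⌋₊ : ℝ) ≤ ψ y - m := Nat.floor_le h0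
  have h4 : ψ y - m < (⌊ψ y - m⌋₊ : ℝ) + 1 := Nat.lt_floor_add_one _
  set j : ℕ := ⌊ψ y - m⌋₊ with hj
  rcases lt_or_eq_of_le h3 with h5 | h5
  · refine ⟨ψ ⁻¹' Set.Ioo (m + j) (m + j + 1), isOpen_Ioo.preimage hψ, ⟨by linarith, by linarith⟩,
      ?_⟩
    rintro z ⟨hz, h6, h7⟩
    exact key z hz j h6.le h7.le
  · refine ⟨ψ ⁻¹' Set.Ioo (m + j - 1) (m + j + 1), isOpen_Ioo.preimage hψ,
      ⟨by linarith, by linarith⟩, ?_⟩
    rintro z ⟨hz, h6, h7⟩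
    rcases le_or_gt (m + j) (ψ z) with h8 | h8
    · exact key z hz j h8 h7.le
    · have h9 : 0 < j := by
        rcases Nat.eq_zero_or_pos j with h | h
        · exfalso
          rw [h] at h8
          have := hm z hz
          push_cast at h8
          linarith
        · exact h
      obtain ⟨i, hi⟩ := Nat.exists_eq_succ_of_ne_zero h9.ne'
      have hi' : (j : ℝ) = i + 1 := by
        rw [hi]
        push_cast
        ring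
      have e1 := key z hz i (by linarith) (by linarith)
      have e2 := key y hy i (by linarith) (by linarith)
      show α ⌊ψ z - m⌋₊ = α ⌊ψ y - m⌋₊
      rw [e1, e2]

theorem at_trivial {X Γ : Type} [MetricSpace X] [CompactSpace X] [Group Γ] (hX : ArcLike X)
    {C : Set X} (hC : Cont C) {A B : Set X} (hA : IsClosed A) (hB : IsClosed B)
    {c : X → Γ} (hc : LC (A ∩ B ∩ C) c) :
    ∃ a b : X → Γ, LC (A ∩ C) a ∧ LC (B ∩ C) b ∧ ∀ x ∈ A ∩ B ∩ C, b x = c x * a x := by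
  obtain ⟨δ, hδ, g, hg⟩ := at_delta hC.1 hA hB hc
  obtain ⟨ψ, hψ, hd⟩ := exists_scale hX continuous_id hδ
  obtain ⟨x₀, hx₀, hmin⟩ := hC.1.exists_isMinOn hC.2.nonempty hψ.continuousOn
  set m : ℝ := ψ x₀ with hm
  have hmC : ∀ x ∈ C, m ≤ ψ x := fun x hx => hmin hx
  set T : ℕ → Set X := fun k => {x | x ∈ C ∧ m + k ≤ ψ x ∧ ψ x ≤ m + k + 1} with hT
  have hTC : ∀ k, T k ⊆ C := fun k x hx => hx.1
  have hrec : ∀ k, (T k ∩ A).Nonempty → (T k ∩ B).Nonempty → (T (k + 1) ∩ A).Nonempty →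
      (T (k + 1) ∩ B).Nonempty → g (T k) = g (T (k + 1)) := by
    intro k h1 h2 h3 h4
    have hd' : ∀ x ∈ T k ∪ T (k + 1), ∀ x' ∈ T k ∪ T (k + 1), dist x x' < δ := by
      have hb : ∀ x ∈ T k ∪ T (k + 1), m + k ≤ ψ x ∧ ψ x ≤ m + k + 2 := by
        rintro x (⟨-, h5, h6⟩ | ⟨-, h5, h6⟩)
        · exact ⟨h5, by linarith⟩
        · push_cast at h5 h6
          exact ⟨by linarith, by linarith⟩
      intro x hx x' hx'
      have h7 := hb x hx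
      have h8 := hb x' hx'
      refine hd x x' (abs_le.2 ⟨by linarith [h7.1, h7.2, h8.1, h8.2],
        by linarith [h7.1, h7.2, h8.1, h8.2]⟩)
    have hsub : T k ∪ T (k + 1) ⊆ C := union_subset (hTC k) (hTC (k + 1))
    rw [(hg (T k) (T k ∪ T (k + 1)) subset_union_left hsub hd' h1 h2).1,
      (hg (T (k + 1)) (T k ∪ T (k + 1)) subset_union_right hsub hd' h3 h4).1]
  obtain ⟨α, β, h1, h2, h3⟩ := at_rec (fun k => (T k ∩ A).Nonempty) (fun k => (T k ∩ B).Nonempty)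
    (fun k => g (T k)) hrec
  have hne : ∀ (D : Set X) (k : ℕ), (∃ x ∈ D ∩ C, m + k ≤ ψ x ∧ ψ x ≤ m + k + 1) →
      (T k ∩ D).Nonempty := by
    rintro D k ⟨x, ⟨hxD, hxC⟩, h4, h5⟩
    exact ⟨x, ⟨hxC, h4, h5⟩, hxD⟩
  have hAf := lc_floor hψ (S := A ∩ C) (m := m) (fun x hx => hmC x hx.2) α
    (fun k h4 h5 => h2 k (hne A k h4) (hne A (k + 1) h5))
  have hBf := lc_floor hψ (S := B ∩ C) (m := m) (fun x hx => hmC x hx.2) β
    (fun k h4 h5 => h3 k (hne B k h4) (hne B (k + 1) h5))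
  refine ⟨fun z => α ⌊ψ z - m⌋₊, fun z => β ⌊ψ z - m⌋₊, hAf.2, hBf.2, ?_⟩
  rintro x ⟨⟨hxA, hxB⟩, hxC⟩
  have h0 : 0 ≤ ψ x - m := sub_nonneg.2 (hmC x hxC)
  have h4 : (⌊ψ x - m⌋₊ : ℝ) ≤ ψ x - m := Nat.floor_le h0
  have h5 : ψ x - m < (⌊ψ x - m⌋₊ : ℝ) + 1 := Nat.lt_floor_add_one _
  have hxT : x ∈ T ⌊ψ x - m⌋₊ := ⟨hxC, by linarith, by linarith⟩
  have h6 := h1 ⌊ψ x - m⌋₊ ⟨x, hxT, hxA⟩ ⟨x, hxT, hxB⟩
  have h7 := (hg (T ⌊ψ x - m⌋₊) (T ⌊ψ x - m⌋₊) Subset.rfl (hTC _) (by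
    rintro y ⟨-, h8, h9⟩ y' ⟨-, h8', h9'⟩
    exact hd y y' (abs_le.2 ⟨by linarith, by linarith⟩)) ⟨x, hxT, hxA⟩ ⟨x, hxT, hxB⟩).2 x
    ⟨⟨hxT, hxA⟩, hxB⟩
  show β ⌊ψ x - m⌋₊ = c x * α ⌊ψ x - m⌋₊
  rw [h6, h7]

end CArc
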