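import Pool.Agent.Helper18.LK.Defs

set_option autoImplicit false

/-!
# LK-LCx: locally constant functions on compact sets

`lc_finite`: cover `S` by finitely many of the open sets of `LC`.
`lc_extend`: for the finitely many values `v` the sets `S_v = {y ∈ S | a y = v}` are compact (closed in `S`) and pairwise disjoint; there is `r > 0` such that points of different `S_v` have distance `> 2 r`.
`U` = the open `r`-neighbourhood of `S` (`Metric.thickening r S`), `a' y` = `a z` for some (chosen) `z ∈ S` with `dist y z < r`. Alternatively: by compactness of `S` (Lebesgue number) there is `r > 0` such that `a z = a z'` for all `z, z' ∈ S`,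
`dist z z' < 4 r`; use the `r`-neighbourhood; for `y, y' ∈ U` with `dist y y' < r` the chosen points are at distance `< 3 r`.
-/

namespace CArc

open Set Topology

theorem lc_finite {Y Λ : Type} [TopologicalSpace Y] {S : Set Y} (hS : IsCompact S) {a : Y → Λ}
    (ha : LC S a) : (a '' S).Finite := by
  classical
  choose! U hU hyU haU using ha
  obtain ⟨t, ht, hSt⟩ := hS.elim_nhds_subcover U fun y hy => (hU y hy).mem_nhds (hyU y hy)
  refine (t.finite_toSet.image a).subset ?_
  rintro _ ⟨z, hz, rfl⟩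
  obtain ⟨y, hy, hzy⟩ := mem_iUnion₂.1 (hSt hz)
  exact ⟨y, hy, (haU y (ht y hy) z ⟨hz, hzy⟩).symm⟩

/-- uniform version of local constancy on a compact set. -/
theorem lc_unif {Y Λ : Type} [MetricSpace Y] {S : Set Y} (hS : IsCompact S) {a : Y → Λ}
    (ha : LC S a) : ∃ δ : ℝ, 0 < δ ∧ ∀ z ∈ S, ∀ z' ∈ S, dist z z' < δ → a z = a z' := by
  choose! U hU hyU haU using ha
  obtain ⟨δ, hδ, h⟩ := lebesgue_number_lemma_of_metric (c := fun y : S => U y) hS
    (fun y => hU y y.2) (fun y hy => mem_iUnion.2 ⟨⟨y, hy⟩, hyU y hy⟩)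
  refine ⟨δ, hδ, fun z hz z' hz' hd => ?_⟩
  obtain ⟨y, hy⟩ := h z hz
  have h1 := haU y y.2 z ⟨hz, hy (Metric.mem_ball_self hδ)⟩
  have h2 := haU y y.2 z' ⟨hz', hy (by rw [Metric.mem_ball, dist_comm]; exact hd)⟩
  rw [h1, h2]

theorem lc_extend {Y Λ : Type} [MetricSpace Y] {S : Set Y} (hS : IsCompact S) {a : Y → Λ}
    (ha : LC S a) : ∃ (U : Set Y) (a' : Y → Λ), IsOpen U ∧ S ⊆ U ∧ LC U a' ∧
      ∀ y ∈ S, a' y = a y := by
  classical
  obtain ⟨δ, hδ, h⟩ := lc_unif hS ha
  set r : ℝ := δ / 4 with hr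
  have hr0 : 0 < r := by positivity
  have hch : ∀ y : Y, ∃ z : Y, (∃ w ∈ S, dist y w < r) → z ∈ S ∧ dist y z < r := by
    intro y
    by_cases hy : ∃ w ∈ S, dist y w < r
    · obtain ⟨w, hw, hd⟩ := hy
      exact ⟨w, fun _ => ⟨hw, hd⟩⟩
    · exact ⟨y, fun h => absurd h hy⟩
  choose p hp using hch
  refine ⟨Metric.thickening r S, fun y => a (p y), Metric.isOpen_thickening,
    Metric.self_subset_thickening hr0 S, ?_, ?_⟩
  · intro y hy
    refine ⟨Metric.ball y r, Metric.isOpen_ball, Metric.mem_ball_self hr0, ?_⟩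
    rintro z ⟨hz, hzy⟩
    obtain ⟨h1, h2⟩ := hp y (Metric.mem_thickening_iff.1 hy)
    obtain ⟨h3, h4⟩ := hp z (Metric.mem_thickening_iff.1 hz)
    rw [Metric.mem_ball] at hzy
    refine h _ h3 _ h1 ?_
    have h5 := dist_triangle4 (p z) z y (p y)
    rw [dist_comm (p z) z] at h5
    linarith
  · intro y hy
    obtain ⟨h1, h2⟩ := hp y ⟨y, hy, by rw [dist_self]; exact hr0⟩
    refine h _ h1 _ hy ?_
    rw [dist_comm]
    linarith

end CArc
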