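import Pool.Agent.Helper18.LK.Defs
import Pool.Agent.Helper18.LK.LCx

set_option autoImplicit false

/-!
# LK-ATa: small sets meeting both `A` and `B` have a well defined value of `c`

`S = A ∩ B ∩ C` is compact. If `S` is empty: by compactness there is `δ > 0` such that no set of diameter `< δ` in `C` meets both `A` and `B` (the compact sets `A ∩ C`, `B ∩ C` are
disjoint), `g = 1`. In general: (a) there is `δ' > 0` such that `c z = c z'` for `z, z' ∈ S`, `dist z z' < 4 * δ'` (Lebesgue number for the cover of the compact set `S` by the open sets of `hc`: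
`lebesgue_number_lemma_of_metric`, balls); (b) there is `δ > 0`, `δ ≤ δ'`, such that: `u ∈ A ∩ C`, `v ∈ B ∩ C`, `dist u v < δ` imply that there is `z ∈ S` with `dist u z < δ'` (otherwise sequences `u_n`, `v_n`
converge, after passing to a subsequence, to a common point of `S`; or: the compact sets `{u ∈ A ∩ C | δ' ≤ infDist u S}` and `B ∩ C` are disjoint, `IsCompact.exists_infDist...`,
`Disjoint.exists_thickenings`). Define `g T = c z` for some (chosen) `z ∈ S` with `dist u z < δ'` for some `u ∈ T` (`1` if there is no such point). If `T ⊆ T'`, `T'` has all distances `< δ`, `T` meets `A` and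
`B`: both `g T`, `g T'` are values of `c` at points of `S` at distance `< 2 δ' + δ ≤ 3 δ'` from each other, so they are equal; a point `z ∈ T ∩ S` is at distance `< δ' + δ` of the chosen point.
-/

namespace CArc

open Set Topology

theorem at_delta {X Γ : Type} [MetricSpace X] [CompactSpace X] [Group Γ] {C A B : Set X}
    (hC : IsCompact C) (hA : IsClosed A) (hB : IsClosed B) {c : X → Γ} (hc : LC (A ∩ B ∩ C) c) :
    ∃ δ : ℝ, 0 < δ ∧ ∃ g : Set X → Γ, ∀ T T' : Set X, T ⊆ T' → T' ⊆ C →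
      (∀ x ∈ T', ∀ x' ∈ T', dist x x' < δ) → (T ∩ A).Nonempty → (T ∩ B).Nonempty →
      g T = g T' ∧ ∀ z ∈ T ∩ A ∩ B, c z = g T := by
  classical
  have hS : IsCompact (A ∩ B ∩ C) := by
    rw [inter_comm]
    exact hC.inter_right (hA.inter hB)
  obtain ⟨δ₁, hδ₁, h1⟩ := lc_unif hS hc
  set δ' : ℝ := δ₁ / 4 with hδ'
  have hδ'0 : 0 < δ' := by positivity
  have hK1 : IsCompact ((C ∩ A) \ Metric.thickening δ' (A ∩ B ∩ C)) :=
    (hC.inter_right hA).diff Metric.isOpen_thickening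
  have hK2 : IsClosed (C ∩ B) := (hC.inter_right hB).isClosed
  have hdis : Disjoint ((C ∩ A) \ Metric.thickening δ' (A ∩ B ∩ C)) (C ∩ B) := by
    rw [Set.disjoint_left]
    rintro u ⟨⟨h2, h3⟩, h4⟩ ⟨-, h5⟩
    exact h4 (Metric.self_subset_thickening hδ'0 _ ⟨⟨h3, h5⟩, h2⟩)
  obtain ⟨δ₂, hδ₂, h2⟩ := hdis.exists_thickenings hK1 hK2
  have h3 : ∀ u ∈ C ∩ A, ∀ v ∈ C ∩ B, dist u v < δ₂ → ∃ z ∈ A ∩ B ∩ C, dist u z < δ' := by
    intro u hu v hv huv
    by_contra hcon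
    have h4 : u ∈ (C ∩ A) \ Metric.thickening δ' (A ∩ B ∩ C) :=
      ⟨hu, fun h => hcon (Metric.mem_thickening_iff.1 h)⟩
    have h5 : v ∈ Metric.thickening δ₂ ((C ∩ A) \ Metric.thickening δ' (A ∩ B ∩ C)) :=
      Metric.mem_thickening_iff.2 ⟨u, h4, by rw [dist_comm]; exact huv⟩
    exact Set.disjoint_left.1 h2 h5 (Metric.self_subset_thickening hδ₂ _ hv)
  have hch : ∀ T : Set X, ∃ γ : Γ, (∃ z ∈ A ∩ B ∩ C, ∃ u ∈ T, dist u z < δ') →
      ∃ z ∈ A ∩ B ∩ C, ∃ u ∈ T, dist u z < δ' ∧ γ = c z := by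
    intro T
    by_cases hT : ∃ z ∈ A ∩ B ∩ C, ∃ u ∈ T, dist u z < δ'
    · obtain ⟨z, hz, u, hu, hd⟩ := hT
      exact ⟨c z, fun _ => ⟨z, hz, u, hu, hd, rfl⟩⟩
    · exact ⟨1, fun h => absurd h hT⟩
  choose g hg using hch
  refine ⟨min δ₂ δ', lt_min hδ₂ hδ'0, g, ?_⟩
  intro T T' hTT' hT'C hd hTA hTB
  obtain ⟨u, huT, huA⟩ := hTA
  obtain ⟨v, hvT, hvB⟩ := hTB
  obtain ⟨z, hz, hdz⟩ := h3 u ⟨hT'C (hTT' huT), huA⟩ v ⟨hT'C (hTT' hvT), hvB⟩
    (lt_of_lt_of_le (hd _ (hTT' huT) _ (hTT' hvT)) (min_le_left _ _))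
  obtain ⟨z₁, hz₁, u₁, hu₁, hd₁, hg₁⟩ := hg T ⟨z, hz, u, huT, hdz⟩
  obtain ⟨z₂, hz₂, u₂, hu₂, hd₂, hg₂⟩ := hg T' ⟨z, hz, u, hTT' huT, hdz⟩
  constructor
  · rw [hg₁, hg₂]
    refine h1 _ hz₁ _ hz₂ ?_
    have h5 := dist_triangle4 z₁ u₁ u₂ z₂
    rw [dist_comm z₁ u₁] at h5
    have h6 := lt_of_lt_of_le (hd _ (hTT' hu₁) _ hu₂) (min_le_right _ _)
    linarith
  · rintro w ⟨⟨hwT, hwA⟩, hwB⟩
    rw [hg₁]
    refine h1 _ ⟨⟨hwA, hwB⟩, hT'C (hTT' hwT)⟩ _ hz₁ ?_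
    have h5 := dist_triangle w u₁ z₁
    have h6 := lt_of_lt_of_le (hd _ (hTT' hwT) _ (hTT' hu₁)) (min_le_right _ _)
    linarith

end CArc
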