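import Pool.Agent.Helper18.LK.Defs
import Pool.Agent.Helper78.CA.Sep

set_option autoImplicit false

/-!
# LK-Bump: boundary bumping

`bump_aux`: if `v ∈ V ∩ K`, `y ∈ K`, `y ∉ closure V`: there is a continuum `H ⊆ K \ V` with `y ∈ H` which meets `closure V`. Otherwise
`sep` with `Z = K \ V`, `P = {y}`, `Q = Z ∩ closure V` gives `Z = Z₁ ∪ Z₂`; then `K` is the union of the disjoint closed
sets `Z₁ ∋ y` and `Z₂ ∪ (K ∩ closure V) ∋ v`, against connectedness.
`bump`: if `y ∈ V` take `Q = {y}` (`K` is nontrivial). Otherwise choose an open `V₁ ∋ v` with `closure V₁ ⊆ V` (`v ∈ V ∩ K`)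
and apply `bump_aux` to `V₁`; `H ≠ K` because `v ∉ H`.
-/

namespace CArc

open Set Topology

theorem bump_aux {Y : Type} [MetricSpace Y] [CompactSpace Y] {K : Set Y} (hK : Cont K) {y : Y}
    (hy : y ∈ K) {V : Set Y} (hV : IsOpen V) (hVK : (V ∩ K).Nonempty) (hyV : y ∉ closure V) :
    ∃ H : Set Y, Cont H ∧ H ⊆ K \ V ∧ y ∈ H ∧ (H ∩ closure V).Nonempty := by
  by_contra hcon
  push Not at hcon
  have hKc : IsClosed K := hK.1.isClosed
  have hZ : IsClosed (K \ V) := hKc.sdiff hV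
  have hyV' : y ∉ V := fun h => hyV (subset_closure h)
  have hyZ : ({y} : Set Y) ⊆ K \ V := by
    intro z hz
    rw [mem_singleton_iff] at hz
    rw [hz]
    exact ⟨hy, hyV'⟩
  obtain ⟨Z₁, Z₂, h1, h2, hun, hdis, hP, hQ⟩ := sep (Z := K \ V) (P := {y})
    (Q := (K \ V) ∩ closure V) hZ isClosed_singleton (hZ.inter isClosed_closure) hyZ
    inter_subset_left (by
      intro H hH hHZ hHP hHQ
      obtain ⟨z, hzH, hz⟩ := hHP
      rw [mem_singleton_iff] at hz
      rw [hz] at hzH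
      obtain ⟨w, hwH, hw⟩ := hHQ
      have := hcon H hH hHZ hzH
      have hmem : w ∈ H ∩ closure V := ⟨hwH, hw.2⟩
      rw [this] at hmem
      exact hmem)
  have hy1 : y ∈ Z₁ := hP (mem_singleton y)
  obtain ⟨v, hvV, hvK⟩ := hVK
  have hpre := hK.2.isPreconnected
  rw [isPreconnected_closed_iff] at hpre
  obtain ⟨w, hwK, hw1, hw2⟩ := hpre Z₁ (Z₂ ∪ (K ∩ closure V)) h1
    (h2.union (hKc.inter isClosed_closure)) (by
      intro z hz
      by_cases hzV : z ∈ V
      · exact Or.inr (Or.inr ⟨hz, subset_closure hzV⟩)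
      · have hzZ : z ∈ Z₁ ∪ Z₂ := by
          rw [hun]
          exact ⟨hz, hzV⟩
        rcases hzZ with h | h
        · exact Or.inl h
        · exact Or.inr (Or.inl h))
    ⟨y, hy, hy1⟩ ⟨v, hvK, Or.inr ⟨hvK, subset_closure hvV⟩⟩
  rcases hw2 with hw2 | hw2
  · exact Set.disjoint_left.mp hdis hw1 hw2
  · have hwZ : w ∈ K \ V := by
      rw [← hun]
      exact Or.inl hw1
    exact Set.disjoint_left.mp hdis hw1 (hQ ⟨hwZ, hw2.2⟩)

theorem bump {Y : Type} [MetricSpace Y] [CompactSpace Y] {K : Set Y} (hK : Cont K)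
    (hnt : K.Nontrivial) {y : Y} (hy : y ∈ K) {V : Set Y} (hV : IsOpen V)
    (hVK : (V ∩ K).Nonempty) :
    ∃ Q : Set Y, Cont Q ∧ Q ⊆ K ∧ Q ≠ K ∧ y ∈ Q ∧ (Q ∩ V).Nonempty := by
  by_cases hyV : y ∈ V
  · refine ⟨{y}, ⟨isCompact_singleton, isConnected_singleton⟩, ?_, ?_, mem_singleton y,
      ⟨y, mem_singleton y, hyV⟩⟩
    · intro z hz
      rw [mem_singleton_iff] at hz
      rw [hz]
      exact hy
    · intro h
      rw [← h] at hnt
      exact Set.not_nontrivial_singleton hnt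
  · obtain ⟨v, hvV, hvK⟩ := hVK
    obtain ⟨t, ht, htc, hts⟩ := exists_mem_nhds_isClosed_subset (hV.mem_nhds hvV)
    have hcl : closure (interior t) ⊆ V :=
      (closure_minimal interior_subset htc).trans hts
    have hvt : v ∈ interior t := mem_interior_iff_mem_nhds.mpr ht
    obtain ⟨H, hH, hHK, hyH, w, hwH, hwV⟩ := bump_aux hK hy (V := interior t) isOpen_interior
      ⟨v, hvt, hvK⟩ (fun h => hyV (hcl h))
    refine ⟨H, hH, fun z hz => (hHK hz).1, ?_, hyH, ⟨w, hwH, hcl hwV⟩⟩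
    intro h
    rw [← h] at hvK
    exact (hHK hvK).2 hvt

end CArc
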