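import Pool.Agent.Helper18.LK.FGa

set_option autoImplicit false

/-!
# LK-FG: labels on the universal cover

Let `G = FreeGroup (I × J)`, `|g|` = `FreeGroup.norm` (classical decidability). By `LK-FGa`:
(0) `|g|` and `|of p * g|` differ by exactly one; (i) for given `g` there is at most one pair `p = (i, j)` with `|of p * g| < |g|`; (ii) for given `h` there is at most one `p` with `|(of p)⁻¹ * h| < |h|`.
By induction on `m` there are `L' : I → G → Λ'`, `L : J → G → Λ` with: everywhere admissible, `L' i 1 = a₀ i`, `L j 1 = b₀ j`, and `R i j (L' i g) (L j (of (i,j) * g))` whenever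
`real i j`, `|g| ≤ m` and `|of (i,j) * g| ≤ m`; the functions for `m + 1` agree with those for `m` at all `g` with `|g| ≤ m` (so one can pass to the limit). Step: let `|g| = m + 1`. If there is `j` with `real i j` and `|of (i,j) * g| = m` (unique)
choose `L' i g` admissible with `R i j (L' i g) (L j (of (i,j) * g))` (`h2`); otherwise put `L' i g = a₀ i`. Similarly `L j h`, `|h| = m + 1`, from `L' i ((of (i,j))⁻¹ * h)` (`h1`). Two neighbours never have the same length.
(Alternatively: well-founded recursion on `|g|`, for example `WellFounded.fix` or structural recursion on `m` for the functions restricted to `|g| = m`: a function `F : ℕ → (I → G → Λ') × (J → G → Λ)`, `F (m+1)` defined from `F m`, and `L' i g = (F |g|).1 i g`,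
`L j g = (F |g|).2 j g`.)
-/

namespace CArc

theorem fg_labels {I J Λ Λ' : Type} (real : I → J → Prop) (adm' : I → Λ' → Prop)
    (adm : J → Λ → Prop) (R : I → J → Λ' → Λ → Prop)
    (h1 : ∀ i j, real i j → ∀ a, adm' i a → ∃ b, adm j b ∧ R i j a b)
    (h2 : ∀ i j, real i j → ∀ b, adm j b → ∃ a, adm' i a ∧ R i j a b)
    (a₀ : I → Λ') (ha₀ : ∀ i, adm' i (a₀ i)) (b₀ : J → Λ) (hb₀ : ∀ j, adm j (b₀ j)) :
    ∃ (L' : I → FreeGroup (I × J) → Λ') (L : J → FreeGroup (I × J) → Λ),
      (∀ i g, adm' i (L' i g)) ∧ (∀ j g, adm j (L j g)) ∧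
      (∀ i j g, real i j → R i j (L' i g) (L j (FreeGroup.of (i, j) * g))) ∧
      (∀ i, L' i 1 = a₀ i) ∧ (∀ j, L j 1 = b₀ j) := by
  classical
  let pA : I → J → Λ → Λ' := fun i j b =>
    if h : ∃ a, adm' i a ∧ R i j a b then h.choose else a₀ i
  let pB : I → J → Λ' → Λ := fun i j a =>
    if h : ∃ b, adm j b ∧ R i j a b then h.choose else b₀ j
  have pA1 : ∀ i j b, adm' i (pA i j b) := by
    intro i j b
    by_cases h : ∃ a, adm' i a ∧ R i j a b
    · simp only [pA, dif_pos h]
      exact h.choose_spec.1
    · simp only [pA, dif_neg h]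
      exact ha₀ i
  have pB1 : ∀ i j a, adm j (pB i j a) := by
    intro i j a
    by_cases h : ∃ b, adm j b ∧ R i j a b
    · simp only [pB, dif_pos h]
      exact h.choose_spec.1
    · simp only [pB, dif_neg h]
      exact hb₀ j
  have pA2 : ∀ i j b, real i j → adm j b → R i j (pA i j b) b := by
    intro i j b hr hb
    have h := h2 i j hr b hb
    simp only [pA, dif_pos h]
    exact h.choose_spec.2
  have pB2 : ∀ i j a, real i j → adm' i a → R i j a (pB i j a) := by
    intro i j a hr ha
    have h := h1 i j hr a ha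
    simp only [pB, dif_pos h]
    exact h.choose_spec.2
  let G := FreeGroup (I × J)
  let Rel : G → G → Prop := fun g' g => g'.norm < g.norm
  have wf : WellFounded Rel := (measure (fun g : G => g.norm)).wf
  let step : (g : G) → (∀ g' : G, Rel g' g → (I → Λ') × (J → Λ)) → (I → Λ') × (J → Λ) :=
    fun g rec =>
      (fun i => if h : ∃ j, real i j ∧ Rel (FreeGroup.of (i, j) * g) g then
          pA i h.choose ((rec _ h.choose_spec.2).2 h.choose) else a₀ i,
       fun j => if h : ∃ i, real i j ∧ Rel ((FreeGroup.of (i, j))⁻¹ * g) g then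
          pB h.choose j ((rec _ h.choose_spec.2).1 h.choose) else b₀ j)
  let F : G → (I → Λ') × (J → Λ) := wf.fix step
  have hF : ∀ g, F g = step g (fun g' _ => F g') := fun g => wf.fix_eq step g
  have hF1 : ∀ g i, (F g).1 i = if h : ∃ j, real i j ∧ Rel (FreeGroup.of (i, j) * g) g then
      pA i h.choose ((F (FreeGroup.of (i, h.choose) * g)).2 h.choose) else a₀ i := by
    intro g i
    rw [hF]
  have hF2 : ∀ g j, (F g).2 j = if h : ∃ i, real i j ∧ Rel ((FreeGroup.of (i, j))⁻¹ * g) g then
      pB h.choose j ((F ((FreeGroup.of (h.choose, j))⁻¹ * g)).1 h.choose) else b₀ j := by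
    intro g j
    rw [hF]
  have ad1 : ∀ g i, adm' i ((F g).1 i) := by
    intro g i
    rw [hF1]
    split_ifs with h
    · exact pA1 _ _ _
    · exact ha₀ i
  have ad2 : ∀ g j, adm j ((F g).2 j) := by
    intro g j
    rw [hF2]
    split_ifs with h
    · exact pB1 _ _ _
    · exact hb₀ j
  refine ⟨fun i g => (F g).1 i, fun j g => (F g).2 j, fun i g => ad1 g i, fun j g => ad2 g j,
    ?_, ?_, ?_⟩
  · intro i j g hr
    rcases fg_norm (i, j) g with hn | hn
    · -- `of (i, j) * g` is longer
      set g' := FreeGroup.of (i, j) * g with hg'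
      have e1 : (FreeGroup.of (i, j))⁻¹ * g' = g := by rw [hg']; group
      have hex : ∃ i', real i' j ∧ Rel ((FreeGroup.of (i', j))⁻¹ * g') g' :=
        ⟨i, hr, by rw [e1]; show g.norm < g'.norm; omega⟩
      have hu : hex.choose = i := by
        have hc := hex.choose_spec.2
        have hc' : Rel ((FreeGroup.of (i, j))⁻¹ * g') g' := by
          rw [e1]; show g.norm < g'.norm; omega
        have := fg_unique_inv hc hc'
        exact (Prod.ext_iff.1 this).1
      show R i j ((F g).1 i) ((F g').2 j)
      have e2 : (F g').2 j = pB i j ((F g).1 i) := by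
        rw [hF2, dif_pos hex, hu, e1]
      rw [e2]
      exact pB2 _ _ _ hr (ad1 g i)
    · set g' := FreeGroup.of (i, j) * g with hg'
      have hlt : Rel g' g := by show g'.norm < g.norm; omega
      have hex : ∃ j', real i j' ∧ Rel (FreeGroup.of (i, j') * g) g := ⟨j, hr, hlt⟩
      have hu : hex.choose = j := by
        have hc := hex.choose_spec.2
        have := fg_unique hc hlt
        exact (Prod.ext_iff.1 this).2
      show R i j ((F g).1 i) ((F g').2 j)
      have e2 : (F g).1 i = pA i j ((F g').2 j) := by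
        rw [hF1, dif_pos hex, hu]
      rw [e2]
      exact pA2 _ _ _ hr (ad2 g' j)
  · intro i
    show (F 1).1 i = a₀ i
    rw [hF1, dif_neg]
    rintro ⟨j, -, hj⟩
    have : (FreeGroup.of (i, j) * 1 : FreeGroup (I × J)).norm < (1 : FreeGroup (I × J)).norm := hj
    rw [FreeGroup.norm_one] at this
    omega
  · intro j
    show (F 1).2 j = b₀ j
    rw [hF2, dif_neg]
    rintro ⟨i, -, hj⟩
    have : ((FreeGroup.of (i, j))⁻¹ * 1 : FreeGroup (I × J)).norm < (1 : FreeGroup (I × J)).norm :=
      hj
    rw [FreeGroup.norm_one] at this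
    omega

end CArc
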