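import Pool.Agent.Helper18.LK.GT
import Pool.Agent.Helper18.LK.FG

set_option autoImplicit false

/-!
# LK-CSP: locally constant labels

Apply `gt_trivial` with `Γ = FreeGroup (I × J)` (torsion free: instance in `Mathlib.GroupTheory.FreeGroup.CyclicallyReduced`), `A = D'`, `B = D`, `c y = FreeGroup.of (p y, q y)`
(locally constant on `D' ∩ D ∩ K`). We get `a, b` with `b y = of (p y, q y) * a y` on `D ∩ D' ∩ K`. Multiply on the right by a constant: we may assume `a y₀ = 1` if `y₀ ∈ D'`, and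
`b y₀ = 1` if `y₀ ∉ D'` (then `y₀ ∈ D`).
`fg_labels` with `real i j := ∃ y ∈ D ∩ D' ∩ K, p y = i ∧ q y = j`, `adm'` replaced by `fun i a => (i ∈ p '' (D' ∩ K)) → adm' i a` and `adm` by `fun j b => (j ∈ q '' (D ∩ K)) → adm j b`.
Put `l' y = L' (p y) (a y)`, `l y = L (q y) (b y)`.
-/

namespace CArc

open Set Topology

theorem csp_lc2 {Y A B C : Type} [TopologicalSpace Y] {S : Set Y} {g : Y → A} {h : Y → B}
    (hg : LC S g) (hh : LC S h) (F : A → B → C) : LC S (fun y => F (g y) (h y)) := by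
  intro y hy
  obtain ⟨U, hU, hyU, h1⟩ := hg y hy
  obtain ⟨V, hV, hyV, h2⟩ := hh y hy
  refine ⟨U ∩ V, hU.inter hV, ⟨hyU, hyV⟩, ?_⟩
  rintro z ⟨hz, hzU, hzV⟩
  show F (g z) (h z) = F (g y) (h y)
  rw [h1 z ⟨hz, hzU⟩, h2 z ⟨hz, hzV⟩]

theorem csp_mono {Y A : Type} [TopologicalSpace Y] {S T : Set Y} {g : Y → A}
    (hg : LC S g) (hT : T ⊆ S) : LC T g := by
  intro y hy
  obtain ⟨U, hU, hyU, h1⟩ := hg y (hT hy)
  exact ⟨U, hU, hyU, fun z hz => h1 z ⟨hT hz.1, hz.2⟩⟩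

theorem csp {X Y : Type} [MetricSpace X] [CompactSpace X] [MetricSpace Y]
    [CompactSpace Y] (hX : ArcLike X) {f : X → Y}
    (hf : Continuous f) (hsurj : Function.Surjective f) (hconf : Confl f) {K : Set Y}
    (hK : Cont K) {D D' : Set Y} (hD : IsClosed D) (hD' : IsClosed D') (hcov : K ⊆ D ∪ D')
    {I J Λ Λ' : Type} {p : Y → I} (hp : LC (D' ∩ K) p) {q : Y → J} (hq : LC (D ∩ K) q)
    (adm' : I → Λ' → Prop) (adm : J → Λ → Prop) (R : I → J → Λ' → Λ → Prop)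
    (h1 : ∀ y ∈ D ∩ D' ∩ K, ∀ a, adm' (p y) a → ∃ b, adm (q y) b ∧ R (p y) (q y) a b)
    (h2 : ∀ y ∈ D ∩ D' ∩ K, ∀ b, adm (q y) b → ∃ a, adm' (p y) a ∧ R (p y) (q y) a b)
    (a₀ : I → Λ') (ha₀ : ∀ y ∈ D' ∩ K, adm' (p y) (a₀ (p y))) (b₀ : J → Λ)
    (hb₀ : ∀ y ∈ D ∩ K, adm (q y) (b₀ (q y))) {y₀ : Y} (hy₀ : y₀ ∈ K) :
    ∃ (l' : Y → Λ') (l : Y → Λ), LC (D' ∩ K) l' ∧ LC (D ∩ K) l ∧
      (∀ y ∈ D' ∩ K, adm' (p y) (l' y)) ∧ (∀ y ∈ D ∩ K, adm (q y) (l y)) ∧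
      (∀ y ∈ D ∩ D' ∩ K, R (p y) (q y) (l' y) (l y)) ∧ (y₀ ∈ D' → l' y₀ = a₀ (p y₀)) ∧
      (y₀ ∉ D' → l y₀ = b₀ (q y₀)) := by
  have hsub1 : D' ∩ D ∩ K ⊆ D' ∩ K := fun y hy => ⟨hy.1.1, hy.2⟩
  have hsub2 : D' ∩ D ∩ K ⊆ D ∩ K := fun y hy => ⟨hy.1.2, hy.2⟩
  obtain ⟨a, b, ha, hb, hab⟩ := gt_trivial (Γ := FreeGroup (I × J)) hX hf hsurj hconf hK hD' hD
    (fun y hy => (hcov hy).symm) (c := fun y => FreeGroup.of (p y, q y))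
    (csp_lc2 (csp_mono hp hsub1) (csp_mono hq hsub2) (fun i j => FreeGroup.of (i, j)))
  obtain ⟨L', L, hL', hL, hR, hL1', hL1⟩ := fg_labels (I := I) (J := J)
    (fun i j => ∃ y ∈ D ∩ D' ∩ K, p y = i ∧ q y = j)
    (fun i x => i ∈ p '' (D' ∩ K) → adm' i x) (fun j x => j ∈ q '' (D ∩ K) → adm j x) R
    (by
      rintro i j ⟨y, hy, rfl, rfl⟩ x hx
      obtain ⟨z, hz, hRz⟩ := h1 y hy x (hx ⟨y, ⟨hy.1.2, hy.2⟩, rfl⟩)
      exact ⟨z, fun _ => hz, hRz⟩)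
    (by
      rintro i j ⟨y, hy, rfl, rfl⟩ x hx
      obtain ⟨z, hz, hRz⟩ := h2 y hy x (hx ⟨y, ⟨hy.1.1, hy.2⟩, rfl⟩)
      exact ⟨z, fun _ => hz, hRz⟩)
    a₀ (by rintro i ⟨y, hy, rfl⟩; exact ha₀ y hy) b₀ (by rintro j ⟨y, hy, rfl⟩; exact hb₀ y hy)
  -- the general statement for a right multiplier
  have key : ∀ γ : FreeGroup (I × J), (y₀ ∈ D' → a y₀ * γ = 1) → (y₀ ∉ D' → b y₀ * γ = 1) →
      ∃ (l' : Y → Λ') (l : Y → Λ), LC (D' ∩ K) l' ∧ LC (D ∩ K) l ∧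
      (∀ y ∈ D' ∩ K, adm' (p y) (l' y)) ∧ (∀ y ∈ D ∩ K, adm (q y) (l y)) ∧
      (∀ y ∈ D ∩ D' ∩ K, R (p y) (q y) (l' y) (l y)) ∧ (y₀ ∈ D' → l' y₀ = a₀ (p y₀)) ∧
      (y₀ ∉ D' → l y₀ = b₀ (q y₀)) := by
    intro γ hγ hγ'
    refine ⟨fun y => L' (p y) (a y * γ), fun y => L (q y) (b y * γ), ?_, ?_, ?_, ?_, ?_, ?_, ?_⟩
    · exact csp_lc2 hp ha (fun i g => L' i (g * γ))
    · exact csp_lc2 hq hb (fun j g => L j (g * γ))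
    · intro y hy
      exact hL' (p y) _ ⟨y, hy, rfl⟩
    · intro y hy
      exact hL (q y) _ ⟨y, hy, rfl⟩
    · intro y hy
      have e := hab y ⟨⟨hy.1.2, hy.1.1⟩, hy.2⟩
      have h := hR (p y) (q y) (a y * γ) ⟨y, hy, rfl, rfl⟩
      show R (p y) (q y) (L' (p y) (a y * γ)) (L (q y) (b y * γ))
      rw [e, mul_assoc]
      exact h
    · intro h
      show L' (p y₀) (a y₀ * γ) = _
      rw [hγ h, hL1']
    · intro h
      show L (q y₀) (b y₀ * γ) = _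
      rw [hγ' h, hL1]
  by_cases hy : y₀ ∈ D'
  · exact key (a y₀)⁻¹ (fun _ => mul_inv_cancel _) (fun h => absurd hy h)
  · exact key (b y₀)⁻¹ (fun h => absurd h hy) (fun _ => mul_inv_cancel _)

end CArc
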