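import Pool.Agent.Helper18.LK.CVa

set_option autoImplicit false

/-!
# LK-CV: a small open set over which the neighbourhood is a product and truth is constant

Step 1: start with `V₀` from `start_V`. Apply `shrink_V` to
`F = B j`, `j : Fin n`: now every `B j` contains `D₁ = closure (V₁ ∩ K)` or misses it. Put `O' = ⋂ j ∈ {j | D₁ ⊆ B j}, O j` (open; finite intersection): for `y ∈ D₁`:
`(y,t) ∈ PolyN B O ↔ t ∈ O'`. (`closure (V₁ ∩ K) ≠ K` because `closure (V₁ ∩ K) ⊆ closure (V₀ ∩ K) ⊊ K`; `K` is closed.)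
Step 2: the set `ψ '' (f ⁻¹' D₁)` is compact and contained in `O'`. The components of the open set `O'` (`connectedComponentIn O' t`, open:
`IsOpen.connectedComponentIn`) cover it, so there are finitely many points `t₁, ..., t_k ∈ O'` such that the components `C_i` of `t_i` cover it. The set
`A_i = f '' (f ⁻¹' D₁ ∩ ψ ⁻¹' C_i)` is closed: `f ⁻¹' D₁ ∩ ψ ⁻¹' C_i` is closed, because on `f ⁻¹' D₁` its complement is the preimage of the union of the other
(open) components. Apply `shrink_V` to the `A_i`: get `V`, `D = closure (V ∩ K) ⊆ D₁`. If `y, y' ∈ D` and `f x = y`, then `ψ x ∈ C_i` for some `i`, so `y ∈ A_i`, so `D ⊆ A_i`, so there is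
`x'` with `f x' = y'`, `ψ x' ∈ C_i`, and `uIcc (ψ x) (ψ x') ⊆ C_i ⊆ O'` (`C_i` is preconnected, so `OrdConnected`).
-/

namespace CArc

open Set Topology

theorem choose_V {X Y : Type} [MetricSpace X] [CompactSpace X] [MetricSpace Y] [CompactSpace Y]
    {f : X → Y} (hf : Continuous f) {ψ : X → ℝ} (hψ : Continuous ψ) {n : ℕ} {B : Fin n → Set Y}
    {O : Fin n → Set ℝ} (hB : ∀ j, IsClosed (B j)) (hO : ∀ j, IsOpen (O j))
    (hψN : ∀ x, (f x, ψ x) ∈ PolyN B O) {K : Set Y} (hK : Cont K)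
    (hnt : K.Nontrivial) :
    ∃ (V : Set Y) (O' : Set ℝ), IsOpen V ∧ IsOpen O' ∧ (V ∩ K).Nonempty ∧
      closure (V ∩ K) ≠ K ∧ (∀ y ∈ closure (V ∩ K), ∀ t, (y, t) ∈ PolyN B O ↔ t ∈ O') ∧
      (∀ y ∈ closure (V ∩ K), ∀ y' ∈ closure (V ∩ K), ∀ x, f x = y →
        ∃ x', f x' = y' ∧ Set.uIcc (ψ x) (ψ x') ⊆ O') := by
  obtain ⟨V₀, hV₀, hV₀K, hV₀ne⟩ := start_V hnt
  obtain ⟨V₁, hV₁, hV₁V, hV₁K, h₁⟩ := shrink_V Finset.univ B (fun j _ => hB j) hV₀ hV₀K
  set D₁ : Set Y := closure (V₁ ∩ K) with hD₁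
  set O' : Set ℝ := ⋂ j, ⋂ (_ : D₁ ⊆ B j), O j with hO'
  have hO'o : IsOpen O' := by
    refine isOpen_iInter_of_finite fun j => isOpen_iInter_of_finite fun _ => hO j
  have hmem : ∀ y ∈ D₁, ∀ t, (y, t) ∈ PolyN B O ↔ t ∈ O' := by
    intro y hy t
    simp only [hO', mem_iInter]
    constructor
    · intro h j hj
      exact h j (hj hy)
    · intro h j hj
      rcases h₁ j (Finset.mem_univ j) with h2 | h2
      · exact h j h2
      · exact absurd hj (Set.disjoint_left.1 h2 hy)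
  set Kx : Set X := f ⁻¹' D₁ with hKx
  have hKxc : IsClosed Kx := isClosed_closure.preimage hf
  have hKxO : ∀ x ∈ Kx, ψ x ∈ O' := fun x hx => (hmem _ hx _).1 (hψN x)
  have hcomp : IsCompact (ψ '' Kx) := hKxc.isCompact.image hψ
  obtain ⟨T, hT, hcov⟩ := hcomp.elim_nhds_subcover (fun t => connectedComponentIn O' t) (by
    rintro t ⟨x, hx, rfl⟩
    exact hO'o.connectedComponentIn.mem_nhds (mem_connectedComponentIn (hKxO x hx)))
  have hclC : ∀ t ∈ T, closure (connectedComponentIn O' t) ∩ O' ⊆ connectedComponentIn O' t := by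
    intro t ht
    have htO : t ∈ O' := by
      obtain ⟨x, hx, rfl⟩ := hT t ht
      exact hKxO x hx
    refine IsPreconnected.subset_connectedComponentIn ?_ ⟨subset_closure
      (mem_connectedComponentIn htO), htO⟩ inter_subset_right
    exact isPreconnected_connectedComponentIn.subset_closure
      (fun s hs => ⟨subset_closure hs, connectedComponentIn_subset _ _ hs⟩) inter_subset_left
  have hA : ∀ t ∈ T, IsClosed (f '' (Kx ∩ ψ ⁻¹' connectedComponentIn O' t)) := by
    intro t ht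
    have e : Kx ∩ ψ ⁻¹' connectedComponentIn O' t
        = Kx ∩ ψ ⁻¹' closure (connectedComponentIn O' t) := by
      ext x
      constructor
      · rintro ⟨hx, hx2⟩
        exact ⟨hx, subset_closure hx2⟩
      · rintro ⟨hx, hx2⟩
        exact ⟨hx, hclC t ht ⟨hx2, hKxO x hx⟩⟩
    rw [e]
    exact ((hKxc.inter (isClosed_closure.preimage hψ)).isCompact.image hf).isClosed
  obtain ⟨V, hV, hVV₁, hVK, h₂⟩ := shrink_V T
    (fun t => f '' (Kx ∩ ψ ⁻¹' connectedComponentIn O' t)) hA hV₁ hV₁K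
  have hsub : closure (V ∩ K) ⊆ D₁ := closure_mono (inter_subset_inter_left _ hVV₁)
  refine ⟨V, O', hV, hO'o, hVK, ?_, fun y hy t => hmem y (hsub hy) t, ?_⟩
  · intro h
    apply hV₀ne
    refine Set.Subset.antisymm (closure_minimal inter_subset_right hK.1.isClosed) ?_
    calc K = closure (V ∩ K) := h.symm
      _ ⊆ closure (V₀ ∩ K) := closure_mono (inter_subset_inter_left _ (hVV₁.trans hV₁V))
  · intro y hy y' hy' x hx
    have hxK : x ∈ Kx := by
      change f x ∈ D₁
      rw [hx]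
      exact hsub hy
    obtain ⟨t, htT, hxt⟩ := mem_iUnion₂.1 (hcov ⟨x, hxK, rfl⟩)
    have hyA : y ∈ f '' (Kx ∩ ψ ⁻¹' connectedComponentIn O' t) := ⟨x, ⟨hxK, hxt⟩, hx⟩
    have hD : closure (V ∩ K) ⊆ f '' (Kx ∩ ψ ⁻¹' connectedComponentIn O' t) := by
      rcases h₂ t htT with h3 | h3
      · exact h3
      · exact absurd hyA (Set.disjoint_left.1 h3 hy)
    obtain ⟨x', ⟨_, hx't⟩, hx'y⟩ := hD hy'
    exact ⟨x', hx'y, (isPreconnected_connectedComponentIn.ordConnected.uIcc_subset hxt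
      hx't).trans (connectedComponentIn_subset _ _)⟩

end CArc
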