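import Pool.Agent.Helper18.LK.Defs

set_option autoImplicit false

/-!
# LK-CVa: shrinking an open set

One closed set `F`: if `V ∩ K ⊆ F` take `V' = V`; otherwise take a point `y` of `(V ∩ K) \ F` and a small ball around `y` whose closure is contained in `V \ F`. Induction over finitely many closed sets (`Finset.induction` or `Fin` induction);
`closure (V' ∩ K) ⊆ closure (V ∩ K)`, so the earlier properties are inherited.
`start_V`: small ball around a point of `K`; `K` has another point.
-/

namespace CArc

open Set Topology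

theorem shrink_V {Y ι : Type} [MetricSpace Y] (s : Finset ι) (F : ι → Set Y)
    (hF : ∀ i ∈ s, IsClosed (F i)) {K V : Set Y} (hV : IsOpen V) (hVK : (V ∩ K).Nonempty) :
    ∃ V' : Set Y, IsOpen V' ∧ V' ⊆ V ∧ (V' ∩ K).Nonempty ∧
      ∀ i ∈ s, closure (V' ∩ K) ⊆ F i ∨ Disjoint (closure (V' ∩ K)) (F i) := by
  classical
  induction s using Finset.induction_on with
  | empty => exact ⟨V, hV, subset_rfl, hVK, by simp⟩
  | insert i s hi ih =>
    obtain ⟨W, hW, hWV, hWK, h⟩ := ih (fun j hj => hF j (Finset.mem_insert_of_mem hj))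
    by_cases hc : W ∩ K ⊆ F i
    · refine ⟨W, hW, hWV, hWK, ?_⟩
      intro j hj
      rcases Finset.mem_insert.1 hj with rfl | hj
      · exact Or.inl (closure_minimal hc (hF _ (Finset.mem_insert_self _ _)))
      · exact h j hj
    · obtain ⟨y, hy, hyF⟩ := Set.not_subset.1 hc
      have hop : IsOpen (W \ F i) := hW.sdiff (hF i (Finset.mem_insert_self _ _))
      obtain ⟨ε, hε, hb⟩ := Metric.isOpen_iff.1 hop y ⟨hy.1, hyF⟩
      have hb2 : Metric.closedBall y (ε / 2) ⊆ W \ F i :=
        (Metric.closedBall_subset_ball (by linarith)).trans hb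
      have hb3 : Metric.ball y (ε / 2) ⊆ W :=
        fun z hz => (hb2 (Metric.ball_subset_closedBall hz)).1
      have hcl : closure (Metric.ball y (ε / 2) ∩ K) ⊆ Metric.closedBall y (ε / 2) :=
        closure_minimal (inter_subset_left.trans Metric.ball_subset_closedBall)
          Metric.isClosed_closedBall
      refine ⟨Metric.ball y (ε / 2), Metric.isOpen_ball, hb3.trans hWV,
        ⟨y, Metric.mem_ball_self (by positivity), hy.2⟩, ?_⟩
      intro j hj
      rcases Finset.mem_insert.1 hj with rfl | hj
      · exact Or.inr (Set.disjoint_left.2 fun z hz hzF => (hb2 (hcl hz)).2 hzF)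
      · have hsub : closure (Metric.ball y (ε / 2) ∩ K) ⊆ closure (W ∩ K) :=
          closure_mono (inter_subset_inter_left _ hb3)
        rcases h j hj with h1 | h1
        · exact Or.inl (hsub.trans h1)
        · exact Or.inr (h1.mono_left hsub)

theorem start_V {Y : Type} [MetricSpace Y] {K : Set Y} (hnt : K.Nontrivial) :
    ∃ V : Set Y, IsOpen V ∧ (V ∩ K).Nonempty ∧ closure (V ∩ K) ≠ K := by
  obtain ⟨a, ha, b, hb, hab⟩ := hnt
  have hd : 0 < dist a b := dist_pos.2 hab
  refine ⟨Metric.ball a (dist a b / 2), Metric.isOpen_ball,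
    ⟨a, Metric.mem_ball_self (by positivity), ha⟩, fun h => ?_⟩
  have h1 : b ∈ closure (Metric.ball a (dist a b / 2) ∩ K) := by rw [h]; exact hb
  have h2 : b ∈ Metric.closedBall a (dist a b / 2) :=
    closure_minimal (inter_subset_left.trans Metric.ball_subset_closedBall)
      Metric.isClosed_closedBall h1
  rw [Metric.mem_closedBall, dist_comm] at h2
  linarith

end CArc
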