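import Pool.Agent.Helper78.CA.Fin
import Pool.Agent.Helper78.CA.HHp
import Pool.Agent.Helper78.CA.MinF

set_option autoImplicit false

/-!
# Confluent images of arc-like continua are arc-like: definitions for the full theorem
(continues `Pool.Agent.Helper78.CA.Defs`)
-/

namespace CArc

open Set Topology

/-- `g` is locally constant on the set `S`. -/
def LC {Y Λ : Type} [TopologicalSpace Y] (S : Set Y) (g : Y → Λ) : Prop :=
  ∀ y ∈ S, ∃ U : Set Y, IsOpen U ∧ y ∈ U ∧ ∀ z ∈ S ∩ U, g z = g y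

/-- The function `s` is true at `b`: it is joined, inside the fibre of `N` over `b`, to a point
of the graph over `b`. -/
def TrueAt {X Y : Type} (N : Set (Y × ℝ)) (f : X → Y) (ψ : X → ℝ) (s : Y → ℝ) (b : Y) : Prop :=
  ∃ x : X, f x = b ∧ Seg N b (s b) (ψ x)

/-- Polyhedral neighbourhoods of the graph. -/
def PolyN {Y : Type} {n : ℕ} (B : Fin n → Set Y) (O : Fin n → Set ℝ) : Set (Y × ℝ) :=
  {q | ∀ j, q.1 ∈ B j → q.2 ∈ O j}

/-- Local data: `E` is relatively clopen in `D = closure (V ∩ K)`, `τ` is true on `E`; `G` is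
relatively clopen in `(K \ V) ∪ (D \ E)` and `τ` is a section over `G`. -/
structure LData {X Y : Type} [TopologicalSpace Y] (N : Set (Y × ℝ)) (f : X → Y) (ψ : X → ℝ)
    (K V : Set Y) (τ : Y → ℝ) (E G : Set Y) : Prop where
  cont : Continuous τ
  closedE : IsClosed E
  subE : E ⊆ closure (V ∩ K)
  closedE' : IsClosed (closure (V ∩ K) \ E)
  trueE : ∀ y ∈ E, TrueAt N f ψ τ y
  closedG : IsClosed G
  subG : G ⊆ (K \ V) ∪ (closure (V ∩ K) \ E)
  closedG' : IsClosed (((K \ V) ∪ (closure (V ∩ K) \ E)) \ G)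
  secG : ∀ y ∈ G, (y, τ y) ∈ N

end CArc
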