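import Mathlib

set_option autoImplicit false

/-!
# LK-FGa: lengths in the free group

`|of p * g| = |g| + 1` or `|of p * g| + 1 = |g|`; the second case happens iff the reduced word of `g` begins with the letter `(p, false)`;
similarly for `(of p)⁻¹ * g` and the letter `(p, true)` (`FreeGroup.reduce.cons`, `FreeGroup.toWord_of_mul`..., `FreeGroup.norm`). Use `open Classical` decidability if you like, but keep the statements as they are (with
`[DecidableEq α]`).
-/

namespace CArc

theorem fg_cons {α : Type} [DecidableEq α] (x : α × Bool) (g : FreeGroup α) :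
    (((FreeGroup.mk [x] * g).toWord = x :: g.toWord ∧
      ∀ tl, g.toWord ≠ (x.1, !x.2) :: tl)) ∨
    (∃ tl, g.toWord = (x.1, !x.2) :: tl ∧ (FreeGroup.mk [x] * g).toWord = tl) := by
  have h : (FreeGroup.mk [x] * g).toWord = FreeGroup.reduce (x :: g.toWord) := by
    rw [FreeGroup.toWord_mul, FreeGroup.toWord_mk]
    simp [FreeGroup.reduce]
  rw [FreeGroup.reduce.cons, FreeGroup.reduce_toWord] at h
  rcases hg : g.toWord with _ | ⟨hd, tl⟩
  · left
    rw [hg] at h
    exact ⟨h, fun tl htl => by simp at htl⟩
  · rw [hg] at h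
    by_cases hc : x.1 = hd.1 ∧ x.2 = !hd.2
    · right
      refine ⟨tl, ?_, ?_⟩
      · obtain ⟨h1, h2⟩ := hc
        have : hd = (x.1, !x.2) := by
          ext
          · exact h1.symm
          · simp [h2]
        rw [this]
      · rw [h]
        simp only
        rw [if_pos hc]
    · left
      refine ⟨?_, ?_⟩
      · rw [h]
        simp only
        rw [if_neg hc]
      · intro tl' htl'
        rw [List.cons.injEq] at htl'
        apply hc
        rw [htl'.1]
        simp

theorem fg_lt {α : Type} [DecidableEq α] {x : α × Bool} {g : FreeGroup α}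
    (h : (FreeGroup.mk [x] * g).norm < g.norm) : g.toWord.head? = some (x.1, !x.2) := by
  rcases fg_cons x g with ⟨h1, h2⟩ | ⟨tl, h1, h2⟩
  · exfalso
    rw [FreeGroup.norm, FreeGroup.norm, h1] at h
    simp at h
  · rw [h1]; rfl

theorem fg_norm {α : Type} [DecidableEq α] (p : α) (g : FreeGroup α) :
    (FreeGroup.of p * g).norm = g.norm + 1 ∨ (FreeGroup.of p * g).norm + 1 = g.norm := by
  have e : FreeGroup.of p = FreeGroup.mk [(p, true)] := rfl
  rw [e]
  rcases fg_cons (p, true) g with ⟨h1, h2⟩ | ⟨tl, h1, h2⟩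
  · left
    rw [FreeGroup.norm, FreeGroup.norm, h1]
    rfl
  · right
    rw [FreeGroup.norm, FreeGroup.norm, h1, h2]
    rfl

theorem fg_unique {α : Type} [DecidableEq α] {p p' : α} {g : FreeGroup α}
    (h : (FreeGroup.of p * g).norm < g.norm) (h' : (FreeGroup.of p' * g).norm < g.norm) :
    p = p' := by
  have e : ∀ p : α, FreeGroup.of p = FreeGroup.mk [(p, true)] := fun p => rfl
  rw [e] at h h'
  have h1 := fg_lt h
  have h2 := fg_lt h'
  rw [h1] at h2
  simpa using h2

theorem fg_unique_inv {α : Type} [DecidableEq α] {p p' : α} {g : FreeGroup α}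
    (h : ((FreeGroup.of p)⁻¹ * g).norm < g.norm)
    (h' : ((FreeGroup.of p')⁻¹ * g).norm < g.norm) : p = p' := by
  have e : ∀ p : α, (FreeGroup.of p)⁻¹ = FreeGroup.mk [(p, false)] := fun p => rfl
  rw [e] at h h'
  have h1 := fg_lt h
  have h2 := fg_lt h'
  rw [h1] at h2
  simpa using h2

end CArc
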