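import Pool.Agent.Helper18.LK.Defs

set_option autoImplicit false

/-!
# LK-FinFam: finitely many local data suffice

For every local datum `d = (τ, E, G)` let `D_d = {x | f x ∉ E ∪ (((K \ V) ∪ (closure (V ∩ K) \ E)) \ G) ∧ Seg N (f x) (τ (f x)) (ψ x)}`, an open set
(`seg_open`, closed sets `closedE`, `closedG'`). If `f x ∈ K` and `x ∈ D_d` then `f x ∈ G` (a point of `K` outside `E` is in `(K \ V) ∪ (closure (V ∩ K) \ E)`).
By hypothesis the `D_d` cover the compact set `f ⁻¹' K`: a point `x` with `f x ∈ G`, `f x ∉ E` is not in `(..) \ G`. Take a finite subcover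
(`IsCompact.elim_finite_subcover` or `IsCompact.elim_nhds_subcover`) and enumerate it by `Fin n`.
-/

namespace CArc

open Set Topology

theorem finite_family {X Y : Type} [MetricSpace X] [CompactSpace X] [MetricSpace Y]
    [CompactSpace Y] {f : X → Y} (hf : Continuous f) {N : Set (Y × ℝ)} (hN : IsOpen N)
    {ψ : X → ℝ} (hψ : Continuous ψ) {K V : Set Y} (hK : IsClosed K) (hV : IsOpen V)
    (h : ∀ x, f x ∈ K → ∃ (τ : Y → ℝ) (E G : Set Y), LData N f ψ K V τ E G ∧ f x ∈ G ∧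
      f x ∉ E ∧ Seg N (f x) (τ (f x)) (ψ x)) :
    ∃ (n : ℕ) (τ : Fin n → Y → ℝ) (E G : Fin n → Set Y),
      (∀ a, LData N f ψ K V (τ a) (E a) (G a)) ∧
      ∀ x, f x ∈ K → ∃ a, f x ∈ G a ∧ f x ∉ E a ∧ Seg N (f x) (τ a (f x)) (ψ x) := by
  classical
  let I : Type := {x : X // f x ∈ K}
  choose τ E G hL hG hE hs using fun x : I => h x.1 x.2
  have hop : ∀ i : I, IsOpen {x : X | f x ∉ E i ∪
      (((K \ V) ∪ (closure (V ∩ K) \ E i)) \ G i) ∧ Seg N (f x) (τ i (f x)) (ψ x)} := by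
    intro i
    have h1 : IsOpen {x : X | f x ∉ E i ∪ (((K \ V) ∪ (closure (V ∩ K) \ E i)) \ G i)} :=
      (((hL i).closedE.union (hL i).closedG').isOpen_compl).preimage hf
    have h2 : IsOpen {x : X | Seg N (f x) (τ i (f x)) (ψ x)} :=
      seg_open hN hf ((hL i).cont.comp hf) hψ
    exact h1.inter h2
  have hcomp : IsCompact (f ⁻¹' K) := (hK.preimage hf).isCompact
  obtain ⟨t, ht⟩ := hcomp.elim_finite_subcover _ hop (by
    intro x hx
    refine mem_iUnion.2 ⟨⟨x, hx⟩, ?_, hs ⟨x, hx⟩⟩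
    rintro (h1 | h1)
    · exact hE ⟨x, hx⟩ h1
    · exact h1.2 (hG ⟨x, hx⟩))
  let e := t.equivFin
  refine ⟨t.card, fun a => τ (e.symm a).1, fun a => E (e.symm a).1, fun a => G (e.symm a).1,
    fun a => hL _, ?_⟩
  intro x hx
  obtain ⟨i, hit, hx1, hx2⟩ := mem_iUnion₂.1 (ht hx)
  refine ⟨e ⟨i, hit⟩, ?_⟩
  have h3 : ((e.symm (e ⟨i, hit⟩)).1 : I) = i := by simp
  simp only [h3]
  have hxE : f x ∉ E i := fun h => hx1 (Or.inl h)
  refine ⟨?_, hxE, hx2⟩
  by_contra hxG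
  apply hx1
  refine Or.inr ⟨?_, hxG⟩
  by_cases hxV : f x ∈ V
  · exact Or.inr ⟨subset_closure ⟨hxV, hx⟩, hxE⟩
  · exact Or.inl ⟨hx, hxV⟩

end CArc
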