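import Pool.Agent.Helper18.LK.LCx

set_option autoImplicit false

/-!
# LK-GTa: the sets of values on the fibres

`fib_finite`: `Fib C f a' y ⊆ a' '' (f ⁻¹' A ∩ C)`, finite by `lc_finite` (`f ⁻¹' A ∩ C` is compact).
`fib_usc`: the set `{x ∈ f ⁻¹' A ∩ C | a' x ∉ Fib C f a' y}` is closed (relatively closed in the compact set `f ⁻¹' A ∩ C` because `a'` is locally constant), so compact, so its image under `f` is closed and does not contain `y`; `U` = the complement of the image.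
-/

namespace CArc

open Set Topology

/-- The set of values of `a'` on the fibre of `f` over `y` inside `C`. -/
def Fib {X Y Γ : Type} (C : Set X) (f : X → Y) (a' : X → Γ) (y : Y) : Set Γ :=
  {s | ∃ x ∈ C, f x = y ∧ a' x = s}

theorem fib_finite {X Y Γ : Type} [MetricSpace X] [CompactSpace X] [MetricSpace Y]
    [CompactSpace Y] {C : Set X} (hC : IsCompact C) {f : X → Y} (hf : Continuous f) {A : Set Y}
    (hA : IsClosed A) {a' : X → Γ} (ha : LC (f ⁻¹' A ∩ C) a') {y : Y} (hy : y ∈ A) :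
    (Fib C f a' y).Finite := by
  have hK : IsCompact (f ⁻¹' A ∩ C) := hC.inter_left (hA.preimage hf)
  refine (lc_finite hK ha).subset ?_
  rintro s ⟨x, hxC, hxy, rfl⟩
  refine ⟨x, ⟨?_, hxC⟩, rfl⟩
  show f x ∈ A
  rw [hxy]
  exact hy

theorem fib_usc {X Y Γ : Type} [MetricSpace X] [CompactSpace X] [MetricSpace Y]
    [CompactSpace Y] {C : Set X} (hC : IsCompact C) {f : X → Y} (hf : Continuous f) {A : Set Y}
    (hA : IsClosed A) {a' : X → Γ} (ha : LC (f ⁻¹' A ∩ C) a') {y : Y} (hy : y ∈ A) :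
    ∃ U : Set Y, IsOpen U ∧ y ∈ U ∧ ∀ y' ∈ A ∩ U, Fib C f a' y' ⊆ Fib C f a' y := by
  have hK : IsCompact (f ⁻¹' A ∩ C) := hC.inter_left (hA.preimage hf)
  set D : Set X := {x | x ∈ f ⁻¹' A ∩ C ∧ a' x ∉ Fib C f a' y} with hD
  have hDcl : IsClosed D := by
    rw [← isOpen_compl_iff, isOpen_iff_forall_mem_open]
    intro x hx
    by_cases hxK : x ∈ f ⁻¹' A ∩ C
    · obtain ⟨U, hU, hxU, hUc⟩ := ha x hxK
      have hxF : a' x ∈ Fib C f a' y := by
        by_contra hcon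
        exact hx ⟨hxK, hcon⟩
      refine ⟨U, ?_, hU, hxU⟩
      intro z hz hzD
      apply hzD.2
      rw [hUc z ⟨hzD.1, hz⟩]
      exact hxF
    · refine ⟨(f ⁻¹' A ∩ C)ᶜ, ?_, hK.isClosed.isOpen_compl, hxK⟩
      intro z hz hzD
      exact hz hzD.1
  have hDc : IsCompact D := hK.of_isClosed_subset hDcl (fun x hx => hx.1)
  have hIm : IsClosed (f '' D) := (hDc.image hf).isClosed
  refine ⟨(f '' D)ᶜ, hIm.isOpen_compl, ?_, ?_⟩
  · rintro ⟨x, hx, hxy⟩
    exact hx.2 ⟨x, hx.1.2, hxy, rfl⟩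
  · rintro y' ⟨hy'A, hy'⟩ s ⟨x, hxC, hxy, rfl⟩
    by_contra hcon
    apply hy'
    refine ⟨x, ⟨⟨?_, hxC⟩, hcon⟩, hxy⟩
    show f x ∈ A
    rw [hxy]
    exact hy'A

end CArc
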