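import Pool.Agent.Helper18.LK.GTC
import Pool.Agent.Helper18.LK.GTa
import Pool.Agent.Helper13.LK.LCy

set_option autoImplicit false

/-!
# LK-GTb: over a proper subcontinuum the fibre sets are translates of one set

Let `aL, bL` be a solution over `L` (`hT`) and `W = {w | ∃ x ∈ C, f x ∈ L ∧ ((f x ∈ A ∧ w = (aL (f x))⁻¹ * a' x) ∨ (f x ∈ B ∧ w = (bL (f x))⁻¹ * b' x))}`.
Let `w x = (aL (f x))⁻¹ * a' x` if `f x ∈ A`, `w x = (bL (f x))⁻¹ * b' x` otherwise; for `f x ∈ A ∩ B ∩ L`, `x ∈ C`, both expressions are equal (`hab` and the solution property). For `x ∈ C`, `f x ∈ L` let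
`Cx = connectedComponentIn (f ⁻¹' L) x`; `Cx ⊆ C` (`Cx` is preconnected, contained in `f ⁻¹' K`, contains `x ∈ C`: `IsPreconnected.subset_connectedComponentIn`, `connectedComponentIn_eq`) and `f '' Cx = L` (`hconf`). `w` is locally constant on `Cx` (two closed pieces `f ⁻¹' A`, `f ⁻¹' B`; a
point of one piece only has a neighbourhood disjoint from the other piece), so constant on the preconnected set `Cx` (for example `IsPreconnected.constant_of_mapsTo` for the discrete topology, or: `{z ∈ Cx | w z = w x}` is relatively clopen). So for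
`x ∈ C` with `f x ∈ L` and `y ∈ L` there is `z ∈ C` over `y` with `w z = w x`. Hence for `y ∈ A ∩ L`: `s ∈ Fib C f a' y ↔ (aL y)⁻¹ * s ∈ W`.
-/

namespace CArc

open Set Topology

theorem fib_proper {X Y Γ : Type} [MetricSpace X] [CompactSpace X] [MetricSpace Y]
    [CompactSpace Y] [Group Γ] {f : X → Y} (hf : Continuous f) (hconf : Confl f) {K : Set Y}
    {x₀ : X} {C : Set X} (hC : C = connectedComponentIn (f ⁻¹' K) x₀) {A B : Set Y}
    (hA : IsClosed A) (hB : IsClosed B) {c : Y → Γ} {a' b' : X → Γ}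
    (ha : LC (f ⁻¹' A ∩ C) a') (hb : LC (f ⁻¹' B ∩ C) b')
    (hab : ∀ x ∈ f ⁻¹' A ∩ f ⁻¹' B ∩ C, b' x = c (f x) * a' x) {L : Set Y} (hL : Cont L)
    (hLK : L ⊆ K) (hLAB : L ⊆ A ∪ B) (hT : Triv A B c L) :
    ∃ (aL bL : Y → Γ) (W : Set Γ), (∀ y ∈ A ∩ L, ∀ s, s ∈ Fib C f a' y ↔ (aL y)⁻¹ * s ∈ W) ∧
      (∀ y ∈ B ∩ L, ∀ s, s ∈ Fib C f b' y ↔ (bL y)⁻¹ * s ∈ W) := by
  obtain ⟨aL, bL, haL, hbL, hsol⟩ := hT
  have hCK : C ⊆ f ⁻¹' K := by rw [hC]; exact connectedComponentIn_subset _ _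
  -- the glued function on `C ∩ f ⁻¹' L`
  obtain ⟨w, hw, hwA, hwB⟩ : ∃ w : X → Γ, LC (C ∩ f ⁻¹' L) w ∧
      (∀ x ∈ f ⁻¹' A ∩ (C ∩ f ⁻¹' L), w x = (aL (f x))⁻¹ * a' x) ∧
      (∀ x ∈ f ⁻¹' B ∩ (C ∩ f ⁻¹' L), w x = (bL (f x))⁻¹ * b' x) := by
    refine lc_glue (hA.preimage hf) (hB.preimage hf) (fun x hx => hLAB hx.2) ?_ ?_ ?_
    · refine lc_map₂ (fun g h => g⁻¹ * h) (lc_comp hf ?_ haL) (lc_mono ?_ ha)
      · exact fun x hx => ⟨hx.1, hx.2.2⟩
      · exact fun x hx => ⟨hx.1, hx.2.1⟩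
    · refine lc_map₂ (fun g h => g⁻¹ * h) (lc_comp hf ?_ hbL) (lc_mono ?_ hb)
      · exact fun x hx => ⟨hx.1, hx.2.2⟩
      · exact fun x hx => ⟨hx.1, hx.2.1⟩
    · intro x hx
      show (aL (f x))⁻¹ * a' x = (bL (f x))⁻¹ * b' x
      rw [hsol (f x) ⟨⟨hx.1.1, hx.1.2⟩, hx.2.2⟩, hab x ⟨hx.1, hx.2.1⟩]
      group
  -- `w` is constant along components over `L`
  have key : ∀ x ∈ C ∩ f ⁻¹' L, ∀ y ∈ L, ∃ z ∈ C ∩ f ⁻¹' L, f z = y ∧ w z = w x := by
    intro x hx y hy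
    have himg := hconf L hL.1 hL.2 x hx.2
    have hy' : y ∈ f '' connectedComponentIn (f ⁻¹' L) x := by rw [himg]; exact hy
    obtain ⟨z, hz, hzf⟩ := hy'
    have hsub : connectedComponentIn (f ⁻¹' L) x ⊆ C ∩ f ⁻¹' L := by
      refine subset_inter ?_ (connectedComponentIn_subset _ _)
      have hxC : x ∈ connectedComponentIn (f ⁻¹' K) x₀ := by rw [← hC]; exact hx.1
      rw [hC, connectedComponentIn_eq hxC]
      exact isPreconnected_connectedComponentIn.subset_connectedComponentIn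
        (mem_connectedComponentIn hx.2)
        ((connectedComponentIn_subset _ _).trans (preimage_mono hLK))
    exact ⟨z, hsub hz, hzf, lc_const isPreconnected_connectedComponentIn (lc_mono hsub hw)
      (mem_connectedComponentIn hx.2) hz⟩
  refine ⟨aL, bL, w '' (C ∩ f ⁻¹' L), ?_, ?_⟩
  · rintro y ⟨hyA, hyL⟩ s
    constructor
    · rintro ⟨x, hxC, hxf, rfl⟩
      have hx : x ∈ f ⁻¹' A ∩ (C ∩ f ⁻¹' L) := by
        refine ⟨?_, hxC, ?_⟩
        · show f x ∈ A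
          rw [hxf]; exact hyA
        · show f x ∈ L
          rw [hxf]; exact hyL
      exact ⟨x, hx.2, by rw [hwA x hx, hxf]⟩
    · rintro ⟨x, hx, hws⟩
      obtain ⟨z, hz, hzf, hwz⟩ := key x hx y hyL
      refine ⟨z, hz.1, hzf, ?_⟩
      have hzA : z ∈ f ⁻¹' A ∩ (C ∩ f ⁻¹' L) := by
        refine ⟨?_, hz⟩
        show f z ∈ A
        rw [hzf]; exact hyA
      rw [← hwz, hwA z hzA, hzf] at hws
      exact mul_left_cancel hws
  · rintro y ⟨hyA, hyL⟩ s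
    constructor
    · rintro ⟨x, hxC, hxf, rfl⟩
      have hx : x ∈ f ⁻¹' B ∩ (C ∩ f ⁻¹' L) := by
        refine ⟨?_, hxC, ?_⟩
        · show f x ∈ B
          rw [hxf]; exact hyA
        · show f x ∈ L
          rw [hxf]; exact hyL
      exact ⟨x, hx.2, by rw [hwB x hx, hxf]⟩
    · rintro ⟨x, hx, hws⟩
      obtain ⟨z, hz, hzf, hwz⟩ := key x hx y hyL
      refine ⟨z, hz.1, hzf, ?_⟩
      have hzA : z ∈ f ⁻¹' B ∩ (C ∩ f ⁻¹' L) := by
        refine ⟨?_, hz⟩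
        show f z ∈ B
        rw [hzf]; exact hyA
      rw [← hwz, hwB z hzA, hzf] at hws
      exact mul_left_cancel hws

end CArc
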