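import Pool.Agent.Helper18.LK.GTa
import Pool.Agent.Helper13.LK.LCy

set_option autoImplicit false

/-!
# LK-GTc: torsion free group, constant fibre sets: one element

Let first `f x₁ ∈ A`, `γ = (a' x₁)⁻¹ * a' x₂`. The set `S = {x ∈ C | (f x ∈ A → a' x * γ ∈ Fib C f a' (f x)) ∧ (f x ∈ B → b' x * γ ∈ Fib C f b' (f x))}` is relatively clopen in `C`: for `x ∈ C` over `A ∩ B` the two conditions are
equivalent (`hab`: `Fib C f b' y = {c y * s | s ∈ Fib C f a' y}`), and `a'`, `b'`, `Fib C f a' ∘ f`, `Fib C f b' ∘ f` are locally constant on `f ⁻¹' A ∩ C`, `f ⁻¹' B ∩ C` (closed pieces; `hSA`, `hSB`). It contains `x₁`, so `S = C` (`C` preconnected). In particular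
`a' x * γ ∈ F := Fib C f a' (f x₁)` for all `x ∈ C` over `f x₁`, that is `s * γ ∈ F` for all `s ∈ F`; `F` is finite (`fib_finite`), so `k ↦ a' x₁ * γ ^ k ∈ F` is not injective, so `γ` has finite order, `γ = 1`
(`IsMulTorsionFree`). If `f x₁ ∈ B`: the same with `γ = (b' x₁)⁻¹ * b' x₂`.
-/

namespace CArc

open Set Topology

private theorem finite_shift {Γ : Type} [Group Γ] [IsMulTorsionFree Γ] {F : Set Γ}
    (hF : F.Finite) {s γ : Γ} (hs : s ∈ F) (h : ∀ t ∈ F, t * γ ∈ F) : γ = 1 := by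
  have hmem : ∀ k : ℕ, s * γ ^ k ∈ F := by
    intro k
    induction k with
    | zero => simpa using hs
    | succ k ih =>
      have := h _ ih
      rwa [mul_assoc, ← pow_succ] at this
  by_contra hγ
  have hinj : Function.Injective (fun k : ℕ => s * γ ^ k) := by
    intro i j hij
    have hij' : γ ^ i = γ ^ j := mul_left_cancel hij
    exact IsMulTorsionFree.pow_right_injective hγ hij'
  exact Set.infinite_range_of_injective hinj (hF.subset (by rintro _ ⟨k, rfl⟩; exact hmem k))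

private theorem fib_one_aux {X Y Γ : Type} [MetricSpace X] [CompactSpace X] [MetricSpace Y]
    [CompactSpace Y] [Group Γ] {f : X → Y} (hf : Continuous f)
    {C : Set X} (hC : Cont C) {A B : Set Y} (hA : IsClosed A) (hB : IsClosed B)
    (hcov : ∀ x ∈ C, f x ∈ A ∪ B) {c : Y → Γ} {a' b' : X → Γ}
    (ha : LC (f ⁻¹' A ∩ C) a') (hb : LC (f ⁻¹' B ∩ C) b')
    (hab : ∀ x ∈ f ⁻¹' A ∩ f ⁻¹' B ∩ C, b' x = c (f x) * a' x)
    (hSA : LC (A ∩ f '' C) (Fib C f a')) (hSB : LC (B ∩ f '' C) (Fib C f b')) (γ : Γ) :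
    ∃ w : X → Prop, LC C w ∧ (∀ x ∈ f ⁻¹' A ∩ C, w x = (a' x * γ ∈ Fib C f a' (f x))) ∧
      (∀ x ∈ f ⁻¹' B ∩ C, w x = (b' x * γ ∈ Fib C f b' (f x))) := by
  refine lc_glue (hA.preimage hf) (hB.preimage hf) (fun x hx => hcov x hx) ?_ ?_ ?_
  · refine lc_map₂ (fun (g : Γ) (F : Set Γ) => g * γ ∈ F) ha (lc_comp hf ?_ hSA)
    exact fun x hx => ⟨hx.1, mem_image_of_mem f hx.2⟩
  · refine lc_map₂ (fun (g : Γ) (F : Set Γ) => g * γ ∈ F) hb (lc_comp hf ?_ hSB)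
    exact fun x hx => ⟨hx.1, mem_image_of_mem f hx.2⟩
  · intro x hx
    refine propext ⟨?_, ?_⟩
    · rintro ⟨z, hzC, hzf, hz⟩
      have hzA : z ∈ f ⁻¹' A ∩ f ⁻¹' B ∩ C := by
        refine ⟨⟨?_, ?_⟩, hzC⟩
        · show f z ∈ A
          rw [hzf]; exact hx.1.1
        · show f z ∈ B
          rw [hzf]; exact hx.1.2
      exact ⟨z, hzC, hzf, by rw [hab z hzA, hab x hx, hzf, hz, mul_assoc]⟩
    · rintro ⟨z, hzC, hzf, hz⟩
      have hzA : z ∈ f ⁻¹' A ∩ f ⁻¹' B ∩ C := by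
        refine ⟨⟨?_, ?_⟩, hzC⟩
        · show f z ∈ A
          rw [hzf]; exact hx.1.1
        · show f z ∈ B
          rw [hzf]; exact hx.1.2
      refine ⟨z, hzC, hzf, ?_⟩
      rw [hab z hzA, hab x hx, hzf, mul_assoc] at hz
      exact mul_left_cancel hz

theorem fib_one {X Y Γ : Type} [MetricSpace X] [CompactSpace X] [MetricSpace Y]
    [CompactSpace Y] [Group Γ] [IsMulTorsionFree Γ] {f : X → Y} (hf : Continuous f)
    {C : Set X} (hC : Cont C) {A B : Set Y} (hA : IsClosed A) (hB : IsClosed B)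
    (hcov : ∀ x ∈ C, f x ∈ A ∪ B) {c : Y → Γ} {a' b' : X → Γ}
    (ha : LC (f ⁻¹' A ∩ C) a') (hb : LC (f ⁻¹' B ∩ C) b')
    (hab : ∀ x ∈ f ⁻¹' A ∩ f ⁻¹' B ∩ C, b' x = c (f x) * a' x)
    (hSA : LC (A ∩ f '' C) (Fib C f a')) (hSB : LC (B ∩ f '' C) (Fib C f b')) {x₁ x₂ : X}
    (h₁ : x₁ ∈ C) (h₂ : x₂ ∈ C) (h12 : f x₁ = f x₂) :
    (f x₁ ∈ A → a' x₁ = a' x₂) ∧ (f x₁ ∈ B → b' x₁ = b' x₂) := by
  refine ⟨fun hxA => ?_, fun hxB => ?_⟩
  · obtain ⟨w, hw, hwA, -⟩ := fib_one_aux hf hC hA hB hcov ha hb hab hSA hSB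
      ((a' x₁)⁻¹ * a' x₂)
    have hw1 : w x₁ := by
      rw [hwA x₁ ⟨hxA, h₁⟩]
      exact ⟨x₂, h₂, h12.symm, by group⟩
    have hall : ∀ t ∈ Fib C f a' (f x₁), t * ((a' x₁)⁻¹ * a' x₂) ∈ Fib C f a' (f x₁) := by
      rintro t ⟨x, hxC, hxf, rfl⟩
      have hxA' : f x ∈ A := by rw [hxf]; exact hxA
      have hwx : w x := by rw [lc_const hC.2.isPreconnected hw h₁ hxC]; exact hw1
      rw [hwA x ⟨hxA', hxC⟩, hxf] at hwx
      exact hwx
    have h1 := finite_shift (fib_finite hC.1 hf hA ha hxA) (s := a' x₁) ⟨x₁, h₁, rfl, rfl⟩ hall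
    rw [inv_mul_eq_one] at h1
    exact h1
  · obtain ⟨w, hw, -, hwB⟩ := fib_one_aux hf hC hA hB hcov ha hb hab hSA hSB
      ((b' x₁)⁻¹ * b' x₂)
    have hw1 : w x₁ := by
      rw [hwB x₁ ⟨hxB, h₁⟩]
      exact ⟨x₂, h₂, h12.symm, by group⟩
    have hall : ∀ t ∈ Fib C f b' (f x₁), t * ((b' x₁)⁻¹ * b' x₂) ∈ Fib C f b' (f x₁) := by
      rintro t ⟨x, hxC, hxf, rfl⟩
      have hxB' : f x ∈ B := by rw [hxf]; exact hxB
      have hwx : w x := by rw [lc_const hC.2.isPreconnected hw h₁ hxC]; exact hw1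
      rw [hwB x ⟨hxB', hxC⟩, hxf] at hwx
      exact hwx
    have h1 := finite_shift (fib_finite hC.1 hf hB hb hxB) (s := b' x₁) ⟨x₁, h₁, rfl, rfl⟩ hall
    rw [inv_mul_eq_one] at h1
    exact h1

end CArc
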