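import Pool.Agent.Helper18.LK.AT
import Pool.Agent.Helper18.LK.GTb
import Pool.Agent.Helper18.LK.GTc
import Pool.Agent.Helper18.LK.Bump
import Pool.Agent.Helper13.LK.LCy

set_option autoImplicit false

/-!
# LK-GT: torsors of torsion free groups over the continua of `Y` are trivial (assembly)

Suppose `¬ Triv A B c K`; take `K₀` from `exists_minimal_nontriv` (`LC` and the inclusion `K₀ ⊆ A ∪ B` are inherited by subsets) and rename it `K`.
Take `x₀` with `f x₀ ∈ K`, `C = connectedComponentIn (f ⁻¹' K) x₀`, a continuum with `f '' C = K`. `at_trivial` for `C`, `f ⁻¹' A`, `f ⁻¹' B`, `c ∘ f` gives `a', b'` on `X`. Let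
`n y = (Fib C f a' y).ncard` if `y ∈ A`, `(Fib C f b' y).ncard` otherwise; for `y ∈ A ∩ B ∩ K` both are equal (`Fib C f b' y = (c y * ·) '' Fib C f a' y`).
(1) `fib_usc`, `fib_finite`: every `y ∈ K` has a neighbourhood with `n y' ≤ n y` for `y' ∈ K` in it, so `{y ∈ K | m ≤ n y}` is closed for every `m`.
(2) `n` is constant on every continuum `L ⊆ K`, `L ≠ K`: `fib_proper`; `Fib` is the image of `W` under an injective map.
(3) Let `m` be the maximum of `n` on `K` (it exists: `{y ∈ K | m ≤ n y}` are closed, and finitely many values: `n` is bounded by the finite number of values of `a'`, `b'`), attained at `y₁`. By `bump` every open set meeting `K` meets a proper continuum containing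
`y₁`, so the closed set `{m ≤ n}` is dense in `K`: `n = m` on `K`.
(4) By (1) and (3) `Fib C f a'` is locally constant on `A ∩ K`, `Fib C f b'` on `B ∩ K` (inclusion and equal finite cardinality: `Set.eq_of_subset_of_ncard_le`).
(5) `fib_one`: all fibre sets have one element; `a y` = the element of `Fib C f a' y`, `b y` = the element of `Fib C f b' y` is a solution over `K` (`LC` by (4)); contradiction.
-/

namespace CArc

open Set Topology

/-- Cardinality of a set which is a translate. -/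
private theorem ncard_of_translate {Γ : Type} [Group Γ] {F W : Set Γ} {a : Γ}
    (h : ∀ s, s ∈ F ↔ a⁻¹ * s ∈ W) : F.ncard = W.ncard := by
  have : F = (fun s => a * s) '' W := by
    ext s
    rw [h s]
    constructor
    · intro hs
      exact ⟨a⁻¹ * s, hs, by simp⟩
    · rintro ⟨t, ht, rfl⟩
      simpa using ht
  rw [this]
  exact Set.ncard_image_of_injective _ (mul_right_injective a)

private theorem fib_ne {X Y Γ : Type} {C : Set X} {f : X → Y} {a' : X → Γ} {y : Y}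
    (h : ∃ x ∈ C, f x = y) : (Fib C f a' y).Nonempty := by
  obtain ⟨x, hx, hxy⟩ := h
  exact ⟨a' x, x, hx, hxy, rfl⟩

theorem gt_trivial {X Y Γ : Type} [MetricSpace X] [CompactSpace X] [MetricSpace Y]
    [CompactSpace Y] [Group Γ] [IsMulTorsionFree Γ] (hX : ArcLike X) {f : X → Y}
    (hf : Continuous f) (hsurj : Function.Surjective f) (hconf : Confl f) {K : Set Y}
    (hK : Cont K) {A B : Set Y} (hA : IsClosed A) (hB : IsClosed B) (hAB : K ⊆ A ∪ B)
    {c : Y → Γ} (hc : LC (A ∩ B ∩ K) c) : Triv A B c K := by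
  by_contra hn
  obtain ⟨K₀, hK₀, hK₀K, hnt, hn₀, hmin⟩ := exists_minimal_nontriv hA hB hK hc hn
  clear hn
  have hAB₀ : K₀ ⊆ A ∪ B := hK₀K.trans hAB
  have hc₀ : LC (A ∩ B ∩ K₀) c := lc_mono (inter_subset_inter_right _ hK₀K) hc
  clear hAB hc hK hK₀K
  obtain ⟨y₀, hy₀⟩ := hK₀.2.nonempty
  obtain ⟨x₀, rfl⟩ := hsurj y₀
  obtain ⟨C, hCdef⟩ : ∃ C, C = connectedComponentIn (f ⁻¹' K₀) x₀ := ⟨_, rfl⟩
  have himg : f '' C = K₀ := by rw [hCdef]; exact hconf K₀ hK₀.1 hK₀.2 x₀ hy₀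
  have hx₀C : x₀ ∈ C := by rw [hCdef]; exact mem_connectedComponentIn hy₀
  have hCcl : IsClosed C := by
    have hpre : IsPreconnected C := by rw [hCdef]; exact isPreconnected_connectedComponentIn
    have hcl : IsClosed (f ⁻¹' K₀) := hK₀.1.isClosed.preimage hf
    have hCsub : C ⊆ f ⁻¹' K₀ := by rw [hCdef]; exact connectedComponentIn_subset _ _
    refine isClosed_of_closure_subset ?_
    conv_rhs => rw [hCdef]
    exact hpre.closure.subset_connectedComponentIn (subset_closure hx₀C)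
      (closure_minimal hCsub hcl)
  have hC : Cont C := by
    refine ⟨hCcl.isCompact, ⟨x₀, hx₀C⟩, ?_⟩
    rw [hCdef]; exact isPreconnected_connectedComponentIn
  have hmemK : ∀ x ∈ C, f x ∈ K₀ := fun x hx => by rw [← himg]; exact mem_image_of_mem f hx
  have hlift : ∀ y ∈ K₀, ∃ x ∈ C, f x = y := fun y hy => by rw [← himg] at hy; exact hy
  obtain ⟨a', b', ha, hb, hab⟩ := at_trivial hX hC (hA.preimage hf) (hB.preimage hf)
    (c := fun x => c (f x)) (lc_comp (T := A ∩ B ∩ K₀) hf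
      (fun x hx => ⟨⟨hx.1.1, hx.1.2⟩, hmemK x hx.2⟩) hc₀)
  have hfinA : ∀ y ∈ A, (Fib C f a' y).Finite := fun y hy => fib_finite hC.1 hf hA ha hy
  have hfinB : ∀ y ∈ B, (Fib C f b' y).Finite := fun y hy => fib_finite hC.1 hf hB hb hy
  -- the cardinality of the fibre sets
  classical
  obtain ⟨n, hnA, hnB⟩ : ∃ n : Y → ℕ, (∀ y ∈ A ∩ K₀, n y = (Fib C f a' y).ncard) ∧
      (∀ y ∈ B ∩ K₀, n y = (Fib C f b' y).ncard) := by
    refine ⟨fun y => if y ∈ A then (Fib C f a' y).ncard else (Fib C f b' y).ncard,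
      fun y hy => by simp only [if_pos hy.1], fun y hy => ?_⟩
    by_cases hyA : y ∈ A
    · simp only [if_pos hyA]
      symm
      refine ncard_of_translate (a := c y) (fun s => ?_)
      constructor
      · rintro ⟨x, hxC, hxf, rfl⟩
        refine ⟨x, hxC, hxf, ?_⟩
        have hx : x ∈ f ⁻¹' A ∩ f ⁻¹' B ∩ C := by
          refine ⟨⟨?_, ?_⟩, hxC⟩
          · show f x ∈ A
            rw [hxf]; exact hyA
          · show f x ∈ B
            rw [hxf]; exact hy.1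
        rw [hab x hx, hxf]; group
      · rintro ⟨x, hxC, hxf, hs⟩
        refine ⟨x, hxC, hxf, ?_⟩
        have hx : x ∈ f ⁻¹' A ∩ f ⁻¹' B ∩ C := by
          refine ⟨⟨?_, ?_⟩, hxC⟩
          · show f x ∈ A
            rw [hxf]; exact hyA
          · show f x ∈ B
            rw [hxf]; exact hy.1
        rw [hab x hx, hxf, hs]; group
    · simp only [if_neg hyA]
  -- (1) upper semicontinuity
  have husc : ∀ y ∈ K₀, ∃ U : Set Y, IsOpen U ∧ y ∈ U ∧ ∀ y' ∈ K₀ ∩ U, n y' ≤ n y := by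
    intro y hy
    have h1 : ∃ U : Set Y, IsOpen U ∧ y ∈ U ∧ ∀ y' ∈ A ∩ K₀ ∩ U, n y' ≤ n y := by
      by_cases hyA : y ∈ A
      · obtain ⟨U, hUo, hyU, hU⟩ := fib_usc hC.1 hf hA ha hyA
        refine ⟨U, hUo, hyU, fun y' hy' => ?_⟩
        rw [hnA y' hy'.1, hnA y ⟨hyA, hy⟩]
        exact Set.ncard_le_ncard (hU y' ⟨hy'.1.1, hy'.2⟩) (hfinA y hyA)
      · exact ⟨Aᶜ, hA.isOpen_compl, hyA, fun z hz => absurd hz.1.1 hz.2⟩
    have h2 : ∃ U : Set Y, IsOpen U ∧ y ∈ U ∧ ∀ y' ∈ B ∩ K₀ ∩ U, n y' ≤ n y := by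
      by_cases hyB : y ∈ B
      · obtain ⟨U, hUo, hyU, hU⟩ := fib_usc hC.1 hf hB hb hyB
        refine ⟨U, hUo, hyU, fun y' hy' => ?_⟩
        rw [hnB y' hy'.1, hnB y ⟨hyB, hy⟩]
        exact Set.ncard_le_ncard (hU y' ⟨hy'.1.1, hy'.2⟩) (hfinB y hyB)
      · exact ⟨Bᶜ, hB.isOpen_compl, hyB, fun z hz => absurd hz.1.1 hz.2⟩
    obtain ⟨U, hUo, hyU, hU⟩ := h1
    obtain ⟨U', hUo', hyU', hU'⟩ := h2
    refine ⟨U ∩ U', hUo.inter hUo', ⟨hyU, hyU'⟩, fun z hz => ?_⟩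
    rcases hAB₀ hz.1 with hzA | hzB
    · exact hU z ⟨⟨hzA, hz.1⟩, hz.2.1⟩
    · exact hU' z ⟨⟨hzB, hz.1⟩, hz.2.2⟩
  -- (2) constancy on proper subcontinua
  have hprop : ∀ L : Set Y, Cont L → L ⊆ K₀ → L ≠ K₀ → ∃ m : ℕ, ∀ y ∈ L, n y = m := by
    intro L hL hLK hLne
    obtain ⟨aL, bL, W, hWA, hWB⟩ := fib_proper hf hconf hCdef hA hB ha hb hab hL hLK
      (hLK.trans hAB₀) (hmin L hL hLK hLne)
    refine ⟨W.ncard, fun y hy => ?_⟩
    rcases hAB₀ (hLK hy) with hyA | hyB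
    · rw [hnA y ⟨hyA, hLK hy⟩]
      exact ncard_of_translate (hWA y ⟨hyA, hy⟩)
    · rw [hnB y ⟨hyB, hLK hy⟩]
      exact ncard_of_translate (hWB y ⟨hyB, hy⟩)
  -- (3) the cardinality is constant on `K₀`
  have hbdd : BddAbove (n '' K₀) := by
    refine hK₀.1.induction_on (p := fun s => BddAbove (n '' s)) (by simp)
      (fun s t hst ht => ht.mono (image_mono hst))
      (fun s t hs ht => by rw [image_union]; exact hs.union ht) (fun y hy => ?_)
    obtain ⟨U, hUo, hyU, hU⟩ := husc y hy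
    refine ⟨K₀ ∩ U, inter_mem_nhdsWithin K₀ (hUo.mem_nhds hyU), n y, ?_⟩
    rintro _ ⟨z, hz, rfl⟩
    exact hU z hz
  obtain ⟨y₁, hy₁, hmax⟩ : ∃ y₁ ∈ K₀, ∀ y ∈ K₀, n y ≤ n y₁ := by
    have hne : (n '' K₀).Nonempty := ⟨_, f x₀, hy₀, rfl⟩
    obtain ⟨y₁, hy₁, h1⟩ := Nat.sSup_mem hne hbdd
    exact ⟨y₁, hy₁, fun y hy => by rw [h1]; exact le_csSup hbdd ⟨y, hy, rfl⟩⟩
  have hconst : ∀ y ∈ K₀, n y = n y₁ := by
    intro y hy
    by_contra hne
    have hlt : n y < n y₁ := lt_of_le_of_ne (hmax y hy) hne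
    obtain ⟨U, hUo, hyU, hU⟩ := husc y hy
    obtain ⟨Q, hQ, hQK, hQne, hy₁Q, q, hqQ, hqU⟩ := bump hK₀ hnt hy₁ hUo ⟨y, hyU, hy⟩
    obtain ⟨m, hm⟩ := hprop Q hQ hQK hQne
    have h1 := hU q ⟨hQK hqQ, hqU⟩
    rw [hm q hqQ, ← hm y₁ hy₁Q] at h1
    omega
  -- (4) the fibre sets are locally constant
  have hSA : LC (A ∩ K₀) (Fib C f a') := by
    intro y hy
    obtain ⟨U, hUo, hyU, hU⟩ := fib_usc hC.1 hf hA ha hy.1
    refine ⟨U, hUo, hyU, fun z hz => ?_⟩
    refine Set.eq_of_subset_of_ncard_le (hU z ⟨hz.1.1, hz.2⟩) ?_ (hfinA y hy.1)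
    rw [← hnA y hy, ← hnA z hz.1, hconst y hy.2, hconst z hz.1.2]
  have hSB : LC (B ∩ K₀) (Fib C f b') := by
    intro y hy
    obtain ⟨U, hUo, hyU, hU⟩ := fib_usc hC.1 hf hB hb hy.1
    refine ⟨U, hUo, hyU, fun z hz => ?_⟩
    refine Set.eq_of_subset_of_ncard_le (hU z ⟨hz.1.1, hz.2⟩) ?_ (hfinB y hy.1)
    rw [← hnB y hy, ← hnB z hz.1, hconst y hy.2, hconst z hz.1.2]
  -- (5) one element
  have hone := fun (x₁ x₂ : X) (h₁ : x₁ ∈ C) (h₂ : x₂ ∈ C) (h12 : f x₁ = f x₂) =>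
    fib_one hf hC hA hB (fun x hx => hAB₀ (hmemK x hx)) ha hb hab
      (by rw [himg]; exact hSA) (by rw [himg]; exact hSB) h₁ h₂ h12
  have : Nonempty X := ⟨x₀⟩
  choose! g hgC hgf using hlift
  refine hn₀ ⟨fun y => a' (g y), fun y => b' (g y), ?_, ?_, ?_⟩
  · intro y hy
    obtain ⟨U, hUo, hyU, hU⟩ := hSA y hy
    refine ⟨U, hUo, hyU, fun z hz => ?_⟩
    have h1 : a' (g z) ∈ Fib C f a' y := by
      rw [← hU z hz]
      exact ⟨g z, hgC z hz.1.2, hgf z hz.1.2, rfl⟩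
    obtain ⟨x, hxC, hxf, hx⟩ := h1
    show a' (g z) = a' (g y)
    rw [← hx]
    exact (hone x (g y) hxC (hgC y hy.2) (by rw [hxf, hgf y hy.2])).1 (by rw [hxf]; exact hy.1)
  · intro y hy
    obtain ⟨U, hUo, hyU, hU⟩ := hSB y hy
    refine ⟨U, hUo, hyU, fun z hz => ?_⟩
    have h1 : b' (g z) ∈ Fib C f b' y := by
      rw [← hU z hz]
      exact ⟨g z, hgC z hz.1.2, hgf z hz.1.2, rfl⟩
    obtain ⟨x, hxC, hxf, hx⟩ := h1
    show b' (g z) = b' (g y)
    rw [← hx]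
    exact (hone x (g y) hxC (hgC y hy.2) (by rw [hxf, hgf y hy.2])).2 (by rw [hxf]; exact hy.1)
  · intro y hy
    have h1 := hab (g y) ⟨⟨by show f (g y) ∈ A; rw [hgf y hy.2]; exact hy.1.1,
      by show f (g y) ∈ B; rw [hgf y hy.2]; exact hy.1.2⟩, hgC y hy.2⟩
    simp only [hgf y hy.2] at h1
    exact h1

end CArc
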