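import Pool.Agent.Helper18.LK.LCx
import Pool.Agent.Helper78.CA.Chain

set_option autoImplicit false

/-!
# LK-GTC: a minimal continuum with a nontrivial torsor

`Triv A B c K`: the torsor is trivial over `K`.
`triv_chain`: let `T = ⋂₀ 𝒞` and `a, b` a solution over `T`. Extend `a` from `A ∩ T` and `b` from `B ∩ T` to locally constant functions on open neighbourhoods `U`, `U'` (`lc_extend`). There is an open
neighbourhood `W` of `A ∩ B ∩ T` with `W ⊆ U ∩ U'` such that on `A ∩ B ∩ K₁ ∩ W` (`K₁ ∈ 𝒞` fixed) `b = c a`, because `c` is locally constant on `A ∩ B ∩ K₁` (`hc`) and the identity holds at the points of `A ∩ B ∩ T` (`W` = the union of small open sets around these points). By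
`chain_subset_open` (Helper78/CA/Chain.lean) applied to the open set `(Aᶜ ∪ U) ∩ (Bᶜ ∪ U') ∩ ((A ∩ B)ᶜ ∪ W) ⊇ T` some `K ∈ 𝒞`, which may be taken `⊆ K₁` (apply it to the chain of the members `⊆ K₁`, or use that `𝒞` is a chain: the smaller one of `K`, `K₁`),
is contained in it; the extended functions are a solution over `K`.
`exists_minimal_nontriv`: Zorn (`zorn_superset_nonempty`) for the family of subcontinua `K' ⊆ K` with `¬ Triv`; chains have the intersection as lower bound by `cont_sInter` and `triv_chain`.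
A one point set is `Triv` (`a = 1`, `b = c`), so a minimal one is nontrivial (`Set.Nontrivial`).
-/

namespace CArc

open Set Topology

/-- The torsor given by `c` is trivial over `K`. -/
def Triv {Y Γ : Type} [TopologicalSpace Y] [Group Γ] (A B : Set Y) (c : Y → Γ) (K : Set Y) :
    Prop :=
  ∃ a b : Y → Γ, LC (A ∩ K) a ∧ LC (B ∩ K) b ∧ ∀ y ∈ A ∩ B ∩ K, b y = c y * a y

theorem gtc_lc_mono {Y Λ : Type} [TopologicalSpace Y] {S S' : Set Y} {a : Y → Λ} (h : LC S a)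
    (hS : S' ⊆ S) : LC S' a := by
  intro y hy
  obtain ⟨U, hU, hyU, hU'⟩ := h y (hS hy)
  exact ⟨U, hU, hyU, fun z hz => hU' z ⟨hS hz.1, hz.2⟩⟩

theorem triv_chain {Y Γ : Type} [MetricSpace Y] [CompactSpace Y] [Group Γ] {A B : Set Y}
    (hA : IsClosed A) (hB : IsClosed B) {c : Y → Γ} {𝒞 : Set (Set Y)} (hne : 𝒞.Nonempty)
    (hch : IsChain (· ⊆ ·) 𝒞) (hC : ∀ K ∈ 𝒞, Cont K) (hc : ∀ K ∈ 𝒞, LC (A ∩ B ∩ K) c)
    (hT : Triv A B c (⋂₀ 𝒞)) : ∃ K ∈ 𝒞, Triv A B c K := by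
  obtain ⟨a, b, ha, hb, hab⟩ := hT
  have hcl : ∀ K ∈ 𝒞, IsClosed K := fun K hK => (hC K hK).1.isClosed
  have hTcl : IsClosed (⋂₀ 𝒞) := isClosed_sInter hcl
  obtain ⟨U, a', hU, hTU, haU, haa⟩ := lc_extend (hA.inter hTcl).isCompact ha
  obtain ⟨U', b', hU', hTU', hbU, hbb⟩ := lc_extend (hB.inter hTcl).isCompact hb
  obtain ⟨K₁, hK₁⟩ := hne
  let W : Set Y := ⋃₀ {G | IsOpen G ∧ ∀ z ∈ A ∩ B ∩ K₁ ∩ G, b' z = c z * a' z}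
  have hW : IsOpen W := isOpen_sUnion fun G hG => hG.1
  have hTW : A ∩ B ∩ ⋂₀ 𝒞 ⊆ W := by
    rintro y ⟨⟨hyA, hyB⟩, hyT⟩
    have hyU : y ∈ U := hTU ⟨hyA, hyT⟩
    have hyU' : y ∈ U' := hTU' ⟨hyB, hyT⟩
    have hyK₁ : y ∈ K₁ := hyT K₁ hK₁
    obtain ⟨G₁, hG₁, hyG₁, h₁⟩ := haU y hyU
    obtain ⟨G₂, hG₂, hyG₂, h₂⟩ := hbU y hyU'
    obtain ⟨G₃, hG₃, hyG₃, h₃⟩ := hc K₁ hK₁ y ⟨⟨hyA, hyB⟩, hyK₁⟩
    refine ⟨U ∩ G₁ ∩ (U' ∩ G₂) ∩ G₃, ⟨((hU.inter hG₁).inter (hU'.inter hG₂)).inter hG₃, ?_⟩,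
      ⟨⟨⟨hyU, hyG₁⟩, hyU', hyG₂⟩, hyG₃⟩⟩
    rintro z ⟨hz, ⟨hz1, hz2⟩, hz3⟩
    rw [h₁ z hz1, h₂ z hz2, h₃ z ⟨hz, hz3⟩, haa y ⟨hyA, hyT⟩, hbb y ⟨hyB, hyT⟩]
    exact hab y ⟨⟨hyA, hyB⟩, hyT⟩
  have hO : IsOpen ((Aᶜ ∪ U) ∩ (Bᶜ ∪ U') ∩ ((A ∩ B)ᶜ ∪ W)) :=
    ((hA.isOpen_compl.union hU).inter (hB.isOpen_compl.union hU')).inter
      ((hA.inter hB).isOpen_compl.union hW)
  have hTO : ⋂₀ 𝒞 ⊆ (Aᶜ ∪ U) ∩ (Bᶜ ∪ U') ∩ ((A ∩ B)ᶜ ∪ W) := by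
    intro y hy
    refine ⟨⟨?_, ?_⟩, ?_⟩
    · by_cases h : y ∈ A
      · exact Or.inr (hTU ⟨h, hy⟩)
      · exact Or.inl h
    · by_cases h : y ∈ B
      · exact Or.inr (hTU' ⟨h, hy⟩)
      · exact Or.inl h
    · by_cases h : y ∈ A ∩ B
      · exact Or.inr (hTW ⟨h, hy⟩)
      · exact Or.inl h
  obtain ⟨K, hK, hKO⟩ := chain_subset_open ⟨K₁, hK₁⟩ hch hcl hO hTO
  obtain ⟨K₂, hK₂, hK₂K, hK₂K₁⟩ : ∃ K₂ ∈ 𝒞, K₂ ⊆ K ∧ K₂ ⊆ K₁ := by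
    rcases hch.total hK hK₁ with h | h
    · exact ⟨K, hK, Subset.rfl, h⟩
    · exact ⟨K₁, hK₁, h, Subset.rfl⟩
  refine ⟨K₂, hK₂, a', b', gtc_lc_mono haU ?_, gtc_lc_mono hbU ?_, ?_⟩
  · rintro y ⟨hyA, hy⟩
    rcases (hKO (hK₂K hy)).1.1 with h | h
    · exact absurd hyA h
    · exact h
  · rintro y ⟨hyB, hy⟩
    rcases (hKO (hK₂K hy)).1.2 with h | h
    · exact absurd hyB h
    · exact h
  · rintro y ⟨hyAB, hy⟩
    rcases (hKO (hK₂K hy)).2 with h | h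
    · exact absurd hyAB h
    · obtain ⟨G, hG, hyG⟩ := h
      exact hG.2 y ⟨⟨hyAB, hK₂K₁ hy⟩, hyG⟩

theorem exists_minimal_nontriv {Y Γ : Type} [MetricSpace Y] [CompactSpace Y] [Group Γ]
    {A B : Set Y} (hA : IsClosed A) (hB : IsClosed B) {c : Y → Γ} {K : Set Y} (hK : Cont K)
    (hc : LC (A ∩ B ∩ K) c) (hn : ¬ Triv A B c K) :
    ∃ K₀ : Set Y, Cont K₀ ∧ K₀ ⊆ K ∧ K₀.Nontrivial ∧ ¬ Triv A B c K₀ ∧
      ∀ K' : Set Y, Cont K' → K' ⊆ K₀ → K' ≠ K₀ → Triv A B c K' := by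
  let S : Set (Set Y) := {K' | Cont K' ∧ K' ⊆ K ∧ ¬ Triv A B c K'}
  obtain ⟨K₀, hK₀K, hK₀S, hmin⟩ := zorn_superset_nonempty S (by
    intro 𝒞 h𝒞 hch hne
    have hC : ∀ K' ∈ 𝒞, Cont K' := fun K' h => (h𝒞 h).1
    refine ⟨⋂₀ 𝒞, ⟨cont_sInter hne hch hC, ?_, ?_⟩, fun s hs => sInter_subset_of_mem hs⟩
    · obtain ⟨K', hK'⟩ := hne
      exact (sInter_subset_of_mem hK').trans (h𝒞 hK').2.1
    · intro hT
      obtain ⟨K', hK', hK'T⟩ := triv_chain hA hB hne hch hC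
        (fun K' h => gtc_lc_mono hc (inter_subset_inter_right _ (h𝒞 h).2.1)) hT
      exact (h𝒞 hK').2.2 hK'T) K ⟨hK, Subset.rfl, hn⟩
  refine ⟨K₀, hK₀S.1, hK₀S.2.1, ?_, hK₀S.2.2, ?_⟩
  · by_contra h
    rw [not_nontrivial_iff] at h
    obtain ⟨y, hy⟩ := hK₀S.1.2.nonempty
    have hall : ∀ z ∈ K₀, z = y := fun z hz => h hz hy
    apply hK₀S.2.2
    refine ⟨fun _ => 1, c, ?_, ?_, ?_⟩
    · intro z _
      exact ⟨univ, isOpen_univ, mem_univ z, fun _ _ => rfl⟩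
    · intro z hz
      exact ⟨univ, isOpen_univ, mem_univ z, fun w hw => by
        rw [hall w hw.1.2, hall z hz.2]⟩
    · intro z _
      simp
  · intro K' hK' hK'K₀ hK'ne
    by_contra hT
    exact hK'ne (Subset.antisymm hK'K₀ (hmin ⟨hK', hK'K₀.trans hK₀S.2.1, hT⟩ hK'K₀))

end CArc
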