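import Pool.Agent.Helper18.LK.Defs
import Pool.Agent.Helper78.CA.Two

set_option autoImplicit false

/-!
# LK-Glue: gluing along the boundary of `V`

`D = closure (V ∩ K) ⊆ K` and `D' = K \ V` are closed and `D ∪ D' = K`. Extend `s₁` from `D` and `s₂` from `D'` to continuous functions `t₁, t₂ : Y → ℝ` (Tietze:
`ContinuousMap.exists_restrict_eq`, or `ContinuousOn` versions). `F = {y ∈ D | ¬ Seg N y (t₁ y) (t₂ y)}` is closed and disjoint from `D'`. Let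
`u : Y → [0,1]` be continuous, `u = 0` on `F`, `u = 1` on `D'` (`exists_continuous_zero_one_of_isClosed`), and `s = (1 - u) t₁ + u t₂`. On `D'`: `s = t₂ = s₂`. On `D`:
either `Seg N y (t₁ y) (t₂ y)`, and `s y` lies between (`two_aux1`), so `(y, s y) ∈ N` and `Seg N y (s y) (s₁ y)`; or `y ∈ F` and `s y = t₁ y = s₁ y`.
-/

namespace CArc

open Set Topology

theorem glueb_ext_aux {Y : Type} [MetricSpace Y] {D : Set Y} (hD : IsClosed D) {s : Y → ℝ}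
    (h : ContinuousOn s D) : ∃ t : Y → ℝ, Continuous t ∧ ∀ y ∈ D, t y = s y := by
  obtain ⟨g, hg⟩ := ContinuousMap.exists_restrict_eq hD ⟨D.domRestrict s, h.domRestrict⟩
  refine ⟨g, g.continuous, fun y hy => ?_⟩
  exact congrArg (fun k => k ⟨y, hy⟩) hg

theorem glue_boundary {Y : Type} [MetricSpace Y] [CompactSpace Y] {N : Set (Y × ℝ)}
    (hN : IsOpen N) {K V : Set Y} (hK : IsClosed K) (hV : IsOpen V) {s₁ s₂ : Y → ℝ}
    (h₁ : ContinuousOn s₁ (closure (V ∩ K))) (h₂ : ContinuousOn s₂ (K \ V))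
    (hN₁ : ∀ y ∈ closure (V ∩ K), (y, s₁ y) ∈ N) (hN₂ : ∀ y ∈ K \ V, (y, s₂ y) ∈ N)
    (hseg : ∀ y ∈ closure (V ∩ K) ∩ (K \ V), Seg N y (s₁ y) (s₂ y)) :
    ∃ s : Y → ℝ, Sec N K s ∧ (∀ y ∈ K \ V, s y = s₂ y) ∧
      ∀ y ∈ closure (V ∩ K), Seg N y (s y) (s₁ y) := by
  have hDcl : IsClosed (closure (V ∩ K)) := isClosed_closure
  have hD'cl : IsClosed (K \ V) := hK.sdiff hV
  obtain ⟨t₁, ht₁, e₁⟩ := glueb_ext_aux hDcl h₁
  obtain ⟨t₂, ht₂, e₂⟩ := glueb_ext_aux hD'cl h₂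
  have hEo : IsOpen {y : Y | Seg N y (t₁ y) (t₂ y)} := seg_open hN continuous_id ht₁ ht₂
  have hFcl : IsClosed (closure (V ∩ K) \ {y : Y | Seg N y (t₁ y) (t₂ y)}) := hDcl.sdiff hEo
  have hdis : Disjoint (closure (V ∩ K) \ {y : Y | Seg N y (t₁ y) (t₂ y)}) (K \ V) := by
    rw [Set.disjoint_left]
    rintro y ⟨hyD, hyS⟩ hyD'
    apply hyS
    show Seg N y (t₁ y) (t₂ y)
    rw [e₁ y hyD, e₂ y hyD']
    exact hseg y ⟨hyD, hyD'⟩
  obtain ⟨u, hu0, hu1, hu⟩ := exists_continuous_zero_one_of_isClosed hFcl hD'cl hdis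
  have hs : ∀ y, (1 - u y) * t₁ y + u y * t₂ y ∈ Set.uIcc (t₁ y) (t₂ y) :=
    fun y => two_aux1 (hu y).1 (hu y).2
  have hsD' : ∀ y ∈ K \ V, (1 - u y) * t₁ y + u y * t₂ y = s₂ y := by
    intro y hy
    have e : u y = 1 := hu1 hy
    rw [e, ← e₂ y hy]
    ring
  have hsD : ∀ y ∈ closure (V ∩ K), Seg N y ((1 - u y) * t₁ y + u y * t₂ y) (s₁ y) := by
    intro y hy
    by_cases hS : Seg N y (t₁ y) (t₂ y)
    · have h3 := seg_symm (seg_mono_right hS (hs y))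
      rwa [e₁ y hy] at h3 ⊢
    · have hyF : y ∈ closure (V ∩ K) \ {y : Y | Seg N y (t₁ y) (t₂ y)} := ⟨hy, hS⟩
      have e : u y = 0 := hu0 hyF
      have e3 : (1 - u y) * t₁ y + u y * t₂ y = s₁ y := by
        rw [e, ← e₁ y hy]
        ring
      rw [e3]
      exact seg_refl (hN₁ y hy)
  refine ⟨fun y => (1 - u y) * t₁ y + u y * t₂ y, ⟨?_, ?_⟩, hsD', hsD⟩
  · exact ((continuous_const.sub u.continuous).mul ht₁).add (u.continuous.mul ht₂)
  · intro y hy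
    by_cases hyV : y ∈ V
    · exact seg_left (hsD y (subset_closure ⟨hyV, hy⟩))
    · show (y, (1 - u y) * t₁ y + u y * t₂ y) ∈ N
      rw [hsD' y ⟨hy, hyV⟩]
      exact hN₂ y ⟨hy, hyV⟩

end CArc
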