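import Pool.Agent.Helper18.LK.T

set_option autoImplicit false

/-!
# LK-Ind: a minimal failing continuum is indecomposable

Suppose `K = A ∪ B` with `A, B` continua `≠ K` and let `x` be bad: `f x ∈ K`, `¬ Thr N f ψ K x`. By symmetry `f x ∈ A`
(swap `A` and `B`). If `f x ∈ B`: sections `sA` over `A` and `sB` over `B` through `x` (`hmin`) and `glue_two` with
`y₀ = y₁ = f x`. If `f x ∉ B`: `A ∩ B` is nonempty (`K` is connected; `isPreconnected_closed_iff`), take `z ∈ A ∩ B`;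
`truth_one` for `A`, `b = z` gives a section `sA` over `A` through `x`, and `xz` with `f xz = z`, `Seg N z (sA z) (ψ xz)`;
`hmin B` at `xz` gives `sB` over `B` through `xz`; so `Seg N z (sA z) (sB z)`; `glue_two` with `y₁ = z`, `y₀ = f x`. In both cases we get a section
over `A ∪ B = K` through `x`. (`hH : HH Y` is `hh_of_arclike hX hf hsurj hconf`.)
-/

namespace CArc

open Set Topology

private theorem min_aux {X Y : Type} [MetricSpace X] [CompactSpace X] [MetricSpace Y]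
    [CompactSpace Y] (hX : ArcLike X) {f : X → Y} (hf : Continuous f)
    (hsurj : Function.Surjective f) (hconf : Confl f) {N : Set (Y × ℝ)} (hN : IsOpen N)
    {ψ : X → ℝ} (hψ : Continuous ψ) {K : Set Y} (hK : Cont K)
    (hmin : ∀ K' : Set Y, Cont K' → K' ⊆ K → K' ≠ K → EP N f ψ K') {A B : Set Y}
    (hA : Cont A) (hB : Cont B) (hAB : A ∪ B = K) (hAK : A ≠ K) (hBK : B ≠ K) {x : X}
    (hx : f x ∈ A) : Thr N f ψ K x := by
  have hAsub : A ⊆ K := hAB ▸ subset_union_left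
  have hBsub : B ⊆ K := hAB ▸ subset_union_right
  have hEA : EP N f ψ A := hmin A hA hAsub hAK
  have hEB : EP N f ψ B := hmin B hB hBsub hBK
  have hH : HH Y := hh_of_arclike hX hf hsurj hconf
  by_cases hxB : f x ∈ B
  · obtain ⟨sA, hsA, hsegA⟩ := hEA x hx
    obtain ⟨sB, hsB, hsegB⟩ := hEB x hxB
    obtain ⟨s, hs, hseg⟩ := glue_two hN hH hA hB hsA hsB hx hxB
      (seg_trans hsegA (seg_symm hsegB)) hx (Or.inr rfl)
    rw [hAB] at hs
    exact ⟨s, hs, seg_trans (seg_symm hseg) hsegA⟩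
  · obtain ⟨z, hzK, hzA, hzB⟩ := isPreconnected_closed_iff.1 hK.2.isPreconnected A B
      hA.1.isClosed hB.1.isClosed hAB.ge
      ⟨f x, hAsub hx, hx⟩ (by
        obtain ⟨w, hw⟩ := hB.2.nonempty
        exact ⟨w, hBsub hw, hw⟩)
    obtain ⟨sA, hsA, hsegA, xz, hxz, hsegz⟩ := truth_one hX hf hsurj hconf hN hψ hA hEA hzA hx
    obtain ⟨sB, hsB, hsegB⟩ := hEB xz (by rw [hxz]; exact hzB)
    rw [hxz] at hsegB
    obtain ⟨s, hs, hseg⟩ := glue_two hN hH hA hB hsA hsB hzA hzB
      (seg_trans hsegz (seg_symm hsegB)) hx (Or.inl hxB)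
    rw [hAB] at hs
    exact ⟨s, hs, seg_trans (seg_symm hseg) hsegA⟩

theorem min_not_decomp {X Y : Type} [MetricSpace X] [CompactSpace X] [MetricSpace Y]
    [CompactSpace Y] (hX : ArcLike X) {f : X → Y} (hf : Continuous f)
    (hsurj : Function.Surjective f) (hconf : Confl f) {N : Set (Y × ℝ)} (hN : IsOpen N)
    {ψ : X → ℝ} (hψ : Continuous ψ) {K : Set Y} (hK : Cont K)
    (hmin : ∀ K' : Set Y, Cont K' → K' ⊆ K → K' ≠ K → EP N f ψ K') (hbad : ¬ EP N f ψ K) :
    ¬ Decomp K := by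
  rintro ⟨A, B, hA, hB, hAB, hAK, hBK⟩
  apply hbad
  intro x hx
  rw [← hAB] at hx
  rcases hx with hx | hx
  · exact min_aux hX hf hsurj hconf hN hψ hK hmin hA hB hAB hAK hBK hx
  · exact min_aux hX hf hsurj hconf hN hψ hK hmin hB hA (by rw [union_comm]; exact hAB) hBK hAK hx

end CArc
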