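import Pool.Agent.Helper18.LK.Defs
import Pool.Agent.Helper78.CA.Sep

set_option autoImplicit false

/-!
# LK-Loc2: local data, second half

Write `D = closure (V ∩ K) ⊆ K`, `Pe = connectedComponentIn D e`, `Pe' = connectedComponentIn D e'`. `Seg N z a b ↔ uIcc a b ⊆ O'` for `z ∈ D` (by `hO`).
Let `T = {z ∈ D | TrueAt N f ψ τ z}`. `T` is relatively open in `D`: if `z ∈ T`, `τ z ∈ O'` and there is `x₁` over `z` with `uIcc (τ z) (ψ x₁) ⊆ O'`; for `z' ∈ D` near `z`,
`uIcc (τ z') (τ z) ⊆ O'`, and `htr` gives `x₁'` over `z'` with `uIcc (ψ x₁) (ψ x₁') ⊆ O'`. Moreover `Pe ⊆ T`: for `z ∈ Pe ⊆ Q`, `τ z ∈ O'`; `τ '' Pe` is preconnected and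
contained in `O'`, so `uIcc (τ z) (τ e) ⊆ O'`, and `htr` again; similarly `Pe' ⊆ T`.
`E`: `sep` (for `Z = D`, `P = Pe ∪ Pe'`, `Q = (D \ T) ∪ (D ∩ {y})`, `y = f x`; a continuum `H ⊆ D` which meets `Pe` is contained in `Pe`) gives closed disjoint `E ∪ E₂ = D` with
`Pe ∪ Pe' ⊆ E`, `E ⊆ T`, `y ∉ E`. `D \ E = E₂`.
`Kx = (K \ V) ∪ (D \ E)` is closed, `y ∈ Kx`, and `e, e' ∉ Kx` (`e ∈ V ∩ E`). Let `W = {z | (z, τ z) ∈ N}` (open, contains `Q`). `sep` (`Z = Kx`, `P = {y}`, `Q = Kx \ W`: a continuum `H ⊆ Kx ⊆ K` with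
`y ∈ H` does not contain `e`, `e'`, so `H ⊆ Q ⊆ W` by `hH`) gives `Kx = G ∪ G₂`, `y ∈ G ⊆ W`.
-/

namespace CArc

open Set Topology

/-- components of a closed set are closed -/
theorem loc2_closed_comp {Y : Type} [TopologicalSpace Y] {D : Set Y} (hD : IsClosed D) (e : Y) :
    IsClosed (connectedComponentIn D e) := by
  by_cases he : e ∈ D
  · apply isClosed_of_closure_subset
    apply IsPreconnected.subset_connectedComponentIn
    · exact isPreconnected_connectedComponentIn.closure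
    · exact subset_closure (mem_connectedComponentIn he)
    · exact closure_minimal (connectedComponentIn_subset D e) hD
  · rw [connectedComponentIn_eq_empty he]
    exact isClosed_empty

/-- a continuum in `D` meeting a component is contained in it -/
theorem loc2_sub_comp {Y : Type} [TopologicalSpace Y] {D H : Set Y} {e : Y} (hH : Cont H)
    (hHD : H ⊆ D) (h : (H ∩ connectedComponentIn D e).Nonempty) :
    H ⊆ connectedComponentIn D e := by
  obtain ⟨p, hp, hpe⟩ := h
  rw [connectedComponentIn_eq hpe]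
  exact hH.2.isPreconnected.subset_connectedComponentIn hp hHD

theorem local_data2 {X Y : Type} [MetricSpace X] [CompactSpace X] [MetricSpace Y]
    [CompactSpace Y] {f : X → Y} {N : Set (Y × ℝ)} (hN : IsOpen N) {ψ : X → ℝ}
    {K : Set Y} (hK : Cont K) {V : Set Y} {O' : Set ℝ}
    (hV : IsOpen V) (hO' : IsOpen O')
    (hO : ∀ y ∈ closure (V ∩ K), ∀ t, (y, t) ∈ N ↔ t ∈ O')
    (htr : ∀ y ∈ closure (V ∩ K), ∀ y' ∈ closure (V ∩ K), ∀ x, f x = y →
      ∃ x', f x' = y' ∧ Set.uIcc (ψ x) (ψ x') ⊆ O') {x : X} (hx : f x ∈ K) {e e' : Y}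
    {Q : Set Y} {τ : Y → ℝ} (he : e ∈ V ∩ K) (he' : e' ∈ V ∩ K) (hQ : Cont Q) (hQK : Q ⊆ K)
    (hxQ : f x ∈ Q) (hPe : connectedComponentIn (closure (V ∩ K)) e ⊆ Q)
    (hPe' : connectedComponentIn (closure (V ∩ K)) e' ⊆ Q)
    (hxe : f x ∉ connectedComponentIn (closure (V ∩ K)) e)
    (hxe' : f x ∉ connectedComponentIn (closure (V ∩ K)) e')
    (hH : ∀ H : Set Y, Cont H → H ⊆ K → f x ∈ H → e ∉ H → e' ∉ H → H ⊆ Q)
    (hsec : Sec N Q τ) (hte : TrueAt N f ψ τ e) (hte' : TrueAt N f ψ τ e') :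
    ∃ E G : Set Y, LData N f ψ K V τ E G ∧ f x ∈ G ∧ f x ∉ E := by
  have hKc : IsClosed K := hK.1.isClosed
  set D : Set Y := closure (V ∩ K) with hDdef
  have hDc : IsClosed D := isClosed_closure
  have hDK : D ⊆ K := closure_minimal inter_subset_right hKc
  have hVD : V ∩ K ⊆ D := subset_closure
  have hτ : Continuous τ := hsec.1
  -- truth is transported inside `D`
  have htrans : ∀ z₀ ∈ D, TrueAt N f ψ τ z₀ → ∀ z ∈ D, Set.uIcc (τ z) (τ z₀) ⊆ O' →
      TrueAt N f ψ τ z := by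
    rintro z₀ hz₀ ⟨x₀, hx₀, hseg⟩ z hz hu
    obtain ⟨x', hx', hu'⟩ := htr z₀ hz₀ z hz x₀ hx₀
    refine ⟨x', hx', ?_⟩
    intro t ht
    rw [hO z hz]
    rcases uIcc_subset_uIcc_union_uIcc (b := τ z₀) ht with h1 | h1
    · exact hu h1
    · rcases uIcc_subset_uIcc_union_uIcc (b := ψ x₀) h1 with h2 | h2
      · exact (hO z₀ hz₀ t).1 (hseg t h2)
      · exact hu' h2
  -- the set of the points of `D` where `τ` is true is relatively open
  have hTclosed : IsClosed {z | z ∈ D ∧ ¬ TrueAt N f ψ τ z} := by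
    rw [← isOpen_compl_iff, isOpen_iff_mem_nhds]
    intro z hz
    by_cases hzD : z ∈ D
    · have hzT : TrueAt N f ψ τ z := by
        by_contra hcon
        exact hz ⟨hzD, hcon⟩
      have hτz : τ z ∈ O' := by
        obtain ⟨x₀, -, hseg⟩ := hzT
        exact (hO z hzD _).1 (hseg _ left_mem_uIcc)
      obtain ⟨ε, hε, hball⟩ := Metric.isOpen_iff.1 hO' _ hτz
      have hnhd : τ ⁻¹' Metric.ball (τ z) ε ∈ 𝓝 z :=
        hτ.continuousAt.preimage_mem_nhds (Metric.ball_mem_nhds _ hε)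
      filter_upwards [hnhd] with w hw
      rintro ⟨hwD, hwT⟩
      apply hwT
      refine htrans z hzD hzT w hwD (Subset.trans ?_ hball)
      have hconv : Convex ℝ (Metric.ball (τ z) ε) := convex_ball _ _
      rw [← segment_eq_uIcc]
      exact hconv.segment_subset hw (Metric.mem_ball_self hε)
    · have : Dᶜ ∈ 𝓝 z := hDc.isOpen_compl.mem_nhds hzD
      filter_upwards [this] with w hw
      exact fun h => hw h.1
  -- the components of `e`, `e'` consist of true points
  have hcomp : ∀ a ∈ V ∩ K, TrueAt N f ψ τ a → connectedComponentIn D a ⊆ Q →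
      ∀ z ∈ connectedComponentIn D a, TrueAt N f ψ τ z := by
    intro a ha hta haQ z hz
    have haD : a ∈ D := hVD ha
    refine htrans a haD hta z (connectedComponentIn_subset _ _ hz) ?_
    have hpre : IsPreconnected (τ '' connectedComponentIn D a) :=
      isPreconnected_connectedComponentIn.image _ hτ.continuousOn
    have hsub : τ '' connectedComponentIn D a ⊆ O' := by
      rintro _ ⟨w, hw, rfl⟩
      exact (hO w (connectedComponentIn_subset _ _ hw) _).1 (hsec.2 w (haQ hw))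
    exact (hpre.ordConnected.uIcc_subset (mem_image_of_mem _ hz)
      (mem_image_of_mem _ (mem_connectedComponentIn haD))).trans hsub
  -- the set `E`
  have hpt : IsClosed (D ∩ {f x}) := hDc.inter isClosed_singleton
  obtain ⟨E, E₂, hE, hE₂, hEE, hdis, hPE, hQE⟩ := sep (Z := D)
    (P := connectedComponentIn D e ∪ connectedComponentIn D e')
    (Q := {z | z ∈ D ∧ ¬ TrueAt N f ψ τ z} ∪ (D ∩ {f x})) hDc
    ((loc2_closed_comp hDc e).union (loc2_closed_comp hDc e')) (hTclosed.union hpt)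
    (union_subset (connectedComponentIn_subset _ _) (connectedComponentIn_subset _ _))
    (union_subset (fun z hz => hz.1) inter_subset_left) (by
      intro H hHc hHD hHP hHQ
      obtain ⟨q, hqH, hq⟩ := hHQ
      obtain ⟨p, hpH, hp⟩ := hHP
      rcases hp with hp | hp
      · have hsub := loc2_sub_comp hHc hHD ⟨p, hpH, hp⟩
        rcases hq with hq | hq
        · exact hq.2 (hcomp e he hte hPe q (hsub hqH))
        · have : q = f x := hq.2
          exact hxe (this ▸ hsub hqH)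
      · have hsub := loc2_sub_comp hHc hHD ⟨p, hpH, hp⟩
        rcases hq with hq | hq
        · exact hq.2 (hcomp e' he' hte' hPe' q (hsub hqH))
        · have : q = f x := hq.2
          exact hxe' (this ▸ hsub hqH))
  have hED : E ⊆ D := hEE ▸ subset_union_left
  have hEdiff : D \ E = E₂ := by
    ext z
    constructor
    · rintro ⟨hz, hzE⟩
      rw [← hEE] at hz
      exact hz.resolve_left hzE
    · intro hz
      exact ⟨hEE ▸ Or.inr hz, fun hzE => disjoint_left.1 hdis hzE hz⟩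
  have hET : ∀ z ∈ E, TrueAt N f ψ τ z := by
    intro z hz
    by_contra hcon
    exact disjoint_left.1 hdis hz (hQE (Or.inl ⟨hED hz, hcon⟩))
  have hyE : f x ∉ E := fun hy => disjoint_left.1 hdis hy (hQE (Or.inr ⟨hED hy, rfl⟩))
  have hEcl : IsClosed (D \ E) := by
    rw [hEdiff]
    exact hE₂
  -- the set `K_x`
  set Kx : Set Y := (K \ V) ∪ (D \ E) with hKx
  have hKxc : IsClosed Kx := (hKc.sdiff hV).union hEcl
  have hKxK : Kx ⊆ K := union_subset sdiff_subset (sdiff_subset.trans hDK)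
  have hyKx : f x ∈ Kx := by
    by_cases hy : f x ∈ V
    · exact Or.inr ⟨hVD ⟨hy, hx⟩, hyE⟩
    · exact Or.inl ⟨hx, hy⟩
  have haKx : ∀ a ∈ V ∩ K, a ∈ E → a ∉ Kx := by
    intro a ha haE haK
    rcases haK with h | h
    · exact h.2 ha.1
    · exact h.2 haE
  have heE : e ∈ E := hPE (Or.inl (mem_connectedComponentIn (hVD he)))
  have heE' : e' ∈ E := hPE (Or.inr (mem_connectedComponentIn (hVD he')))
  have hWo : IsOpen {z | (z, τ z) ∈ N} :=
    hN.preimage (continuous_id.prodMk hτ)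
  obtain ⟨G, G₂, hG, hG₂, hGG, hdisG, hyG, hQG⟩ := sep (Z := Kx) (P := {f x})
    (Q := Kx \ {z | (z, τ z) ∈ N}) hKxc isClosed_singleton (hKxc.sdiff hWo)
    (singleton_subset_iff.2 hyKx) sdiff_subset (by
      intro H hHc hHK hHP hHQ
      obtain ⟨p, hpH, hp⟩ := hHP
      obtain ⟨q, hqH, -, hq⟩ := hHQ
      have hp' : p = f x := hp
      subst hp'
      have := hH H hHc (hHK.trans hKxK) hpH (fun h => haKx e he heE (hHK h))
        (fun h => haKx e' he' heE' (hHK h))
      exact hq (hsec.2 q (this hqH)))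
  have hGdiff : Kx \ G = G₂ := by
    ext z
    constructor
    · rintro ⟨hz, hzG⟩
      rw [← hGG] at hz
      exact hz.resolve_left hzG
    · intro hz
      exact ⟨hGG ▸ Or.inr hz, fun hzG => disjoint_left.1 hdisG hzG hz⟩
  have hGKx : G ⊆ Kx := hGG ▸ subset_union_left
  refine ⟨E, G, ⟨hτ, hE, hED, hEcl, hET, hG, hGKx, ?_, ?_⟩, hyG rfl, hyE⟩
  · rw [← hKx, hGdiff]
    exact hG₂
  · intro z hz
    by_contra hcon
    exact disjoint_left.1 hdisG hz (hQG ⟨hGG ▸ Or.inl hz, hcon⟩)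

end CArc
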