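import Pool.Agent.Helper18.LK.Loc1
import Pool.Agent.Helper18.LK.Loc2

set_option autoImplicit false

/-!
# LK-Loc: local data (assembly of Loc1 and Loc2)
-/

namespace CArc

open Set Topology

theorem local_data {X Y : Type} [MetricSpace X] [CompactSpace X] [MetricSpace Y] [CompactSpace Y]
    (hX : ArcLike X) {f : X → Y} (hf : Continuous f) (hsurj : Function.Surjective f)
    (hconf : Confl f) {N : Set (Y × ℝ)} (hN : IsOpen N) {ψ : X → ℝ} (hψ : Continuous ψ)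
    {K : Set Y} (hK : Cont K) (hnt : K.Nontrivial) (hind : ¬ Decomp K)
    (hmin : ∀ K' : Set Y, Cont K' → K' ⊆ K → K' ≠ K → EP N f ψ K') {V : Set Y} {O' : Set ℝ}
    (hV : IsOpen V) (hO' : IsOpen O') (hVK : (V ∩ K).Nonempty) (hDK : closure (V ∩ K) ≠ K)
    (hO : ∀ y ∈ closure (V ∩ K), ∀ t, (y, t) ∈ N ↔ t ∈ O')
    (htr : ∀ y ∈ closure (V ∩ K), ∀ y' ∈ closure (V ∩ K), ∀ x, f x = y →
      ∃ x', f x' = y' ∧ Set.uIcc (ψ x) (ψ x') ⊆ O') {x : X} (hx : f x ∈ K) :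
    ∃ (τ : Y → ℝ) (E G : Set Y), LData N f ψ K V τ E G ∧ f x ∈ G ∧ f x ∉ E ∧
      Seg N (f x) (τ (f x)) (ψ x) := by
  obtain ⟨e, e', Q, τ, he, he', hQ, hQK, hQne, hxQ, hPe, hPe', hxe, hxe', hH, hsec, hseg, hte,
    hte'⟩ := local_data1 hX hf hsurj hconf hN hψ hK hnt hind hmin hV hVK hDK hx
  obtain ⟨E, G, hL, hG, hE⟩ := local_data2 hN hK hV hO' hO htr hx he he' hQ hQK hxQ hPe hPe' hxe
    hxe' hH hsec hte hte'
  exact ⟨τ, E, G, hL, hG, hE, hseg⟩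

end CArc
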