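import Pool.Agent.Helper18.LK.ND
import Pool.Agent.Helper78.CA.Triod

set_option autoImplicit false

/-!
# LK-TS: the two sides of a point of an indecomposable continuum

By `bump` there is a continuum `Q₁ ⊆ K`, `Q₁ ≠ K`, `y ∈ Q₁`, and a point `e ∈ Q₁ ∩ V`. Let `𝓗` be the family of all continua `H ⊆ K` with `y ∈ H`,
`e ∉ H`; `{y} ∈ 𝓗` since `y ∉ V`.
Case 1: no `H ∈ 𝓗` meets `(V ∩ K) \ Q₁`. This set is nonempty (`nowhere_dense`), and it is `K ∩ (V \ Q₁)` with `V \ Q₁` open. Let `M = closure (⋃₀ 𝓗)`: a continuum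
(`isConnected_sUnion`/`IsPreconnected` of a union with common point `y`, closure), `M ⊆ K`, and `M` misses the open set `V \ Q₁`... so `M ≠ K`. Take
`e' = e`, `Q = M ∪ Q₁`: a continuum (common point `y`), `Q ≠ K` because `K` is not decomposable. Every `H` with `e ∉ H` is in `𝓗`, so `H ⊆ M`.
Case 2: there are `H₀ ∈ 𝓗` and `e' ∈ H₀ ∩ (V ∩ K) \ Q₁`. `H₀ ≠ K` (as `e ∈ K \ H₀`). Take `Q = Q₁ ∪ H₀ ≠ K`. If `H` is a continuum, `y ∈ H`, `e, e' ∉ H`, and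
`t ∈ H \ (Q₁ ∪ H₀)`, then `no_triod` with `T₁ = Q₁`, `T₂ = H₀`, `T₃ = H`, `p = y`, `t₁ = e`, `t₂ = e'`, `t₃ = t` is a contradiction.
-/

namespace CArc

open Set Topology

theorem two_sides {X Y : Type} [MetricSpace X] [CompactSpace X] [MetricSpace Y] [CompactSpace Y]
    (hX : ArcLike X) {f : X → Y} (hf : Continuous f) (hsurj : Function.Surjective f)
    (hconf : Confl f) {K : Set Y} (hK : Cont K) (hnt : K.Nontrivial) (hind : ¬ Decomp K) {y : Y}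
    (hy : y ∈ K) {V : Set Y} (hV : IsOpen V) (hVK : (V ∩ K).Nonempty) (hyV : y ∉ V) :
    ∃ e ∈ V ∩ K, ∃ e' ∈ V ∩ K, ∃ Q : Set Y, Cont Q ∧ Q ⊆ K ∧ Q ≠ K ∧ y ∈ Q ∧ e ∈ Q ∧ e' ∈ Q ∧
      ∀ H : Set Y, Cont H → H ⊆ K → y ∈ H → e ∉ H → e' ∉ H → H ⊆ Q := by
  obtain ⟨Q₁, hQ₁, hQ₁K, hQ₁ne, hyQ₁, e, heQ₁, heV⟩ := bump hK hnt hy hV hVK
  have heK : e ∈ K := hQ₁K heQ₁
  have hun : ∀ A B : Set Y, Cont A → Cont B → y ∈ A → y ∈ B → Cont (A ∪ B) := by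
    intro A B hA hB hyA hyB
    exact ⟨hA.1.union hB.1, IsConnected.union ⟨y, hyA, hyB⟩ hA.2 hB.2⟩
  have hprop : ∀ A B : Set Y, Cont A → Cont B → A ≠ K → B ≠ K → A ∪ B ≠ K := by
    intro A B hA hB hAne hBne h
    exact hind ⟨A, B, hA, hB, h, hAne, hBne⟩
  obtain ⟨w, ⟨hwV, hwK⟩, hwQ₁⟩ := nowhere_dense hK hind hQ₁ hQ₁K hQ₁ne hV hVK
  by_cases hcase : ∃ H : Set Y, Cont H ∧ H ⊆ K ∧ y ∈ H ∧ e ∉ H ∧ (H ∩ ((V ∩ K) \ Q₁)).Nonempty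
  · obtain ⟨H₀, hH₀, hH₀K, hyH₀, heH₀, e', he'H₀, ⟨he'V, he'K⟩, he'Q₁⟩ := hcase
    have hH₀ne : H₀ ≠ K := fun h => heH₀ (h ▸ heK)
    refine ⟨e, ⟨heV, heK⟩, e', ⟨he'V, he'K⟩, Q₁ ∪ H₀, hun _ _ hQ₁ hH₀ hyQ₁ hyH₀,
      union_subset hQ₁K hH₀K, hprop _ _ hQ₁ hH₀ hQ₁ne hH₀ne, Or.inl hyQ₁, Or.inl heQ₁,
      Or.inr he'H₀, ?_⟩
    intro H hH hHK hyH heH he'H t htH
    by_contra ht
    rw [mem_union, not_or] at ht
    exact no_triod hX hf hsurj hconf hQ₁ hH₀ hH hyQ₁ hyH₀ hyH heQ₁ he'H₀ htH heH₀ heH he'Q₁ he'H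
      ht.1 ht.2
  · have hnone : ∀ H : Set Y, Cont H → H ⊆ K → y ∈ H → e ∉ H → ∀ t ∈ H, t ∈ V → t ∈ Q₁ := by
      intro H hH hHK hyH heH t htH htV
      by_contra ht
      exact hcase ⟨H, hH, hHK, hyH, heH, t, htH, ⟨htV, hHK htH⟩, ht⟩
    let F : Set (Set Y) := {H | Cont H ∧ H ⊆ K ∧ y ∈ H ∧ e ∉ H}
    have hsingle : ({y} : Set Y) ∈ F := by
      refine ⟨⟨isCompact_singleton, isConnected_singleton⟩, singleton_subset_iff.2 hy,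
        mem_singleton y, ?_⟩
      intro h
      rw [mem_singleton_iff] at h
      exact hyV (h ▸ heV)
    have hMK : closure (⋃₀ F) ⊆ K :=
      closure_minimal (sUnion_subset fun H hH => hH.2.1) hK.1.isClosed
    have hyM : y ∈ closure (⋃₀ F) := subset_closure ⟨{y}, hsingle, mem_singleton y⟩
    have hM : Cont (closure (⋃₀ F)) := by
      refine ⟨isClosed_closure.isCompact, ⟨y, hyM⟩, ?_⟩
      apply IsPreconnected.closure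
      exact isPreconnected_sUnion y F (fun H hH => hH.2.2.1) (fun H hH => hH.1.2.isPreconnected)
    have hMne : closure (⋃₀ F) ≠ K := by
      intro h
      have hw : w ∈ closure (⋃₀ F) := h ▸ hwK
      rw [mem_closure_iff] at hw
      obtain ⟨t, ⟨htV, htQ⟩, H, hH, htH⟩ := hw (V \ Q₁) (hV.sdiff hQ₁.1.isClosed) ⟨hwV, hwQ₁⟩
      exact htQ (hnone H hH.1 hH.2.1 hH.2.2.1 hH.2.2.2 t htH htV)
    refine ⟨e, ⟨heV, heK⟩, e, ⟨heV, heK⟩, closure (⋃₀ F) ∪ Q₁, hun _ _ hM hQ₁ hyM hyQ₁,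
      union_subset hMK hQ₁K, hprop _ _ hM hQ₁ hMne hQ₁ne, Or.inl hyM, Or.inr heQ₁, Or.inr heQ₁, ?_⟩
    intro H hH hHK hyH heH _ t htH
    exact Or.inl (subset_closure ⟨H, ⟨hH, hHK, hyH, heH⟩, htH⟩)

end CArc
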