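import Pool.Agent.Helper18.LK.T2
import Pool.Agent.Helper18.LK.TS

set_option autoImplicit false

/-!
# LK-Loc1: local data, first half

Write `D = closure (V ∩ K) ⊆ K` (`K` is closed), `y = f x`.
Let `P = connectedComponentIn D y` (it is `∅` if `y ∉ D`); `P` is closed; if `y ∈ D` it is a continuum, `≠ K` (`P ⊆ D ≠ K`). `V' = V \ P` is open,
`(V' ∩ K)` is nonempty by `nowhere_dense` (or trivially), `y ∉ V'` (if `y ∈ V` then `y ∈ V ∩ K ⊆ D` and `y ∈ P`). `two_sides` for `V'`: `e, e', Q₀`.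
`e, e' ∈ D`, not in `P`. Let `Pe = connectedComponentIn D e`, `Pe'` similarly: continua, `≠ K`, not containing `y` (components are disjoint or equal: if `y ∈ Pe` then `y ∈ D` and `Pe = P ∋ e`).
`Q = Q₀ ∪ Pe ∪ Pe'` is a continuum `⊆ K` and `≠ K` (`¬ Decomp K`, twice). `truth_two` for `L = Q`, `b = e`, `b' = e'` and `x`: section `τ` over `Q`, through
`x`, true at `e` and `e'`.
-/

namespace CArc

open Set Topology

theorem loc1_comp_closed {Y : Type} [MetricSpace Y] {D : Set Y} (hD : IsClosed D) (z : Y) :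
    IsClosed (connectedComponentIn D z) := by
  by_cases hz : z ∈ D
  · exact isClosed_of_closure_subset
      (isPreconnected_connectedComponentIn.closure.subset_connectedComponentIn
        (subset_closure (mem_connectedComponentIn hz))
        (closure_minimal (connectedComponentIn_subset _ _) hD))
  · rw [connectedComponentIn_eq_empty hz]
    exact isClosed_empty

theorem loc1_comp_cont {Y : Type} [MetricSpace Y] [CompactSpace Y] {D : Set Y}
    (hD : IsClosed D) {z : Y} (hz : z ∈ D) : Cont (connectedComponentIn D z) :=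
  ⟨(loc1_comp_closed hD z).isCompact, isConnected_connectedComponentIn_iff.2 hz⟩

theorem loc1_union {Y : Type} [MetricSpace Y] {K A B : Set Y} (hind : ¬ Decomp K) (hA : Cont A)
    (hB : Cont B) (hAK : A ⊆ K) (hBK : B ⊆ K) (hA' : A ≠ K) (hB' : B ≠ K)
    (h : (A ∩ B).Nonempty) : Cont (A ∪ B) ∧ A ∪ B ⊆ K ∧ A ∪ B ≠ K :=
  ⟨⟨hA.1.union hB.1, IsConnected.union h hA.2 hB.2⟩, union_subset hAK hBK,
    fun h1 => hind ⟨A, B, hA, hB, h1, hA', hB'⟩⟩

theorem local_data1 {X Y : Type} [MetricSpace X] [CompactSpace X] [MetricSpace Y]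
    [CompactSpace Y] (hX : ArcLike X) {f : X → Y} (hf : Continuous f)
    (hsurj : Function.Surjective f) (hconf : Confl f) {N : Set (Y × ℝ)} (hN : IsOpen N)
    {ψ : X → ℝ} (hψ : Continuous ψ) {K : Set Y} (hK : Cont K) (hnt : K.Nontrivial)
    (hind : ¬ Decomp K) (hmin : ∀ K' : Set Y, Cont K' → K' ⊆ K → K' ≠ K → EP N f ψ K')
    {V : Set Y} (hV : IsOpen V) (hVK : (V ∩ K).Nonempty) (hDK : closure (V ∩ K) ≠ K) {x : X}
    (hx : f x ∈ K) :
    ∃ (e e' : Y) (Q : Set Y) (τ : Y → ℝ), e ∈ V ∩ K ∧ e' ∈ V ∩ K ∧ Cont Q ∧ Q ⊆ K ∧ Q ≠ K ∧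
      f x ∈ Q ∧ connectedComponentIn (closure (V ∩ K)) e ⊆ Q ∧
      connectedComponentIn (closure (V ∩ K)) e' ⊆ Q ∧
      f x ∉ connectedComponentIn (closure (V ∩ K)) e ∧
      f x ∉ connectedComponentIn (closure (V ∩ K)) e' ∧
      (∀ H : Set Y, Cont H → H ⊆ K → f x ∈ H → e ∉ H → e' ∉ H → H ⊆ Q) ∧
      Sec N Q τ ∧ Seg N (f x) (τ (f x)) (ψ x) ∧ TrueAt N f ψ τ e ∧ TrueAt N f ψ τ e' := by
  set D : Set Y := closure (V ∩ K) with hD
  have hDcl : IsClosed D := isClosed_closure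
  have hDsub : D ⊆ K := closure_minimal inter_subset_right hK.1.isClosed
  have hcompK : ∀ z : Y, connectedComponentIn D z ≠ K := by
    intro z h
    exact hDK (Subset.antisymm hDsub (h ▸ connectedComponentIn_subset D z))
  have hcompsub : ∀ z : Y, connectedComponentIn D z ⊆ K := fun z =>
    (connectedComponentIn_subset D z).trans hDsub
  set P : Set Y := connectedComponentIn D (f x) with hP
  have hPcl : IsClosed P := loc1_comp_closed hDcl _
  have hV' : IsOpen (V \ P) := hV.sdiff hPcl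
  have hV'K : ((V \ P) ∩ K).Nonempty := by
    by_cases hy : f x ∈ D
    · obtain ⟨z, ⟨hz1, hz2⟩, hz3⟩ := nowhere_dense hK hind (loc1_comp_cont hDcl hy)
        (hcompsub _) (hcompK _) hV hVK
      exact ⟨z, ⟨hz1, hz3⟩, hz2⟩
    · have hPe : P = ∅ := connectedComponentIn_eq_empty hy
      obtain ⟨z, hz1, hz2⟩ := hVK
      refine ⟨z, ⟨hz1, ?_⟩, hz2⟩
      rw [hPe]
      exact notMem_empty z
  have hyV' : f x ∉ V \ P := by
    rintro ⟨h1, h2⟩
    exact h2 (mem_connectedComponentIn (subset_closure ⟨h1, hx⟩))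
  obtain ⟨e, he, e', he', Q₀, hQ₀, hQ₀K, hQ₀ne, hyQ₀, heQ₀, he'Q₀, hside⟩ :=
    two_sides hX hf hsurj hconf hK hnt hind hx hV' hV'K hyV'
  have heVK : e ∈ V ∩ K := ⟨he.1.1, he.2⟩
  have he'VK : e' ∈ V ∩ K := ⟨he'.1.1, he'.2⟩
  have heD : e ∈ D := subset_closure heVK
  have he'D : e' ∈ D := subset_closure he'VK
  have hnot : ∀ z : Y, z ∈ D → z ∉ P → f x ∉ connectedComponentIn D z := by
    intro z hz hzP h
    apply hzP
    have h1 : connectedComponentIn D z = connectedComponentIn D (f x) :=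
      connectedComponentIn_eq h
    show z ∈ connectedComponentIn D (f x)
    rw [← h1]
    exact mem_connectedComponentIn hz
  obtain ⟨hQ₁, hQ₁K, hQ₁ne⟩ := loc1_union hind hQ₀ (loc1_comp_cont hDcl heD) hQ₀K (hcompsub e)
    hQ₀ne (hcompK e) ⟨e, heQ₀, mem_connectedComponentIn heD⟩
  obtain ⟨hQ₂, hQ₂K, hQ₂ne⟩ := loc1_union hind hQ₁ (loc1_comp_cont hDcl he'D) hQ₁K (hcompsub e')
    hQ₁ne (hcompK e') ⟨e', Or.inl he'Q₀, mem_connectedComponentIn he'D⟩
  have hyQ : f x ∈ Q₀ ∪ connectedComponentIn D e ∪ connectedComponentIn D e' :=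
    Or.inl (Or.inl hyQ₀)
  obtain ⟨τ, hτ, hτx, hτe, hτe'⟩ := truth_two hX hf hsurj hconf hN hψ hQ₂
    (hmin _ hQ₂ hQ₂K hQ₂ne) (b := e) (b' := e') (Or.inl (Or.inl heQ₀)) (Or.inl (Or.inl he'Q₀)) hyQ
  refine ⟨e, e', _, τ, heVK, he'VK, hQ₂, hQ₂K, hQ₂ne, hyQ, ?_, ?_, hnot e heD he.1.2,
    hnot e' he'D he'.1.2, ?_, hτ, hτx, hτe, hτe'⟩
  · exact fun z hz => Or.inl (Or.inr hz)
  · exact fun z hz => Or.inr hz
  · intro H hH hHK hyH heH he'H
    exact (hside H hH hHK hyH heH he'H).trans (fun z hz => Or.inl (Or.inl hz))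

end CArc
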