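import Pool.Agent.Helper18.LK.Defs

set_option autoImplicit false

/-!
# LK-PN: polyhedral neighbourhoods

`exists_poly`: the graph `{(f x, ψ x)}` is compact and contained in the open set `N`, so there is `r > 0` such that
`dist (f x) y < r` and `|t - ψ x| < r` imply `(y, t) ∈ N` (for example `IsCompact.exists_thickening_subset_open` or
`exists_cthickening_subset_open`). Cover `Y` by finitely many closed balls `B j` of radius `r / 4` and put
`O j = {t | ∃ x, f x ∈ B j ∧ |t - ψ x| < r}` (open, a union of balls).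
`polyN_open`: the complement is the union of the finitely many closed sets `B j ×ˢ (O j)ᶜ`.
-/

namespace CArc

open Set Topology

theorem polyN_open {Y : Type} [TopologicalSpace Y] {n : ℕ} {B : Fin n → Set Y}
    {O : Fin n → Set ℝ} (hB : ∀ j, IsClosed (B j)) (hO : ∀ j, IsOpen (O j)) :
    IsOpen (PolyN B O) := by
  have h : PolyN B O = ⋂ j : Fin n, ((Prod.fst ⁻¹' (B j)ᶜ) ∪ (Prod.snd ⁻¹' (O j))) := by
    ext q
    simp only [PolyN, mem_iInter, mem_union, mem_preimage, mem_compl_iff]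
    constructor
    · intro hq j
      by_cases h1 : q.1 ∈ B j
      · exact Or.inr (hq j h1)
      · exact Or.inl h1
    · intro hq j h1
      rcases hq j with h2 | h2
      · exact absurd h1 h2
      · exact h2
  rw [h]
  exact isOpen_iInter_of_finite fun j =>
    (((hB j).isOpen_compl).preimage continuous_fst).union ((hO j).preimage continuous_snd)

theorem exists_poly {X Y : Type} [MetricSpace X] [CompactSpace X] [MetricSpace Y] [CompactSpace Y]
    {f : X → Y} (hf : Continuous f) {N : Set (Y × ℝ)} (hN : IsOpen N) {ψ : X → ℝ}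
    (hψ : Continuous ψ) (hψN : ∀ x, (f x, ψ x) ∈ N) :
    ∃ (n : ℕ) (B : Fin n → Set Y) (O : Fin n → Set ℝ), (∀ j, IsClosed (B j)) ∧
      (∀ j, IsOpen (O j)) ∧ (∀ y, ∃ j, y ∈ B j) ∧ (∀ x, (f x, ψ x) ∈ PolyN B O) ∧
      PolyN B O ⊆ N := by
  have hC : IsCompact (Set.range fun x : X => (f x, ψ x)) :=
    isCompact_range (hf.prodMk hψ)
  have hCN : (Set.range fun x : X => (f x, ψ x)) ⊆ N := by
    rintro _ ⟨x, rfl⟩
    exact hψN x
  obtain ⟨r, hr, hrN⟩ := hC.exists_thickening_subset_open hN hCN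
  obtain ⟨T, -, hTf, hT⟩ := finite_cover_balls_of_compact (X := Y)
    isCompact_univ (e := r / 4) (by positivity)
  have hfin : Finite T := hTf
  obtain ⟨n, ⟨e⟩⟩ := Finite.exists_equiv_fin T
  have hmem : ∀ j : Fin n, ∀ x : X, f x ∈ Metric.closedBall ((e.symm j : T) : Y) (r / 4) →
      ψ x ∈ {t : ℝ | ∃ x, f x ∈ Metric.closedBall ((e.symm j : T) : Y) (r / 4) ∧
        |t - ψ x| < r} := by
    intro j x hx
    exact ⟨x, hx, by simpa using hr⟩
  refine ⟨n, fun j => Metric.closedBall ((e.symm j : T) : Y) (r / 4),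
    fun j => {t : ℝ | ∃ x, f x ∈ Metric.closedBall ((e.symm j : T) : Y) (r / 4) ∧
      |t - ψ x| < r}, fun j => Metric.isClosed_closedBall, ?_, ?_, ?_, ?_⟩
  · intro j
    have h1 : {t : ℝ | ∃ x, f x ∈ Metric.closedBall ((e.symm j : T) : Y) (r / 4) ∧
        |t - ψ x| < r} = ⋃ x : X, {t : ℝ | f x ∈ Metric.closedBall ((e.symm j : T) : Y) (r / 4) ∧
        |t - ψ x| < r} := by
      ext t; simp
    show IsOpen {t : ℝ | ∃ x, f x ∈ Metric.closedBall ((e.symm j : T) : Y) (r / 4) ∧
        |t - ψ x| < r}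
    rw [h1]
    apply isOpen_iUnion
    intro x
    by_cases h2 : f x ∈ Metric.closedBall ((e.symm j : T) : Y) (r / 4)
    · have h3 : {t : ℝ | f x ∈ Metric.closedBall ((e.symm j : T) : Y) (r / 4) ∧
          |t - ψ x| < r} = {t : ℝ | |t - ψ x| < r} := by
        ext t
        exact ⟨fun h => h.2, fun h => ⟨h2, h⟩⟩
      rw [h3]
      exact isOpen_lt ((continuous_id.sub continuous_const).abs) continuous_const
    · have h3 : {t : ℝ | f x ∈ Metric.closedBall ((e.symm j : T) : Y) (r / 4) ∧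
          |t - ψ x| < r} = ∅ := by
        ext t
        exact ⟨fun h => absurd h.1 h2, fun h => absurd h (by simp)⟩
      rw [h3]
      exact isOpen_empty
  · intro y
    have h1 := hT (mem_univ y)
    rw [mem_iUnion₂] at h1
    obtain ⟨c, hc, hy⟩ := h1
    refine ⟨e ⟨c, hc⟩, ?_⟩
    show y ∈ Metric.closedBall ((e.symm (e ⟨c, hc⟩) : T) : Y) (r / 4)
    rw [Equiv.symm_apply_apply]
    exact Metric.ball_subset_closedBall hy
  · intro x j hx
    exact hmem j x hx
  · rintro ⟨y, t⟩ hq
    have h1 := hT (mem_univ y)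
    rw [mem_iUnion₂] at h1
    obtain ⟨c, hc, hy⟩ := h1
    have hyB : y ∈ Metric.closedBall ((e.symm (e ⟨c, hc⟩) : T) : Y) (r / 4) := by
      rw [Equiv.symm_apply_apply]
      exact Metric.ball_subset_closedBall hy
    obtain ⟨x, hx, hxt⟩ := hq (e ⟨c, hc⟩) hyB
    apply hrN
    rw [Metric.mem_thickening_iff]
    refine ⟨(f x, ψ x), ⟨x, rfl⟩, ?_⟩
    rw [Prod.dist_eq]
    have h2 : dist y (f x) < r := by
      have h3 : dist y ((e.symm (e ⟨c, hc⟩) : T) : Y) ≤ r / 4 := hyB
      have h4 : dist (f x) ((e.symm (e ⟨c, hc⟩) : T) : Y) ≤ r / 4 := hx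
      have h5 := dist_triangle_right y (f x) ((e.symm (e ⟨c, hc⟩) : T) : Y)
      linarith
    have h3 : dist t (ψ x) < r := by rwa [Real.dist_eq]
    exact max_lt h2 h3

end CArc
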