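import Pool.Agent.Helper18.LK.Ind
import Pool.Agent.Helper18.LK.PN
import Pool.Agent.Helper18.LK.CV
import Pool.Agent.Helper18.LK.Loc
import Pool.Agent.Helper18.LK.FinFam
import Pool.Agent.Helper18.LK.Glue
import Pool.Agent.Helper18.LK.CSP

set_option autoImplicit false

/-!
# LK-Main: assembly (helper18)
-/

namespace CArc

open Set Topology

/-- Relatively clopen sets have locally constant membership. -/
theorem clopen_mem_lc {Y : Type} [TopologicalSpace Y] {S G : Set Y} (hG : IsClosed G)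
    (hG' : IsClosed (S \ G)) {y : Y} :
    ∃ U : Set Y, IsOpen U ∧ y ∈ U ∧ ∀ z ∈ S ∩ U, (z ∈ G ↔ y ∈ G) := by
  by_cases h : y ∈ G
  · refine ⟨(S \ G)ᶜ, hG'.isOpen_compl, fun h' => h'.2 h, ?_⟩
    rintro z ⟨hzS, hz⟩
    refine ⟨fun _ => h, fun _ => ?_⟩
    by_contra hzG
    exact hz ⟨hzS, hzG⟩
  · refine ⟨Gᶜ, hG.isOpen_compl, h, ?_⟩
    rintro z ⟨hzS, hz⟩
    exact ⟨fun h1 => absurd h1 hz, fun h1 => absurd h1 h⟩

/-- Finite families of locally constant functions. -/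
theorem lc_finite_inter {Y : Type} [TopologicalSpace Y] {m : ℕ} {S : Set Y} {y : Y}
    {P : Fin m → Y → Prop}
    (h : ∀ a, ∃ U : Set Y, IsOpen U ∧ y ∈ U ∧ ∀ z ∈ S ∩ U, P a z) :
    ∃ U : Set Y, IsOpen U ∧ y ∈ U ∧ ∀ z ∈ S ∩ U, ∀ a, P a z := by
  choose U hU hyU hP using h
  refine ⟨⋂ a, U a, isOpen_iInter_of_finite hU, mem_iInter.2 hyU, ?_⟩
  rintro z ⟨hzS, hz⟩ a
  exact hP a z ⟨hzS, mem_iInter.1 hz a⟩

/-- A locally constant choice from finitely many continuous functions is continuous. -/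
theorem lc_choice_cont {Y : Type} [TopologicalSpace Y] {m : ℕ} {S : Set Y}
    {τ : Fin m → Y → ℝ} (hτ : ∀ a, Continuous (τ a)) {l : Y → Fin m} (hl : LC S l) :
    ContinuousOn (fun y => τ (l y) y) S := by
  intro y hy
  obtain ⟨U, hU, hyU, hlU⟩ := hl y hy
  have h1 : ContinuousWithinAt (τ (l y)) S y := (hτ (l y)).continuousWithinAt
  refine h1.congr_of_eventuallyEq ?_ rfl
  have h2 : S ∩ U ∈ 𝓝[S] y := inter_mem_nhdsWithin S (hU.mem_nhds hyU)
  filter_upwards [h2] with z hz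
  show τ (l z) z = τ (l y) z
  rw [hlU z hz]

/-- Extension property for the indecomposable case. -/
theorem ep_indec {X Y : Type} [MetricSpace X] [CompactSpace X] [MetricSpace Y] [CompactSpace Y]
    (hX : ArcLike X) {f : X → Y} (hf : Continuous f) (hsurj : Function.Surjective f)
    (hconf : Confl f) {n : ℕ} {B : Fin n → Set Y} {O : Fin n → Set ℝ}
    (hB : ∀ j, IsClosed (B j)) (hO : ∀ j, IsOpen (O j))
    {ψ : X → ℝ} (hψ : Continuous ψ) (hψN : ∀ x, (f x, ψ x) ∈ PolyN B O) {K : Set Y}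
    (hK : Cont K) (hnt : K.Nontrivial) (hind : ¬ Decomp K)
    (hmin : ∀ K' : Set Y, Cont K' → K' ⊆ K → K' ≠ K → EP (PolyN B O) f ψ K') :
    EP (PolyN B O) f ψ K := by
  classical
  intro x₀ hx₀
  have hN : IsOpen (PolyN B O) := polyN_open hB hO
  obtain ⟨V, O', hV, hO', hVK, hDK, hO1, htr⟩ := choose_V hf hψ hB hO hψN hK hnt
  have hKc : IsClosed K := hK.1.isClosed
  have hDsub : closure (V ∩ K) ⊆ K := closure_minimal inter_subset_right hKc
  obtain ⟨m, τ, E, G, hL, hcov⟩ := finite_family hf hN hψ hKc hV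
    (fun x hx => local_data hX hf hsurj hconf hN hψ hK hnt hind hmin hV hO' hVK hDK hO1 htr hx)
  obtain ⟨a₀, ha₀G, ha₀E, ha₀s⟩ := hcov x₀ hx₀
  -- segments over `D`
  have hseg1 : ∀ y ∈ closure (V ∩ K), ∀ s t : ℝ, Seg (PolyN B O) y s t ↔ Set.uIcc s t ⊆ O' :=
    fun y hy s t => ⟨fun h r hr => (hO1 y hy r).1 (h r hr), fun h r hr => (hO1 y hy r).2 (h hr)⟩
  have hcomp1 : ∀ y ∈ closure (V ∩ K), ∀ s t : ℝ, Seg (PolyN B O) y s t →
      connectedComponentIn O' s = connectedComponentIn O' t := by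
    intro y hy s t hst
    have h1 : Set.uIcc s t ⊆ O' := (hseg1 y hy s t).1 hst
    have h2 : t ∈ connectedComponentIn O' s :=
      isPreconnected_uIcc.subset_connectedComponentIn left_mem_uIcc h1 right_mem_uIcc
    exact connectedComponentIn_eq h2
  have hcomp2 : ∀ y ∈ closure (V ∩ K), ∀ s t : ℝ, s ∈ O' → t ∈ O' →
      connectedComponentIn O' s = connectedComponentIn O' t → Seg (PolyN B O) y s t := by
    intro y hy s t hs ht hst
    rw [hseg1 y hy]
    have h1 : t ∈ connectedComponentIn O' s := by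
      rw [hst]
      exact mem_connectedComponentIn ht
    have h2 : s ∈ connectedComponentIn O' s := mem_connectedComponentIn hs
    have h3 : (connectedComponentIn O' s).OrdConnected :=
      isPreconnected_connectedComponentIn.ordConnected
    exact (h3.uIcc_subset h2 h1).trans (connectedComponentIn_subset _ _)
  -- the piece functions
  let p : Y → Set (Fin m) := fun y => {a | y ∈ G a}
  let q : Y → Set (Fin m) × Set (Fin m) × (Fin m → Set ℝ) := fun y =>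
    ({a | y ∈ E a}, {a | y ∈ G a ∧ y ∉ E a},
      fun a => if y ∈ E a ∨ y ∈ G a then connectedComponentIn O' (τ a y) else ∅)
  have hEO : ∀ a, ∀ y ∈ closure (V ∩ K), y ∈ E a → τ a y ∈ O' := by
    intro a y hy hya
    obtain ⟨x, -, hs⟩ := (hL a).trueE y hya
    exact (hO1 y hy _).1 (seg_left hs)
  have hGO : ∀ a, ∀ y ∈ closure (V ∩ K), y ∈ G a → τ a y ∈ O' := by
    intro a y hy hya
    exact (hO1 y hy _).1 ((hL a).secG y hya)
  have hp : LC ((K \ V) ∩ K) p := by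
    rintro y ⟨hy, -⟩
    have h1 := lc_finite_inter (S := K \ V) (y := y) (P := fun a z => (z ∈ G a ↔ y ∈ G a))
      (fun a => by
        refine clopen_mem_lc (hL a).closedG ?_
        have h2 : (K \ V) \ G a = (K \ V) ∩ (((K \ V) ∪ (closure (V ∩ K) \ E a)) \ G a) := by
          ext z
          simp only [mem_sdiff, mem_inter_iff, mem_union]
          tauto
        rw [h2]
        exact (hKc.sdiff hV).inter (hL a).closedG')
    obtain ⟨U, hU, hyU, hP⟩ := h1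
    refine ⟨U, hU, hyU, ?_⟩
    rintro z ⟨⟨hz, -⟩, hzU⟩
    ext a
    exact hP z ⟨hz, hzU⟩ a
  have hq : LC (closure (V ∩ K) ∩ K) q := by
    rintro y ⟨hy, -⟩
    have h1 := lc_finite_inter (S := closure (V ∩ K)) (y := y)
      (P := fun a z => (z ∈ E a ↔ y ∈ E a) ∧ ((z ∈ G a ∧ z ∉ E a) ↔ (y ∈ G a ∧ y ∉ E a)) ∧
        ((z ∈ E a ∨ z ∈ G a) → connectedComponentIn O' (τ a z) = connectedComponentIn O' (τ a y)))
      (fun a => by
        obtain ⟨U₁, hU₁, hyU₁, hP₁⟩ := clopen_mem_lc (y := y) (hL a).closedE (hL a).closedE'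
        -- continuity of `τ a`
        have hcomp : ∃ U₃ : Set Y, IsOpen U₃ ∧ y ∈ U₃ ∧ ∀ z ∈ closure (V ∩ K) ∩ U₃,
            τ a y ∈ O' → connectedComponentIn O' (τ a z) = connectedComponentIn O' (τ a y) := by
          by_cases hyO : τ a y ∈ O'
          · refine ⟨τ a ⁻¹' connectedComponentIn O' (τ a y),
              (hO'.connectedComponentIn).preimage (hL a).cont, mem_connectedComponentIn hyO, ?_⟩
            rintro z ⟨-, hz⟩ -
            exact (connectedComponentIn_eq hz).symm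
          · exact ⟨univ, isOpen_univ, mem_univ _, fun z _ h => absurd h hyO⟩
        obtain ⟨U₃, hU₃, hyU₃, hP₃⟩ := hcomp
        by_cases hyE : y ∈ E a
        · refine ⟨U₁ ∩ U₃, hU₁.inter hU₃, ⟨hyU₁, hyU₃⟩, ?_⟩
          rintro z ⟨hz, hzU₁, hzU₃⟩
          have h3 : z ∈ E a := (hP₁ z ⟨hz, hzU₁⟩).2 hyE
          refine ⟨hP₁ z ⟨hz, hzU₁⟩, ⟨fun h => absurd h3 h.2, fun h => absurd hyE h.2⟩, fun _ => ?_⟩
          exact hP₃ z ⟨hz, hzU₃⟩ (hEO a y hy hyE)
        · obtain ⟨U₂, hU₂, hyU₂, hP₂⟩ := clopen_mem_lc (hL a).closedG (hL a).closedG'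
            (y := y)
          refine ⟨U₁ ∩ U₂ ∩ U₃, (hU₁.inter hU₂).inter hU₃, ⟨⟨hyU₁, hyU₂⟩, hyU₃⟩, ?_⟩
          rintro z ⟨hz, ⟨hzU₁, hzU₂⟩, hzU₃⟩
          have h3 : z ∉ E a := fun h => hyE ((hP₁ z ⟨hz, hzU₁⟩).1 h)
          have h4 : z ∈ G a ↔ y ∈ G a := hP₂ z ⟨Or.inr ⟨hz, h3⟩, hzU₂⟩
          refine ⟨hP₁ z ⟨hz, hzU₁⟩, ?_, fun h => ?_⟩
          · rw [h4]
            exact ⟨fun h => ⟨h.1, hyE⟩, fun h => ⟨h.1, h3⟩⟩
          · have h5 : y ∈ G a := by
              rcases h with h | h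
              · exact absurd h h3
              · exact h4.1 h
            exact hP₃ z ⟨hz, hzU₃⟩ (hGO a y hy h5))
    obtain ⟨U, hU, hyU, hP⟩ := h1
    refine ⟨U, hU, hyU, ?_⟩
    rintro z ⟨⟨hz, -⟩, hzU⟩
    have h2 := hP z ⟨hz, hzU⟩
    refine Prod.ext ?_ (Prod.ext ?_ ?_)
    · ext a
      exact (h2 a).1
    · ext a
      exact (h2 a).2.1
    · funext a
      show (if z ∈ E a ∨ z ∈ G a then connectedComponentIn O' (τ a z) else ∅) =
        (if y ∈ E a ∨ y ∈ G a then connectedComponentIn O' (τ a y) else ∅)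
      have h3 : (z ∈ E a ∨ z ∈ G a) ↔ (y ∈ E a ∨ y ∈ G a) := by
        have h4 := (h2 a).1
        have h5 := (h2 a).2.1
        tauto
      by_cases h : z ∈ E a ∨ z ∈ G a
      · rw [if_pos h, if_pos (h3.1 h)]
        exact (h2 a).2.2 h
      · rw [if_neg h, if_neg (fun h' => h (h3.2 h'))]
  -- choice of default labels
  let a₁ : Set (Fin m) → Fin m := fun i =>
    if a₀ ∈ i then a₀ else if h : i.Nonempty then h.some else a₀
  have ha₁ : ∀ i : Set (Fin m), i.Nonempty → a₁ i ∈ i := by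
    intro i hi
    show (if a₀ ∈ i then a₀ else if h : i.Nonempty then h.some else a₀) ∈ i
    by_cases h : a₀ ∈ i
    · rw [if_pos h]; exact h
    · rw [if_neg h, dif_pos hi]; exact hi.some_mem
  have ha₁' : ∀ i : Set (Fin m), a₀ ∈ i → a₁ i = a₀ := fun i hi => if_pos hi
  have hDD : K ⊆ closure (V ∩ K) ∪ (K \ V) := by
    intro y hy
    by_cases h : y ∈ V
    · exact Or.inl (subset_closure ⟨h, hy⟩)
    · exact Or.inr ⟨hy, h⟩
  have hfin := csp hX hf hsurj hconf hK (D := closure (V ∩ K)) (D' := K \ V) isClosed_closure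
    (hKc.sdiff hV) hDD hp hq (fun i a => a ∈ i) (fun j b => b ∈ j.2.1)
    (fun _ j a b => j.2.2 a = j.2.2 b)
    (by
      rintro y ⟨⟨hyD, hyD'⟩, hyK⟩ a (ha : y ∈ G a)
      by_cases hE : y ∈ E a
      · obtain ⟨x₁, hx₁, hs⟩ := (hL a).trueE y hE
        obtain ⟨b, hbG, hbE, hbs⟩ := hcov x₁ (by rw [hx₁]; exact hyK)
        rw [hx₁] at hbG hbE hbs
        refine ⟨b, ⟨hbG, hbE⟩, ?_⟩
        show (if y ∈ E a ∨ y ∈ G a then connectedComponentIn O' (τ a y) else ∅) =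
          (if y ∈ E b ∨ y ∈ G b then connectedComponentIn O' (τ b y) else ∅)
        rw [if_pos (Or.inl hE), if_pos (Or.inr hbG)]
        exact hcomp1 y hyD _ _ (seg_trans hs (seg_symm hbs))
      · exact ⟨a, ⟨ha, hE⟩, rfl⟩)
    (by
      rintro y ⟨⟨hyD, hyD'⟩, hyK⟩ b ⟨hb, -⟩
      exact ⟨b, hb, rfl⟩)
    a₁
    (by
      rintro y ⟨-, hyK⟩
      obtain ⟨x, rfl⟩ := hsurj y
      obtain ⟨a, haG, -, -⟩ := hcov x hyK
      exact ha₁ _ ⟨a, haG⟩)
    (fun j => a₁ j.2.1)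
    (by
      rintro y ⟨-, hyK⟩
      obtain ⟨x, rfl⟩ := hsurj y
      obtain ⟨a, haG, haE, -⟩ := hcov x hyK
      exact ha₁ _ ⟨a, haG, haE⟩)
    (y₀ := f x₀) hx₀
  obtain ⟨l', l, hl', hl, hadm', hadm, hR, hy₀, hy₀'⟩ := hfin
  have hKV : (K \ V) ∩ K = K \ V := inter_eq_left.2 sdiff_subset
  have hDK' : closure (V ∩ K) ∩ K = closure (V ∩ K) := inter_eq_left.2 hDsub
  rw [hKV] at hl' hadm'
  rw [hDK'] at hl hadm
  have hc₁ : ContinuousOn (fun y => τ (l y) y) (closure (V ∩ K)) :=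
    lc_choice_cont (fun a => (hL a).cont) hl
  have hc₂ : ContinuousOn (fun y => τ (l' y) y) (K \ V) :=
    lc_choice_cont (fun a => (hL a).cont) hl'
  obtain ⟨s, hsec, hs₂, hs₁⟩ := glue_boundary hN hKc hV hc₁ hc₂
    (fun y hy => (hL (l y)).secG y (hadm y hy).1)
    (fun y hy => (hL (l' y)).secG y (hadm' y hy))
    (by
      rintro y ⟨hyD, hyD'⟩
      have h1 := hR y ⟨⟨hyD, hyD'⟩, hyD'.1⟩
      have h2 : (if y ∈ E (l' y) ∨ y ∈ G (l' y) then connectedComponentIn O' (τ (l' y) y) else ∅) =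
          (if y ∈ E (l y) ∨ y ∈ G (l y) then connectedComponentIn O' (τ (l y) y) else ∅) := h1
      have h3 : y ∈ G (l' y) := hadm' y hyD'
      have h4 : y ∈ G (l y) := (hadm y hyD).1
      rw [if_pos (Or.inr h3), if_pos (Or.inr h4)] at h2
      exact hcomp2 y hyD _ _ (hGO _ y hyD h4) (hGO _ y hyD h3) h2.symm)
  refine ⟨s, hsec, ?_⟩
  by_cases hxV : f x₀ ∈ V
  · have h1 : l (f x₀) = a₀ := by
      rw [hy₀' (fun h => h.2 hxV)]
      exact ha₁' _ ⟨ha₀G, ha₀E⟩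
    have h2 := hs₁ (f x₀) (subset_closure ⟨hxV, hx₀⟩)
    simp only [h1] at h2
    exact seg_trans h2 ha₀s
  · have h1 : l' (f x₀) = a₀ := by
      rw [hy₀ ⟨hx₀, hxV⟩]
      exact ha₁' _ ha₀G
    rw [hs₂ (f x₀) ⟨hx₀, hxV⟩]
    simp only [h1]
    exact ha₀s

theorem ep_mono_N {X Y : Type} [TopologicalSpace Y] {N N' : Set (Y × ℝ)} (h : N' ⊆ N)
    {f : X → Y} {ψ : X → ℝ} {K : Set Y} (hE : EP N' f ψ K) : EP N f ψ K := by
  intro x hx
  obtain ⟨s, hs, hg⟩ := hE x hx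
  exact ⟨s, ⟨hs.1, fun y hy => h (hs.2 y hy)⟩, fun t ht => h (hg t ht)⟩

theorem ep_all' {X Y : Type} [MetricSpace X] [CompactSpace X] [MetricSpace Y] [CompactSpace Y]
    (hX : ArcLike X) {f : X → Y} (hf : Continuous f) (hsurj : Function.Surjective f)
    (hconf : Confl f) (N : Set (Y × ℝ)) (hN : IsOpen N) (ψ : X → ℝ) (hψ : Continuous ψ)
    (hψN : ∀ x, (f x, ψ x) ∈ N) (K : Set Y) (hK : Cont K) (hKu : K ≠ univ) : EP N f ψ K := by
  obtain ⟨n, B, O, hB, hO, -, hgr, hsub⟩ := exists_poly hf hN hψ hψN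
  refine ep_mono_N hsub ?_
  by_contra hbad
  have hN' : IsOpen (PolyN B O) := polyN_open hB hO
  obtain ⟨K₀, hK₀, -, hbad₀, hnt, hmin⟩ := exists_minimal_failing hf hN' hψ hgr hK hKu hbad
  have hind : ¬ Decomp K₀ :=
    min_not_decomp hX hf hsurj hconf hN' hψ hK₀ hmin hbad₀
  exact hbad₀ (ep_indec hX hf hsurj hconf hB hO hψ hgr hK₀ hnt hind hmin)

theorem arclike_image {X Y : Type} [MetricSpace X] [CompactSpace X] [MetricSpace Y]
    [CompactSpace Y] [Nonempty X] (hX : ArcLike X) {f : X → Y} (hf : Continuous f)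
    (hsurj : Function.Surjective f) (hconf : Confl f) : ArcLike Y :=
  arclike_of_ep hX hf hsurj (ep_all' hX hf hsurj hconf)

end CArc
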