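import Pool.Agent.Helper18.LK.Bump

set_option autoImplicit false

/-!
# LK-ND: proper subcontinua of an indecomposable continuum have empty interior

Suppose `V ∩ K ⊆ L`. First replace `V` by an open `V₁` with `(V₁ ∩ K).Nonempty` and `closure V₁ ⊆ V`, so `closure V₁ ∩ K ⊆ L`.
Let `Z = K \ V₁` (closed) and `z₀ ∈ K \ L` (so `z₀ ∉ closure V₁`). By `bump_aux`:
(*) for every `z ∈ K \ L` there is a continuum `H ⊆ Z`, `z ∈ H`, which meets `closure V₁ ∩ K ⊆ L`.
Case 1: there is `z₁ ∈ K \ L` such that no continuum `H ⊆ Z` contains `z₀` and `z₁`. `sep` (`P = {z₀}`, `Q = {z₁}`) gives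
`Z = F₁ ∪ F₂`. Let `Aᵢ = L ∪ Fᵢ`: closed; connected, because every point of `Fᵢ \ L` lies in a continuum `H ⊆ Z` which meets `L` (*), and
`H ⊆ Fᵢ` by connectedness of `H`. `A₁ ∪ A₂ = K` (a point of `V₁ ∩ K` is in `L`), `z₁ ∉ A₁`, `z₀ ∉ A₂`: `K` is decomposable.
Case 2: otherwise `K \ L ⊆ C := connectedComponentIn Z z₀`, a continuum (closed in `Z`), `C ≠ K` as `V₁ ∩ K` is nonempty and disjoint from
`C`; `K = L ∪ C` is decomposable.
-/

namespace CArc

open Set Topology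

/-- the set `L ∪ F` is a continuum -/
theorem nd_cont {Y : Type} [MetricSpace Y] [CompactSpace Y] {K L Z F F' : Set Y} (hL : Cont L)
    (hF : IsClosed F) (hF' : IsClosed F') (hun : F ∪ F' = Z) (hdis : Disjoint F F')
    (hZK : Z ⊆ K)
    (hH : ∀ z ∈ K \ L, ∃ H : Set Y, Cont H ∧ H ⊆ Z ∧ z ∈ H ∧ (H ∩ L).Nonempty) :
    Cont (L ∪ F) := by
  obtain ⟨l, hl⟩ := hL.2.nonempty
  refine ⟨hL.1.union hF.isCompact, ⟨l, Or.inl hl⟩, ?_⟩
  refine isPreconnected_of_forall l ?_
  intro y hy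
  by_cases hyL : y ∈ L
  · exact ⟨L, subset_union_left, hl, hyL, hL.2.isPreconnected⟩
  · have hyF : y ∈ F := hy.resolve_left hyL
    have hyZ : y ∈ Z := by rw [← hun]; exact Or.inl hyF
    obtain ⟨H, hHc, hHZ, hyH, x, hxH, hxL⟩ := hH y ⟨hZK hyZ, hyL⟩
    have hHF : H ⊆ F := by
      intro z hz
      by_contra hzF
      have hzF' : z ∈ F' := by
        have h1 : z ∈ F ∪ F' := by rw [hun]; exact hHZ hz
        exact h1.resolve_left hzF
      obtain ⟨w, -, hw1, hw2⟩ := isPreconnected_closed_iff.1 hHc.2.isPreconnected F F' hF hF'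
        (by rw [hun]; exact hHZ) ⟨y, hyH, hyF⟩ ⟨z, hz, hzF'⟩
      exact disjoint_left.1 hdis hw1 hw2
    refine ⟨L ∪ H, union_subset_union_right L hHF, Or.inl hl, Or.inr hyH, ?_⟩
    exact (IsPreconnected.union x hxL hxH hL.2.isPreconnected hHc.2.isPreconnected)

theorem nowhere_dense {Y : Type} [MetricSpace Y] [CompactSpace Y] {K L : Set Y} (hK : Cont K)
    (hind : ¬ Decomp K) (hL : Cont L) (hLK : L ⊆ K) (hne : L ≠ K) {V : Set Y} (hV : IsOpen V)
    (hVK : (V ∩ K).Nonempty) : ((V ∩ K) \ L).Nonempty := by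
  by_contra hcon
  rw [not_nonempty_iff_eq_empty, diff_eq_empty] at hcon
  obtain ⟨v, hvV, hvK⟩ := hVK
  obtain ⟨ε, hε, hball⟩ := Metric.isOpen_iff.1 hV v hvV
  set V₁ : Set Y := Metric.ball v (ε / 2) with hV₁
  have hV₁o : IsOpen V₁ := Metric.isOpen_ball
  have hvV₁ : v ∈ V₁ := Metric.mem_ball_self (by linarith)
  have hcl : closure V₁ ⊆ V := by
    refine Metric.closure_ball_subset_closedBall.trans ?_
    exact (Metric.closedBall_subset_ball (by linarith)).trans hball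
  have hclL : ∀ y ∈ closure V₁, y ∈ K → y ∈ L := fun y hy hyK => hcon ⟨hcl hy, hyK⟩
  have hKc : IsClosed K := hK.1.isClosed
  set Z : Set Y := K \ V₁ with hZ
  have hZc : IsClosed Z := hKc.sdiff hV₁o
  have hZK : Z ⊆ K := diff_subset
  have hbig : ∃ z, z ∈ K ∧ z ∉ L := by
    by_contra h
    push Not at h
    exact hne (Subset.antisymm hLK h)
  obtain ⟨z₀, hz₀K, hz₀L⟩ := hbig
  have hmemZ : ∀ z, z ∈ K → z ∉ L → z ∈ Z := fun z hzK hzL =>
    ⟨hzK, fun hz => hzL (hclL z (subset_closure hz) hzK)⟩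
  have hstar : ∀ z ∈ K \ L, ∃ H : Set Y, Cont H ∧ H ⊆ Z ∧ z ∈ H ∧ (H ∩ L).Nonempty := by
    rintro z ⟨hzK, hzL⟩
    obtain ⟨H, hH, hHZ, hzH, w, hwH, hwc⟩ := bump_aux hK hzK hV₁o ⟨v, hvV₁, hvK⟩
      (fun h => hzL (hclL z h hzK))
    exact ⟨H, hH, hHZ, hzH, w, hwH, hclL w hwc (hHZ hwH).1⟩
  by_cases hc : ∃ z₁ ∈ K \ L, ∀ H : Set Y, Cont H → H ⊆ Z → z₀ ∈ H → z₁ ∈ H → False
  · obtain ⟨z₁, ⟨hz₁K, hz₁L⟩, hno⟩ := hc
    obtain ⟨F₁, F₂, hF₁, hF₂, hun, hdis, hP, hQ⟩ := sep (P := {z₀}) (Q := {z₁}) hZc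
      isClosed_singleton isClosed_singleton
      (by rw [singleton_subset_iff]; exact hmemZ z₀ hz₀K hz₀L)
      (by rw [singleton_subset_iff]; exact hmemZ z₁ hz₁K hz₁L)
      (by
        rintro H hH hHZ ⟨a, haH, ha⟩ ⟨b, hbH, hb⟩
        rw [mem_singleton_iff] at ha hb
        subst ha
        subst hb
        exact hno H hH hHZ haH hbH)
    rw [singleton_subset_iff] at hP hQ
    apply hind
    refine ⟨L ∪ F₁, L ∪ F₂, nd_cont hL hF₁ hF₂ hun hdis hZK hstar,
      nd_cont hL hF₂ hF₁ (by rw [union_comm]; exact hun) hdis.symm hZK hstar, ?_, ?_, ?_⟩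
    · apply Subset.antisymm
      · refine union_subset (union_subset hLK ?_) (union_subset hLK ?_)
        · exact (subset_union_left.trans hun.subset).trans hZK
        · exact (subset_union_right.trans hun.subset).trans hZK
      · intro y hy
        by_cases hyL : y ∈ L
        · exact Or.inl (Or.inl hyL)
        · have h1 : y ∈ F₁ ∪ F₂ := by rw [hun]; exact hmemZ y hy hyL
          rcases h1 with h1 | h1
          · exact Or.inl (Or.inr h1)
          · exact Or.inr (Or.inr h1)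
    · intro h
      have h1 : z₁ ∈ L ∪ F₁ := by rw [h]; exact hz₁K
      rcases h1 with h1 | h1
      · exact hz₁L h1
      · exact disjoint_left.1 hdis h1 hQ
    · intro h
      have h1 : z₀ ∈ L ∪ F₂ := by rw [h]; exact hz₀K
      rcases h1 with h1 | h1
      · exact hz₀L h1
      · exact disjoint_left.1 hdis hP h1
  · push Not at hc
    have hz₀Z : z₀ ∈ Z := hmemZ z₀ hz₀K hz₀L
    set C : Set Y := connectedComponentIn Z z₀ with hC
    have hz₀C : z₀ ∈ C := mem_connectedComponentIn hz₀Z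
    have hCZ : C ⊆ Z := connectedComponentIn_subset Z z₀
    have hCp : IsPreconnected C := isPreconnected_connectedComponentIn
    have hCcl : IsClosed C := by
      rw [← closure_subset_iff_isClosed]
      exact hCp.closure.subset_connectedComponentIn (subset_closure hz₀C)
        (closure_minimal hCZ hZc)
    apply hind
    refine ⟨L, C, hL, ⟨hCcl.isCompact, ⟨z₀, hz₀C⟩, hCp⟩, ?_, hne, ?_⟩
    · apply Subset.antisymm (union_subset hLK (hCZ.trans hZK))
      intro y hy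
      by_cases hyL : y ∈ L
      · exact Or.inl hyL
      · right
        obtain ⟨H, hH, hHZ, h0, h1⟩ := hc y ⟨hy, hyL⟩
        exact hH.2.isPreconnected.subset_connectedComponentIn h0 hHZ h1.1
    · intro h
      have h1 : v ∈ C := by rw [h]; exact hvK
      exact (hCZ h1).2 hvV₁

end CArc
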