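import Pool.Agent.Helper18.LK.Defs
import Pool.Agent.Helper78.CA.Uni
import Pool.Agent.Helper78.CA.Chain
import Pool.Agent.Helper78.CA.Sep
import Pool.Agent.Helper78.CA.Two

set_option autoImplicit false

/-!
# LK-T: one-point truth

Let `Bad = {x | f x ∈ L ∧ ¬ ∃ s, Sec N L s ∧ Seg N (f x) (s (f x)) (ψ x) ∧ TrueAt N f ψ s b}`. It is closed
(`f ⁻¹' L` is closed, and for a fixed `s` the set `{x | Seg N (f x) (s (f x)) (ψ x)}` is open by `seg_open`).
Suppose it is nonempty. Zorn (`zorn_superset_nonempty`) for the family of all continua `Q ⊆ L` with `b ∈ Q` and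
`∃ x ∈ Bad, f x ∈ Q` (nonempty: `L`; a chain has the intersection as lower bound: `cont_sInter`, and the compact sets
`Bad ∩ f ⁻¹' Q` form a chain of nonempty closed sets, so they have a common point) gives a minimal `Q`. Take
`x₁ ∈ Bad`, `f x₁ ∈ Q`, `C = connectedComponentIn (f ⁻¹' Q) x₁`; `f '' C = Q` (`hconf`), so there is `x_b ∈ C` with
`f x_b = b`, and `x_b ∉ Bad` by `hEP x_b`. `C` is preconnected; `C ∩ Bad` is relatively closed, nonempty and not `C`, so it is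
not relatively open: there is `x₂ ∈ C ∩ Bad` in the closure of `C \ Bad`. Let `s` be a section over `L` through `x₂` (`hEP`).
The set `{x | Seg N (f x) (s (f x)) (ψ x)}` is open, so there is `x₃ ∈ C \ Bad` in it; let `s'` be the section over `L`
through `x₃`, true at `b`. `E = {y | Seg N y (s y) (s' y)}` is open (`seg_open`) and contains `f x₃ ∈ Q`. `b ∉ E`
(otherwise `s` is true at `b`) and `f x₂ ∉ E` (otherwise `s'` passes through `x₂`). No continuum `H ⊆ L \ E` contains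
`f x₂` and `b`: `H ∩ Q` is a continuum (`inter_connected`) in the Zorn family, so `H ∩ Q = Q ∋ f x₃ ∈ E`. By `sep`
(`Z = L \ E`, `P = {f x₂}`, `Q = {b}`) `L \ E = Z₁ ∪ Z₂`; take `u : Y → [0,1]` continuous, `0` on `Z₁`, `1` on `Z₂`
(`exists_continuous_zero_one_of_isClosed`) and `(1 - u) s + u s'` (`two_aux1`): it is a section over `L` through `x₂`, true at `b`.
Contradiction.
-/

namespace CArc

open Set Topology

theorem truth_one {X Y : Type} [MetricSpace X] [CompactSpace X] [MetricSpace Y] [CompactSpace Y]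
    (hX : ArcLike X) {f : X → Y} (hf : Continuous f) (hsurj : Function.Surjective f)
    (hconf : Confl f) {N : Set (Y × ℝ)} (hN : IsOpen N) {ψ : X → ℝ} (hψ : Continuous ψ)
    {L : Set Y} (hL : Cont L) (hEP : EP N f ψ L) {b : Y} (hb : b ∈ L) {x : X} (hx : f x ∈ L) :
    ∃ s : Y → ℝ, Sec N L s ∧ Seg N (f x) (s (f x)) (ψ x) ∧ TrueAt N f ψ s b := by
  classical
  by_contra hcon
  set Bad : Set X := {x | f x ∈ L ∧ ¬ ∃ s : Y → ℝ, Sec N L s ∧ Seg N (f x) (s (f x)) (ψ x) ∧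
    TrueAt N f ψ s b} with hBad
  have hBx : x ∈ Bad := ⟨hx, hcon⟩
  have hBcl : IsClosed Bad := by
    have h1 : IsClosed (f ⁻¹' L) := hL.1.isClosed.preimage hf
    have h2 : Bad = f ⁻¹' L ∩ ⋂ (s : Y → ℝ) (_ : Sec N L s ∧ TrueAt N f ψ s b),
        {x | Seg N (f x) (s (f x)) (ψ x)}ᶜ := by
      ext z
      simp only [hBad, mem_ofPred_eq, mem_inter_iff, mem_preimage, mem_iInter, mem_compl_iff]
      constructor
      · rintro ⟨h3, h4⟩
        exact ⟨h3, fun s hs h5 => h4 ⟨s, hs.1, h5, hs.2⟩⟩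
      · rintro ⟨h3, h4⟩
        refine ⟨h3, ?_⟩
        rintro ⟨s, h5, h6, h7⟩
        exact h4 s ⟨h5, h7⟩ h6
    rw [h2]
    refine h1.inter (isClosed_iInter fun s => isClosed_iInter fun h => ?_)
    exact (seg_open hN hf (h.1.1.comp hf) hψ).isClosed_compl
  -- a minimal continuum
  have hLS : L ∈ {Q : Set Y | Cont Q ∧ Q ⊆ L ∧ b ∈ Q ∧ ∃ x ∈ Bad, f x ∈ Q} :=
    ⟨hL, Subset.rfl, hb, x, hBx, hx⟩
  obtain ⟨Q, -, hQ⟩ := zorn_superset_nonempty
    {Q : Set Y | Cont Q ∧ Q ⊆ L ∧ b ∈ Q ∧ ∃ x ∈ Bad, f x ∈ Q} (by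
      intro c hc hch hcne
      refine ⟨⋂₀ c, ⟨cont_sInter hcne hch fun A hA => (hc hA).1, ?_, ?_, ?_⟩,
        fun A hA => sInter_subset_of_mem hA⟩
      · obtain ⟨A, hA⟩ := hcne
        exact (sInter_subset_of_mem hA).trans (hc hA).2.1
      · exact mem_sInter.2 fun A hA => (hc hA).2.2.1
      · by_contra hno
        push Not at hno
        have hcomp : IsClosed (f '' Bad) := (hBcl.isCompact.image hf).isClosed
        obtain ⟨A, hA, hAU⟩ := chain_subset_open hcne hch (fun A hA => (hc hA).1.1.isClosed)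
          hcomp.isOpen_compl (by
            rintro y hy ⟨z, hz, rfl⟩
            exact hno z hz hy)
        obtain ⟨z, hz, hzA⟩ := (hc hA).2.2.2
        exact hAU hzA ⟨z, hz, rfl⟩) L hLS
  obtain ⟨⟨hQc, hQL, hbQ, x₁, hx₁, hx₁Q⟩, hQmin⟩ := hQ
  set C : Set X := connectedComponentIn (f ⁻¹' Q) x₁ with hC
  have hfC : f '' C = Q := hconf Q hQc.1 hQc.2 x₁ hx₁Q
  have hCQ : ∀ z ∈ C, f z ∈ Q := fun z hz =>
    (connectedComponentIn_subset (f ⁻¹' Q) x₁) hz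
  have hx₁C : x₁ ∈ C := mem_connectedComponentIn hx₁Q
  obtain ⟨xb, hxbC, hxb⟩ : ∃ z ∈ C, f z = b := by
    have : b ∈ f '' C := by rw [hfC]; exact hbQ
    exact this
  have hxbB : xb ∉ Bad := by
    rintro ⟨h1, h2⟩
    obtain ⟨s, hs, hs'⟩ := hEP xb h1
    exact h2 ⟨s, hs, hs', xb, hxb, by rw [← hxb]; exact hs'⟩
  obtain ⟨x₂, hx₂C, hx₂B, hx₂cl⟩ : ∃ z ∈ C, z ∈ Bad ∧ z ∈ closure (C \ Bad) := by
    by_contra hno
    push Not at hno
    have hpre : IsPreconnected C := isPreconnected_connectedComponentIn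
    obtain ⟨z, hzC, hz1, hz2⟩ := hpre Badᶜ (closure (C \ Bad))ᶜ hBcl.isOpen_compl
      isClosed_closure.isOpen_compl (by
        intro z hz
        by_cases hzB : z ∈ Bad
        · exact Or.inr (hno z hz hzB)
        · exact Or.inl hzB) ⟨xb, hxbC, hxbB⟩ ⟨x₁, hx₁C, hno x₁ hx₁C hx₁⟩
    exact hz2 (subset_closure ⟨hzC, hz1⟩)
  obtain ⟨s, hs, hsx₂⟩ := hEP x₂ hx₂B.1
  have hOo : IsOpen {z : X | Seg N (f z) (s (f z)) (ψ z)} :=
    seg_open hN hf (hs.1.comp hf) hψ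
  obtain ⟨x₃, hx₃O, hx₃C, hx₃B⟩ := mem_closure_iff.1 hx₂cl _ hOo hsx₂
  have hx₃L : f x₃ ∈ L := hQL (hCQ x₃ hx₃C)
  obtain ⟨s', hs', hs'x₃, xt, hxt, hs't⟩ : ∃ s : Y → ℝ, Sec N L s ∧
      Seg N (f x₃) (s (f x₃)) (ψ x₃) ∧ TrueAt N f ψ s b := by
    by_contra hno
    exact hx₃B ⟨hx₃L, hno⟩
  set E : Set Y := {y | Seg N y (s y) (s' y)} with hE
  have hEo : IsOpen E := seg_open hN continuous_id hs.1 hs'.1
  have hx₃E : f x₃ ∈ E := seg_trans hx₃O (seg_symm hs'x₃)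
  have hbE : b ∉ E := by
    intro hbE
    exact hx₂B.2 ⟨s, hs, hsx₂, xt, hxt, seg_trans hbE hs't⟩
  have hx₂E : f x₂ ∉ E := by
    intro h1
    exact hx₂B.2 ⟨s', hs', seg_trans (seg_symm h1) hsx₂, xt, hxt, hs't⟩
  obtain ⟨Z₁, Z₂, hZ₁, hZ₂, hZu, hZd, hZ₁x, hZ₂b⟩ := sep (Z := L \ E) (P := {f x₂}) (Q := {b})
    (hL.1.isClosed.sdiff hEo) isClosed_singleton isClosed_singleton
    (singleton_subset_iff.2 ⟨hx₂B.1, hx₂E⟩) (singleton_subset_iff.2 ⟨hb, hbE⟩) (by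
      rintro H hH hHL ⟨z, hzH, hz⟩ ⟨w, hwH, hw⟩
      rw [mem_singleton_iff] at hz hw
      subst hw
      rw [hz] at hzH
      have h1 : Cont (H ∩ Q) := inter_connected hX hf hsurj hconf hH hQc ⟨w, hwH, hbQ⟩
      have h2 : Q ⊆ H ∩ Q := hQmin ⟨h1, inter_subset_right.trans hQL, ⟨hwH, hbQ⟩, x₂, hx₂B,
        hzH, hCQ x₂ hx₂C⟩ inter_subset_right
      exact (hHL (h2 (hCQ x₃ hx₃C)).1).2 hx₃E)
  obtain ⟨u, hu0, hu1, hu⟩ := exists_continuous_zero_one_of_isClosed hZ₁ hZ₂ hZd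
  have hσ1 : ∀ y ∈ Z₁, (1 - u y) * s y + u y * s' y = s y := by
    intro y hy
    have h1 : u y = 0 := hu0 hy
    rw [h1]
    ring
  have hσ2 : ∀ y ∈ Z₂, (1 - u y) * s y + u y * s' y = s' y := by
    intro y hy
    have h1 : u y = 1 := hu1 hy
    rw [h1]
    ring
  refine hx₂B.2 ⟨fun y => (1 - u y) * s y + u y * s' y, ⟨?_, ?_⟩, ?_, xt, hxt, ?_⟩
  · exact ((continuous_const.sub u.continuous).mul hs.1).add (u.continuous.mul hs'.1)
  · intro y hy
    by_cases hyE : y ∈ E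
    · exact hyE _ (two_aux1 (hu y).1 (hu y).2)
    · have h1 : y ∈ Z₁ ∪ Z₂ := by rw [hZu]; exact ⟨hy, hyE⟩
      rcases h1 with h1 | h1
      · change (y, (1 - u y) * s y + u y * s' y) ∈ N
        rw [hσ1 y h1]
        exact hs.2 y hy
      · change (y, (1 - u y) * s y + u y * s' y) ∈ N
        rw [hσ2 y h1]
        exact hs'.2 y hy
  · change Seg N (f x₂) ((1 - u (f x₂)) * s (f x₂) + u (f x₂) * s' (f x₂)) (ψ x₂)
    rw [hσ1 _ (hZ₁x rfl)]
    exact hsx₂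
  · change Seg N b ((1 - u b) * s b + u b * s' b) (ψ xt)
    rw [hσ2 _ (hZ₂b rfl)]
    exact hs't

end CArc
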