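import Pool.Agent.Helper18.LK.T

set_option autoImplicit false

/-!
# LK-T2: truth at two points

Let `N' = {q ∈ N | q.1 = b → ∃ x', f x' = b ∧ Seg N b q.2 (ψ x')}`. `N'` is open: at `q ∈ N'` with `q.1 ≠ b` clear; if
`q.1 = b`, `N` contains `{b} × (q.2 - ε, q.2 + ε)` and `seg_trans` shows that all `q' ∈ N` with `|q'.2 - q.2| < ε` are in `N'`.
`EP N' f ψ L`: for `x` with `f x ∈ L` take `s` from `truth_one` (for `N`, `b`); `Sec N' L s` because `s` is true at `b`, and
`Seg N' (f x) (s (f x)) (ψ x)`: if `f x = b` use `x' = x` and sub-segments. Now apply `truth_one` to `N'` and `b'`; a section in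
`N'` over `L ∋ b` is true at `b` for `N`, and `Seg N'` implies `Seg N`.
-/

namespace CArc

open Set Topology

theorem truth_two {X Y : Type} [MetricSpace X] [CompactSpace X] [MetricSpace Y] [CompactSpace Y]
    (hX : ArcLike X) {f : X → Y} (hf : Continuous f) (hsurj : Function.Surjective f)
    (hconf : Confl f) {N : Set (Y × ℝ)} (hN : IsOpen N) {ψ : X → ℝ} (hψ : Continuous ψ)
    {L : Set Y} (hL : Cont L) (hEP : EP N f ψ L) {b b' : Y} (hb : b ∈ L) (hb' : b' ∈ L) {x : X}
    (hx : f x ∈ L) :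
    ∃ s : Y → ℝ, Sec N L s ∧ Seg N (f x) (s (f x)) (ψ x) ∧ TrueAt N f ψ s b ∧
      TrueAt N f ψ s b' := by
  set O : Set ℝ := {t : ℝ | ∃ x' : X, f x' = b ∧ Seg N b t (ψ x')} with hO
  have hOo : IsOpen O := by
    have h1 : O = ⋃ x' : X, {t : ℝ | f x' = b ∧ Seg N b t (ψ x')} := by
      ext t; simp [hO]
    rw [h1]
    apply isOpen_iUnion
    intro x'
    by_cases h2 : f x' = b
    · have h3 : {t : ℝ | f x' = b ∧ Seg N b t (ψ x')} = {t : ℝ | Seg N b t (ψ x')} := by
        ext t; simp [h2]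
      rw [h3]
      exact seg_open hN (p := fun _ : ℝ => b) (s₁ := fun t : ℝ => t) (s₂ := fun _ : ℝ => ψ x')
        continuous_const continuous_id continuous_const
    · have h3 : {t : ℝ | f x' = b ∧ Seg N b t (ψ x')} = ∅ := by
        ext t; simp [h2]
      rw [h3]
      exact isOpen_empty
  set N' : Set (Y × ℝ) := {q | q ∈ N ∧ (q.1 = b → q.2 ∈ O)} with hN'
  have hN'o : IsOpen N' := by
    have h1 : N' = N ∩ ((Prod.fst ⁻¹' ({b}ᶜ : Set Y)) ∪ (Prod.snd ⁻¹' O)) := by
      ext q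
      simp only [hN', mem_setOf_eq, mem_inter_iff, mem_union, mem_preimage, mem_compl_iff,
        mem_singleton_iff]
      tauto
    rw [h1]
    exact hN.inter ((isOpen_compl_singleton.preimage continuous_fst).union
      (hOo.preimage continuous_snd))
  have hsub : ∀ {y : Y} {u v : ℝ}, Seg N' y u v → Seg N y u v := fun h t ht => (h t ht).1
  have hEP' : EP N' f ψ L := by
    intro z hz
    obtain ⟨s, hs, hsz, x0, hx0, hs0⟩ := truth_one hX hf hsurj hconf hN hψ hL hEP hb hz
    refine ⟨s, ⟨hs.1, ?_⟩, ?_⟩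
    · intro y hy
      refine ⟨hs.2 y hy, ?_⟩
      intro hyb
      have hyb' : y = b := hyb
      subst hyb'
      exact ⟨x0, hx0, hs0⟩
    · intro t ht
      refine ⟨hsz t ht, ?_⟩
      intro hzb
      have hzb' : f z = b := hzb
      refine ⟨z, hzb', ?_⟩
      rw [← hzb']
      have h1 : Seg N (f z) (ψ z) t := by
        apply seg_mono_right (seg_symm hsz)
        rwa [uIcc_comm]
      exact seg_symm h1
  obtain ⟨s, hs, hsx, x0, hx0, hs0⟩ := truth_one hX hf hsurj hconf hN'o hψ hL hEP' hb' hx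
  refine ⟨s, ⟨hs.1, fun y hy => (hs.2 y hy).1⟩, hsub hsx, ?_, x0, hx0, hsub hs0⟩
  exact (hs.2 b hb).2 rfl

end CArc
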